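import Pool.Agent.H53.MDB.BoostF
import Pool.Agent.H74.MDX.CombW

/-!
# MDB Final: `CombX t t2` from exponential sums over integers (`VKe t0`)
-/

set_option autoImplicit false

namespace Pool.Agent.H53.MDB

open Pool.Agent.H53.MIX (VKe CombX)

theorem combwk (t t2 : ℝ) (ht : t < 1) (h2 : 2 * (1 - t) < t2) (h2t : t2 < t) : CombWk t t2 := by
  intro C hC C0
  obtain ⟨N0, hN0⟩ := Pool.Agent.H74.MDX.comb_weak t t2 ht h2 h2t C hC C0
  refine ⟨N0, fun N hN n P η F0 G0 α β R0 h1 h3 h4 h5 h6 h7 h8 h9 => ?_⟩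
  exact hN0 N hN n P η F0 G0 α β R0 h1 h3 h4 h5 h6 (by rw [mul_comm (Real.exp _) η]; exact h7) h8 h9

theorem comb_x_all (t0 t t2 : ℝ) (h0 : 0 < t0) (h0t : t0 < t) (h2 : 2 * (1 - t) < t2) (h2t : t2 < t) (ht : t < 1)
    (hV : VKe t0) : CombX t t2 :=
  comb_x t0 t t2 h0 h0t (by linarith) h2t ht hV (combwk t t2 ht h2 h2t)

end Pool.Agent.H53.MDB
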