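import Pool.Agent.H53.MDB.Defs

/-!
# MDB SRes: integers in residue classes

`sres_triv`: the number of `m ∈ (P, 2P]` in a residue class mod `δ` is `≤ P/δ + 1`.
`sres_vk`: `r0 = r % δ`, `m = r0 + δ q`: `P < m ≤ 2P` iff `q ∈ Ioc a b`, `a = (P - r0)/δ`, `b = (2P - r0)/δ` (natural numbers, `r0 < δ ≤ P`).  `log m = log δ + log (q + r0/δ)`, so (norms) `|sres| = |∑_{q ∈ Ioc a b} ee(-t log(q + r0/δ))|`.
`VKe t0` at `x = 2N`, `K = 2P/δ` (natural division; `b ≤ K ≤ 2N`, `K ≥ P/δ ≥ exp(L^t - L^t2) ≥ exp((log 2N)^t0)` for large `N` as `t0 < t`, `t2 < t`; `|t| ≤ N ≤ x^3`; `β = r0/δ`), with the exponent `A + 1`: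
`≤ K (100/|t| + 1/(log x)^(A+1)) ≤ (2P/δ)(100/L^(A+1) + 1/L^(A+1)) ≤ (P/δ)/L^A` for `L ≥ 202`; `T1 = A + 1`.
-/

set_option autoImplicit false

namespace Pool.Agent.H53.MDB

open Finset
open Pool.Agent.H91.PK (ee)
open Pool.Agent.H53.MIX (VKe)

private theorem SRes_ee_add (a b : ℝ) : ee (a + b) = ee a * ee b := by
  unfold ee
  rw [← Complex.exp_add]
  congr 1
  push_cast
  ring

private theorem SRes_norm_ee (t : ℝ) : ‖ee t‖ = 1 := by
  unfold ee
  have h : (2 * Real.pi * t * Complex.I : ℂ) = ((2 * Real.pi * t : ℝ) : ℂ) * Complex.I := by push_cast; ring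
  rw [h, Complex.norm_exp_ofReal_mul_I]

theorem sres_triv (P δ r : ℕ) (t : ℝ) (hδ : 1 ≤ δ) : ‖sres P δ r t‖ ≤ P / δ + 1 := by
  have hδR : (0 : ℝ) < δ := by exact_mod_cast hδ
  have h1 : ‖sres P δ r t‖ ≤ (((Ioc P (2 * P)).filter (fun m => m % δ = r % δ)).card : ℝ) := by
    unfold sres
    refine (norm_sum_le _ _).trans ?_
    simp only [SRes_norm_ee]
    rw [Finset.sum_const, nsmul_eq_mul, mul_one]
  refine h1.trans ?_
  have h2 := Nat.Ioc_filter_modEq_card P (2 * P) (r := δ) (by omega) r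
  have h3 : ((Ioc P (2 * P)).filter (fun m => m % δ = r % δ)) = ((Ioc P (2 * P)).filter (fun m => m ≡ r [MOD δ])) := rfl
  have h4 : ((((Ioc P (2 * P)).filter (fun m => m % δ = r % δ)).card : ℤ) : ℝ) ≤ P / δ + 1 := by
    rw [h3, h2]
    push_cast
    refine max_le ?_ (by positivity)
    have e1 : ((⌊(((2 * P : ℕ) : ℚ) - r) / δ⌋ : ℤ) : ℝ) ≤ ((2 * P : ℝ) - r) / δ := by
      have := Int.floor_le ((((2 * P : ℕ) : ℚ) - r) / δ)
      have h : (((⌊(((2 * P : ℕ) : ℚ) - r) / δ⌋ : ℤ) : ℚ) : ℝ) ≤ (((((2 * P : ℕ) : ℚ) - r) / δ : ℚ) : ℝ) := by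
        exact_mod_cast this
      push_cast at h ⊢
      exact h
    have e2 : ((P : ℝ) - r) / δ < ((⌊((P : ℚ) - r) / δ⌋ : ℤ) : ℝ) + 1 := by
      have := Int.lt_floor_add_one (((P : ℚ) - r) / δ)
      have h : (((((P : ℚ) - r) / δ : ℚ)) : ℝ) < ((((⌊((P : ℚ) - r) / δ⌋ : ℤ) : ℚ) + 1 : ℚ) : ℝ) := by
        exact_mod_cast this
      push_cast at h
      exact h
    have e3 : ((2 * P : ℝ) - r) / δ = ((P : ℝ) - r) / δ + P / δ := by ring
    push_cast at e1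
    linarith
  exact_mod_cast h4

private theorem SRes_ev {t0 t t2 : ℝ} (h0t : t0 < t) (h2t : t2 < t) :
    ∃ L0 : ℝ, 202 ≤ L0 ∧ ∀ L : ℝ, L0 ≤ L → (2 * L) ^ t0 + L ^ t2 ≤ L ^ t := by
  have e1 : Filter.Tendsto (fun L : ℝ => 2 ^ t0 * L ^ (-(t - t0))) Filter.atTop (nhds (2 ^ t0 * 0)) :=
    (tendsto_rpow_neg_atTop (by linarith)).const_mul _
  have e2 : Filter.Tendsto (fun L : ℝ => L ^ (-(t - t2))) Filter.atTop (nhds 0) :=
    tendsto_rpow_neg_atTop (by linarith)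
  rw [mul_zero] at e1
  have f1 := e1.eventually (Iio_mem_nhds (show (0 : ℝ) < 1 / 2 by norm_num))
  have f2 := e2.eventually (Iio_mem_nhds (show (0 : ℝ) < 1 / 2 by norm_num))
  obtain ⟨L1, hL1⟩ := Filter.eventually_atTop.1 (f1.and f2)
  refine ⟨max 202 L1, le_max_left _ _, fun L hL => ?_⟩
  have hL2 : 202 ≤ L := (le_max_left _ _).trans hL
  have hLpos : 0 < L := by linarith
  obtain ⟨g1, g2⟩ := hL1 L ((le_max_right _ _).trans hL)
  replace g1 : 2 ^ t0 * L ^ (-(t - t0)) < 1 / 2 := g1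
  replace g2 : L ^ (-(t - t2)) < 1 / 2 := g2
  have k1 : (2 * L) ^ t0 = (2 ^ t0 * L ^ (-(t - t0))) * L ^ t := by
    rw [Real.mul_rpow (by norm_num) hLpos.le, mul_assoc, ← Real.rpow_add hLpos]
    congr 2; ring
  have k2 : L ^ t2 = L ^ (-(t - t2)) * L ^ t := by
    rw [← Real.rpow_add hLpos]; congr 1; ring
  have k3 : 0 < L ^ t := Real.rpow_pos_of_pos hLpos _
  rw [k1, k2]
  nlinarith

theorem sres_vk (t0 t t2 : ℝ) (h0 : 0 < t0) (h0t : t0 < t) (h2 : 0 < t2) (h2t : t2 < t) (hV : VKe t0) (A : ℕ) :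
    ∃ T1 N0 : ℕ, ∀ N : ℕ, N0 ≤ N → ∀ (P δ r : ℕ) (u : ℝ), Real.exp (Real.log N ^ t) ≤ P → P ≤ N → 1 ≤ δ →
    (δ : ℝ) ≤ Real.exp (Real.log N ^ t2) → Real.log N ^ T1 ≤ |u| → |u| ≤ N →
    ‖sres P δ r u‖ ≤ P / δ / Real.log N ^ A := by
  obtain ⟨L0, hL0, hL⟩ := SRes_ev (t0 := t0) h0t h2t
  obtain ⟨x0, hx0⟩ := hV (A + 1)
  obtain ⟨N1, hN1⟩ := exists_nat_ge (Real.exp L0)
  refine ⟨A + 1, max (max x0 N1) 2, fun N hN P δ r u hP hPN hδ hδ2 hu hu2 => ?_⟩
  have hNx : x0 ≤ N := le_trans (le_trans (le_max_left _ _) (le_max_left _ _)) hN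
  have hNN : N1 ≤ N := le_trans (le_trans (le_max_right _ _) (le_max_left _ _)) hN
  have hN2 : 2 ≤ N := le_trans (le_max_right _ _) hN
  have hNR : (0 : ℝ) < N := by exact_mod_cast (by omega : 0 < N)
  set L := Real.log N with hLdef
  have hLL0 : L0 ≤ L := by
    rw [hLdef, Real.le_log_iff_exp_le hNR]
    exact hN1.trans (by exact_mod_cast hNN)
  have hL202 : 202 ≤ L := hL0.trans hLL0
  have hLpos : 0 < L := by linarith
  have hkey := hL L hLL0
  have hδR : (0 : ℝ) < δ := by exact_mod_cast hδ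
  have hδP : δ ≤ P := by
    have h1 : L ^ t2 ≤ L ^ t := Real.rpow_le_rpow_of_exponent_le (by linarith) h2t.le
    have : (δ : ℝ) ≤ P := hδ2.trans ((Real.exp_le_exp.2 h1).trans hP)
    exact_mod_cast this
  set r0 := r % δ with hr0
  have hr0δ : r0 < δ := Nat.mod_lt _ (by omega)
  set a := (P - r0) / δ with ha
  set b := (2 * P - r0) / δ with hb
  set K := 2 * P / δ with hK
  -- reindexing
  have hre : sres P δ r u = ∑ q ∈ Ioc a b, ee (-(u * Real.log ((r0 + δ * q : ℕ) : ℝ))) := by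
    unfold sres
    symm
    refine Finset.sum_nbij' (fun q => r0 + δ * q) (fun m => m / δ) ?_ ?_ ?_ ?_ ?_
    · intro q hq
      rw [mem_Ioc] at hq
      rw [mem_filter, mem_Ioc]
      have h1 : P - r0 < q * δ := (Nat.div_lt_iff_lt_mul (by omega)).1 hq.1
      have h2 : q * δ ≤ 2 * P - r0 := (Nat.le_div_iff_mul_le (by omega)).1 hq.2
      refine ⟨⟨?_, ?_⟩, ?_⟩
      · rw [mul_comm δ q]; omega
      · rw [mul_comm δ q]; omega
      · rw [Nat.add_mul_mod_self_left, hr0, Nat.mod_mod]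
    · intro m hm
      rw [mem_filter, mem_Ioc] at hm
      rw [mem_Ioc]
      have h1 : r0 + δ * (m / δ) = m := by
        rw [hr0, ← hm.2]; exact Nat.mod_add_div m δ
      constructor
      · rw [ha, Nat.div_lt_iff_lt_mul (by omega)]
        rw [mul_comm δ] at h1; omega
      · rw [hb, Nat.le_div_iff_mul_le (by omega)]
        rw [mul_comm δ] at h1; omega
    · intro q hq
      show (r0 + δ * q) / δ = q
      rw [Nat.add_mul_div_left _ _ (by omega), Nat.div_eq_of_lt hr0δ, zero_add]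
    · intro m hm
      rw [mem_filter, mem_Ioc] at hm
      show r0 + δ * (m / δ) = m
      rw [hr0, ← hm.2]; exact Nat.mod_add_div m δ
    · intro q hq
      rfl
  have hfac : ∀ q ∈ Ioc a b, ee (-(u * Real.log ((r0 + δ * q : ℕ) : ℝ))) =
      ee (-(u * Real.log δ)) * ee ((-u) * Real.log ((q : ℝ) + (r0 : ℝ) / δ)) := by
    intro q hq
    rw [mem_Ioc] at hq
    have hq0 : (0 : ℝ) < q := by exact_mod_cast lt_of_le_of_lt (Nat.zero_le a) hq.1
    rw [← SRes_ee_add]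
    congr 1
    have h1 : ((r0 + δ * q : ℕ) : ℝ) = δ * ((q : ℝ) + (r0 : ℝ) / δ) := by
      push_cast; field_simp; ring
    have h2 : (0 : ℝ) < (q : ℝ) + (r0 : ℝ) / δ := by positivity
    rw [h1, Real.log_mul hδR.ne' h2.ne']
    ring
  have hnorm : ‖sres P δ r u‖ = ‖∑ q ∈ Ioc a b, ee ((-u) * Real.log ((q : ℝ) + (r0 : ℝ) / δ))‖ := by
    rw [hre, Finset.sum_congr rfl hfac, ← Finset.mul_sum, norm_mul, SRes_norm_ee, one_mul]
  rw [hnorm]
  have hlog2 : Real.log ((2 * N : ℕ) : ℝ) ≤ 2 * L := by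
    push_cast
    rw [Real.log_mul (by norm_num) hNR.ne']
    have : Real.log 2 ≤ Real.log N := Real.log_le_log (by norm_num) (by exact_mod_cast hN2)
    linarith
  have hlog2' : L ≤ Real.log ((2 * N : ℕ) : ℝ) := by
    rw [hLdef]
    refine Real.log_le_log hNR ?_
    push_cast; linarith
  -- size of K
  have hPδ : Real.exp (L ^ t - L ^ t2) ≤ (P : ℝ) / δ := by
    rw [Real.exp_sub]
    exact div_le_div₀ (Nat.cast_nonneg _) hP hδR hδ2
  have hPδ1 : (1 : ℝ) ≤ (P : ℝ) / δ := by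
    rw [le_div_iff₀ hδR, one_mul]; exact_mod_cast hδP
  have hKle : (K : ℝ) ≤ 2 * ((P : ℝ) / δ) := by
    have := Nat.cast_div_le (m := 2 * P) (n := δ) (α := ℝ)
    rw [← hK] at this
    refine this.trans (le_of_eq ?_)
    push_cast; ring
  have hKge : (P : ℝ) / δ ≤ K := by
    have h1 : (2 * P : ℕ) < (K + 1) * δ := by
      rw [hK]
      have := Nat.lt_div_mul_add (a := 2 * P) (b := δ) (by omega)
      calc 2 * P < 2 * P / δ * δ + δ := this
        _ = (2 * P / δ + 1) * δ := by ring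
    have h2 : (2 * P : ℝ) < (K + 1) * δ := by exact_mod_cast h1
    have h3 : 2 * ((P : ℝ) / δ) < K + 1 := by
      rw [← mul_div_assoc, div_lt_iff₀ hδR]; exact h2
    linarith
  have hK1 : Real.exp (Real.log ((2 * N : ℕ) : ℝ) ^ t0) ≤ K := by
    refine le_trans ?_ (hPδ.trans hKge)
    rw [Real.exp_le_exp]
    have h1 : Real.log ((2 * N : ℕ) : ℝ) ^ t0 ≤ (2 * L) ^ t0 :=
      Real.rpow_le_rpow (by linarith) hlog2 h0.le
    linarith
  have hK2 : K ≤ 2 * N := by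
    rw [hK]
    exact (Nat.div_le_self _ _).trans (by omega)
  have hbK : b ≤ K := by
    rw [hb, hK]
    exact Nat.div_le_div_right (by omega)
  have hβ1 : (r0 : ℝ) / δ ≤ 1 := by
    rw [div_le_one hδR]; exact_mod_cast hr0δ.le
  have hLT : 1 ≤ L ^ (A + 1) := one_le_pow₀ (by linarith)
  have hu1 : 1 ≤ |(-u)| := by rw [abs_neg]; exact hLT.trans hu
  have hu3 : |(-u)| ≤ ((2 * N : ℕ) : ℝ) ^ (3 : ℕ) := by
    rw [abs_neg]
    refine hu2.trans ?_
    have h1 : (1 : ℝ) ≤ N := by exact_mod_cast (by omega : 1 ≤ N)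
    push_cast
    nlinarith [mul_pos hNR hNR, mul_nonneg (sq_nonneg ((N : ℝ) - 1)) hNR.le]
  have hmain := hx0 (2 * N) (by omega) K a b ((r0 : ℝ) / δ) (-u) hK1 hK2 hbK (by positivity) hβ1 hu1 hu3
  refine hmain.trans ?_
  rw [abs_neg]
  have hu0 : 0 < |u| := lt_of_lt_of_le (by positivity) hu
  have g1 : 100 / |u| ≤ 100 / L ^ (A + 1) := div_le_div_of_nonneg_left (by norm_num) (by positivity) hu
  have g2 : 1 / Real.log ((2 * N : ℕ) : ℝ) ^ (A + 1) ≤ 1 / L ^ (A + 1) :=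
    one_div_le_one_div_of_le (by positivity) (pow_le_pow_left₀ hLpos.le hlog2' _)
  have g3 : 100 / |u| + 1 / Real.log ((2 * N : ℕ) : ℝ) ^ (A + 1) ≤ 101 / L ^ (A + 1) := by
    have : (101 : ℝ) / L ^ (A + 1) = 100 / L ^ (A + 1) + 1 / L ^ (A + 1) := by ring
    linarith
  calc (K : ℝ) * (100 / |u| + 1 / Real.log ((2 * N : ℕ) : ℝ) ^ (A + 1))
      ≤ (2 * ((P : ℝ) / δ)) * (101 / L ^ (A + 1)) := by
        refine mul_le_mul hKle g3 ?_ (by positivity)
        have : 0 ≤ Real.log ((2 * N : ℕ) : ℝ) := by linarith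
        positivity
    _ = ((P : ℝ) / δ) / L ^ A * (202 / L) := by
        rw [pow_succ]; field_simp; ring
    _ ≤ ((P : ℝ) / δ) / L ^ A * 1 := by
        refine mul_le_mul_of_nonneg_left ?_ (by positivity)
        rw [div_le_one hLpos]; exact hL202
    _ = (P : ℝ) / δ / L ^ A := mul_one _

end Pool.Agent.H53.MDB
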