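import Pool.Agent.H53.MDB.Defs

/-!
# MDB Young: bounds for `GG` from a bound for `sres`

Proof.  Let `c = bb i % δ` (prime to `δ`) and `β < δ`.  If `β` is not prime to `δ`, no `m` prime to `δ` satisfies `m bb(i) ≡ β mod δ`: the inner sum is empty.  If `β` is prime to `δ` there is `r = r(β, c)` with `r c ≡ β mod δ` (`r` prime to `δ`), and for all `m`:
(`m` prime to `δ` and `m bb(i) % δ = β`) iff `m % δ = r % δ`; so the inner sum is `ee(t log i) · sres P δ r t`.  In all cases it is `ee(t log i) w(β, c)` with `|w(β, c)| ≤ M`, where `w` depends only on `β` and `c = bb i % δ`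
(define `w(β, c) = ∑_{m ∈ (P,2P], (m,δ)=1, (m c) % δ = β} ee(-t log m)`; `(m * bb i) % δ = (m * (bb i % δ)) % δ`).
`gg_triv`: `|∑_{i ∈ U} ee(t log i) w| ≤ |U| M`, `δ` values of `β`.
`gg_young`: `∑_{i ∈ U} ee(t log i) w(β, bb i % δ) = ∑_{c < δ} w(β, c) u_c`, `u_c = ∑_{i ∈ U, bb i % δ = c} ee(t log i)`; Cauchy-Schwarz: `|…|^2 ≤ (∑_c |w|^2)(∑_c |u_c|^2) ≤ δ M^2 ∑_c |u_c|^2` (the classes `c` not prime to `δ` have `u_c = 0`,
use only `c` in the image of `U`); sum over the `δ` values of `β`.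
(`M ≥ 0` as `0 ≤ ‖sres‖ ≤ M`.)
-/

set_option autoImplicit false

namespace Pool.Agent.H53.MDB

open Finset
open Pool.Agent.H91.PK (ee)

private theorem Young_ee_add (a b : ℝ) : ee (a + b) = ee a * ee b := by
  unfold ee
  rw [← Complex.exp_add]
  congr 1
  push_cast
  ring

private theorem Young_norm_ee (t : ℝ) : ‖ee t‖ = 1 := by
  unfold ee
  have h : (2 * Real.pi * t * Complex.I : ℂ) = ((2 * Real.pi * t : ℝ) : ℂ) * Complex.I := by push_cast; ring
  rw [h, Complex.norm_exp_ofReal_mul_I]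

/-- the sum over `m` with `m c ≡ β` -/
private noncomputable def Young_W (P δ : ℕ) (t : ℝ) (β c : ℕ) : ℂ :=
  ∑ m ∈ (Ioc P (2 * P)).filter (fun m => Nat.Coprime m δ ∧ (m * c) % δ = β), ee (-(t * Real.log m))

private theorem Young_inner (P δ : ℕ) (bb : ℕ → ℕ) (t : ℝ) (β i : ℕ) :
    ∑ m ∈ (Ioc P (2 * P)).filter (fun m => Nat.Coprime m δ ∧ (m * bb i) % δ = β),
      ee (t * (Real.log i - Real.log m)) = ee (t * Real.log i) * Young_W P δ t β (bb i % δ) := by
  unfold Young_W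
  rw [Finset.mul_sum]
  refine Finset.sum_congr ?_ fun m _ => ?_
  · refine Finset.filter_congr fun m _ => ?_
    rw [Nat.mul_mod m (bb i % δ), Nat.mod_mod, ← Nat.mul_mod]
  · rw [← Young_ee_add]; congr 1; ring

private theorem Young_W_le {P δ : ℕ} {t M : ℝ} (hδ : 1 ≤ δ) (hM : ∀ r : ℕ, ‖sres P δ r t‖ ≤ M) {β c : ℕ}
    (hβ : β < δ) (hc : Nat.Coprime c δ) : ‖Young_W P δ t β c‖ ≤ M := by
  have hM0 : 0 ≤ M := (norm_nonneg _).trans (hM 0)
  by_cases hβc : Nat.Coprime β δ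
  · obtain ⟨r, hr⟩ : ∃ r : ℕ, (r * c) % δ = β := by
      obtain ⟨x, hx⟩ := Nat.exists_mul_mod_eq_of_coprime (n := c) (k := δ) β hc (by omega)
      exact ⟨x, by rw [mul_comm, hx.2, Nat.mod_eq_of_lt hβ]⟩
    have hrc : Nat.Coprime r δ := by
      have h1 : Nat.Coprime ((r * c) % δ) δ := by rw [hr]; exact hβc
      have h2 : Nat.gcd (r * c) δ = 1 := by
        rw [Nat.Coprime, ← Nat.gcd_rec, Nat.gcd_comm] at h1
        exact h1
      exact Nat.Coprime.coprime_mul_right h2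
    have hfil : (Ioc P (2 * P)).filter (fun m => Nat.Coprime m δ ∧ (m * c) % δ = β) =
        (Ioc P (2 * P)).filter (fun m => m % δ = r % δ) := by
      refine Finset.filter_congr fun m _ => ?_
      constructor
      · rintro ⟨-, h2⟩
        have h3 : m * c ≡ r * c [MOD δ] := by
          show (m * c) % δ = (r * c) % δ
          rw [h2, hr]
        exact Nat.ModEq.cancel_right_of_coprime (by rw [Nat.gcd_comm]; exact hc) h3
      · intro h
        have h1 : m ≡ r [MOD δ] := h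
        refine ⟨?_, ?_⟩
        · have h2 : Nat.gcd m δ = Nat.gcd r δ := h1.gcd_eq
          rw [Nat.Coprime, h2]; exact hrc
        · have h2 : m * c ≡ r * c [MOD δ] := h1.mul_right c
          have h3 : (m * c) % δ = (r * c) % δ := h2
          rw [h3, hr]
    unfold Young_W
    rw [hfil]
    exact hM r
  · have hemp : (Ioc P (2 * P)).filter (fun m => Nat.Coprime m δ ∧ (m * c) % δ = β) = ∅ := by
      rw [Finset.filter_eq_empty_iff]
      rintro m _ ⟨h1, h2⟩
      apply hβc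
      have h3 : Nat.Coprime (m * c) δ := Nat.Coprime.mul_left h1 hc
      rw [← h2, Nat.Coprime, ← Nat.gcd_rec, Nat.gcd_comm]
      exact h3
    unfold Young_W
    rw [hemp, Finset.sum_empty, norm_zero]
    exact hM0

private theorem Young_mod {bb : ℕ} {δ : ℕ} (h : Nat.Coprime bb δ) : Nat.Coprime (bb % δ) δ := by
  rw [Nat.Coprime, ← Nat.gcd_rec, Nat.gcd_comm]
  exact h

private theorem Young_GG (P δ : ℕ) (U : Finset ℕ) (bb : ℕ → ℕ) (t : ℝ) :
    GG P δ U bb t = ∑ β ∈ range δ, ‖∑ i ∈ U, ee (t * Real.log i) * Young_W P δ t β (bb i % δ)‖ ^ 2 := by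
  unfold GG
  refine Finset.sum_congr rfl fun β _ => ?_
  rw [Finset.sum_congr rfl fun i _ => Young_inner P δ bb t β i]

theorem gg_triv (P δ : ℕ) (U : Finset ℕ) (bb : ℕ → ℕ) (t M : ℝ) (hδ : 1 ≤ δ) (hb : ∀ i ∈ U, Nat.Coprime (bb i) δ)
    (hM : ∀ r : ℕ, ‖sres P δ r t‖ ≤ M) : GG P δ U bb t ≤ δ * (M * U.card) ^ 2 := by
  rw [Young_GG]
  have h1 : ∀ β ∈ range δ, ‖∑ i ∈ U, ee (t * Real.log i) * Young_W P δ t β (bb i % δ)‖ ^ 2 ≤
      (M * U.card) ^ 2 := by
    intro β hβ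
    rw [mem_range] at hβ
    refine pow_le_pow_left₀ (norm_nonneg _) ?_ 2
    refine (norm_sum_le _ _).trans ?_
    calc ∑ i ∈ U, ‖ee (t * Real.log i) * Young_W P δ t β (bb i % δ)‖ ≤ ∑ i ∈ U, M := by
          refine Finset.sum_le_sum fun i hi => ?_
          rw [norm_mul, Young_norm_ee, one_mul]
          exact Young_W_le hδ hM hβ (Young_mod (hb i hi))
      _ = M * U.card := by rw [Finset.sum_const, nsmul_eq_mul, mul_comm]
  refine (Finset.sum_le_sum h1).trans ?_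
  rw [Finset.sum_const, card_range, nsmul_eq_mul]

theorem gg_young (P δ : ℕ) (U : Finset ℕ) (bb : ℕ → ℕ) (t M : ℝ) (hδ : 1 ≤ δ) (hb : ∀ i ∈ U, Nat.Coprime (bb i) δ)
    (hM : ∀ r : ℕ, ‖sres P δ r t‖ ≤ M) :
    GG P δ U bb t ≤ (δ * M) ^ 2 * ∑ c ∈ range δ, ‖∑ i ∈ U.filter (fun i => bb i % δ = c), ee (t * Real.log i)‖ ^ 2 := by
  have hM0 : 0 ≤ M := (norm_nonneg _).trans (hM 0)
  rw [Young_GG]
  set u : ℕ → ℂ := fun c => ∑ i ∈ U.filter (fun i => bb i % δ = c), ee (t * Real.log i) with hu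
  have h1 : ∀ β ∈ range δ, ‖∑ i ∈ U, ee (t * Real.log i) * Young_W P δ t β (bb i % δ)‖ ^ 2 ≤
      M ^ 2 * (δ * ∑ c ∈ range δ, ‖u c‖ ^ 2) := by
    intro β hβ
    rw [mem_range] at hβ
    have e1 : ∑ i ∈ U, ee (t * Real.log i) * Young_W P δ t β (bb i % δ) =
        ∑ c ∈ range δ, u c * Young_W P δ t β c := by
      rw [← Finset.sum_fiberwise_of_maps_to (s := U) (t := range δ) (g := fun i => bb i % δ)
        (fun i _ => mem_range.2 (Nat.mod_lt _ (by omega)))]
      refine Finset.sum_congr rfl fun c _ => ?_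
      simp only [hu]
      rw [Finset.sum_mul]
      refine Finset.sum_congr rfl fun i hi => ?_
      rw [(Finset.mem_filter.1 hi).2]
    have e2 : ‖∑ i ∈ U, ee (t * Real.log i) * Young_W P δ t β (bb i % δ)‖ ≤ M * ∑ c ∈ range δ, ‖u c‖ := by
      rw [e1, Finset.mul_sum]
      refine (norm_sum_le _ _).trans (Finset.sum_le_sum fun c _ => ?_)
      rw [norm_mul, mul_comm]
      by_cases hex : ∃ i ∈ U, bb i % δ = c
      · obtain ⟨i, hi, hic⟩ := hex
        refine mul_le_mul_of_nonneg_right ?_ (norm_nonneg _)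
        exact Young_W_le hδ hM hβ (hic ▸ Young_mod (hb i hi))
      · have : u c = 0 := by
          simp only [hu]
          rw [Finset.filter_eq_empty_iff.2 (fun i hi hic => hex ⟨i, hi, hic⟩), Finset.sum_empty]
        rw [this, norm_zero, mul_zero, mul_zero]
    calc ‖∑ i ∈ U, ee (t * Real.log i) * Young_W P δ t β (bb i % δ)‖ ^ 2
        ≤ (M * ∑ c ∈ range δ, ‖u c‖) ^ 2 := pow_le_pow_left₀ (norm_nonneg _) e2 2
      _ = M ^ 2 * (∑ c ∈ range δ, ‖u c‖) ^ 2 := by ring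
      _ ≤ M ^ 2 * (δ * ∑ c ∈ range δ, ‖u c‖ ^ 2) := by
        refine mul_le_mul_of_nonneg_left ?_ (by positivity)
        have := sq_sum_le_card_mul_sum_sq (s := range δ) (f := fun c => ‖u c‖)
        rwa [card_range] at this
  refine (Finset.sum_le_sum h1).trans (le_of_eq ?_)
  rw [Finset.sum_const, card_range, nsmul_eq_mul]
  ring

end Pool.Agent.H53.MDB
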