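import Pool.Agent.H53.MDB.Fej
import Pool.Agent.H53.MDB.SRes
import Pool.Agent.H53.MDB.Young
import Pool.Agent.H53.MID.Mvt

/-!
# MDB BoostL: few quadruples with the congruence (the boost lemma)

Proof.  `L = log N`, `A = A1 + 2`, `T1'` from `sres_vk A`, `T1 = T1' + 1` in the statement.  Let `V = n/(16 C^2)`, `S = U × {m ∈ (P,2P] : (m, δ) = 1}`, `x (i, m) = log i - log m`, `c (i, m) = (m bb(i)) % δ`, `B = range δ`.
For `q = ((i,p),(i',p')) ∈ NB`: `p, p' > P ≥ δ` primes (`δ ≤ exp(L^t2) ≤ exp(L^t) ≤ P`), so prime to `δ`; the congruence is `c (i,p) = c (i',p')`; `i, i' ≥ n/C > 0`; `|i p'/(i' p) - 1| = |i p' - i' p|/(i' p) ≤ 4 C P/((n/C) P) = 4 C^2/n ≤ 1/2`,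
and `|log y| ≤ 2 |y - 1|` for `|y - 1| ≤ 1/2`, so `|x (i,p) - x (i',p')| = |log (i p'/(i' p))| ≤ 8 C^2/n` and `|x - x'| V ≤ 1/2`.  So by `fej`: `|NB| ≤ (4/V) ∫_{-V}^{V} GG P δ U bb t dt` (the sum over `s ∈ S` with `c s = β` is the double sum of `GG`).
Split the integral at `|t| = L^T1'` (`≤ V` for large `N`, as `n ≥ N^(1/4)`; or use the bound `GG(t) ≤ (first bound) 1_{|t| ≤ L^T1'} + (second bound)` for all `|t| ≤ V`).
`|t| ≤ L^T1'`: `sres_triv` (`P/δ + 1 ≤ 2P/δ`), `gg_triv`: `GG ≤ δ (2P/δ · |U|)^2 = 4 P^2 |U|^2/δ`; contribution `(4/V) 2 L^T1' 4 P^2 |U|^2/δ = 512 C^2 L^T1' P^2 |U|^2/(n δ) ≤ L^(T1'+1) P^2 |U|^2/(n δ)`.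
`L^T1' ≤ |t| ≤ V ≤ N`: `sres_vk`: `M = P/δ/L^A`, `gg_young`: `GG ≤ (P/L^A)^2 ∑_c |u_c(t)|^2`, `u_c(t) = ∑_{i ∈ U, bb i % δ = c} ee(t log i)`; `Pool.Agent.H53.MID.mvt` (`X = ⌊C n⌋`, `τ = 0`, coefficients `1_{U_c}`; replace `t` by `-t`: symmetric interval,
or use that `ee(t log i)` is the conjugate of `ee(-(t log i))`): `∫_{-V}^{V} |u_c|^2 ≤ (2V + 2X(1 + log X)) |U_c| ≤ 10 C n L |U_c|` (`log X ≤ log C + L`).
Contribution `≤ (64 C^2/n)(P^2/L^(2A)) 10 C n L |U| = 640 C^3 P^2 |U| L^(1-2A) ≤ P^2 |U|/L^A1` for large `N`.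
-/

set_option autoImplicit false

namespace Pool.Agent.H53.MDB

open Finset MeasureTheory
open Pool.Agent.H91.PK (ee)
open Pool.Agent.H53.MIX (VKe)

private theorem BoostL_conj (x : ℝ) : starRingEnd ℂ (ee x) = ee (-x) := by
  unfold ee
  rw [← Complex.exp_conj]
  congr 1
  have h2 : (starRingEnd ℂ) 2 = 2 := map_ofNat _ 2
  simp [h2]

private theorem BoostL_ee_cont (a : ℝ) : Continuous fun t : ℝ => ee (t * a) := by
  unfold ee
  fun_prop

/-- the logarithm near `1` -/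
private theorem BoostL_log {y r : ℝ} (h : |y - 1| ≤ r) (hr : r ≤ 1 / 2) : |Real.log y| ≤ 2 * r := by
  have h1 := abs_le.1 h
  have hy : 0 < y := by linarith
  have h2 := Real.log_le_sub_one_of_pos hy
  have h3 := Real.one_sub_inv_le_log_of_pos hy
  have h4 : -(2 * r) ≤ 1 - y⁻¹ := by
    have h5 : 1 - y⁻¹ = (y - 1) / y := by field_simp
    rw [h5, le_div_iff₀ hy]
    nlinarith
  rw [abs_le]
  constructor <;> linarith

/-- the quadruples are pairs of close values -/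
private theorem BoostL_close {C n P i i' p p' : ℝ} (hC : 1 ≤ C) (hn : 8 * C ^ 2 ≤ n) (hP : 0 < P)
    (hi : n / C ≤ i) (hi' : n / C ≤ i') (hp : P < p) (hp' : P < p') (h : |i * p' - i' * p| ≤ 4 * C * P) :
    |(Real.log i - Real.log p) - (Real.log i' - Real.log p')| * (n / (16 * C ^ 2)) ≤ 1 / 2 := by
  have hC0 : 0 < C := by linarith
  have hn0 : 0 < n := by nlinarith
  have hnC : 0 < n / C := by positivity
  have hi0 : 0 < i := by linarith
  have hi'0 : 0 < i' := by linarith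
  have hp0 : 0 < p := by linarith
  have hp'0 : 0 < p' := by linarith
  have e1 : (Real.log i - Real.log p) - (Real.log i' - Real.log p') = Real.log (i * p' / (i' * p)) := by
    rw [Real.log_div (by positivity) (by positivity), Real.log_mul hi0.ne' hp'0.ne',
      Real.log_mul hi'0.ne' hp0.ne']
    ring
  rw [e1]
  have h1 : |i * p' / (i' * p) - 1| ≤ 4 * C ^ 2 / n := by
    have e2 : i * p' / (i' * p) - 1 = (i * p' - i' * p) / (i' * p) := by
      field_simp
    rw [e2, abs_div, abs_of_pos (show 0 < i' * p by positivity), div_le_div_iff₀ (by positivity) hn0]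
    have h2 : n / C * P ≤ i' * p := mul_le_mul hi' hp.le hP.le hi'0.le
    have h3 : n * P ≤ C * (i' * p) := by
      have : n / C * P = n * P / C := by ring
      rw [this, div_le_iff₀ hC0] at h2
      linarith
    calc |i * p' - i' * p| * n ≤ 4 * C * P * n := mul_le_mul_of_nonneg_right h hn0.le
      _ = 4 * C * (n * P) := by ring
      _ ≤ 4 * C * (C * (i' * p)) := mul_le_mul_of_nonneg_left h3 (by positivity)
      _ = 4 * C ^ 2 * (i' * p) := by ring
  have h2 : 4 * C ^ 2 / n ≤ 1 / 2 := by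
    rw [div_le_iff₀ hn0]
    linarith
  have h3 := BoostL_log h1 h2
  calc |Real.log (i * p' / (i' * p))| * (n / (16 * C ^ 2))
      ≤ 2 * (4 * C ^ 2 / n) * (n / (16 * C ^ 2)) := mul_le_mul_of_nonneg_right h3 (by positivity)
    _ = 1 / 2 := by field_simp; norm_num

/-- `NB` is contained in a set of pairs of close values -/
private theorem BoostL_sub {C : ℝ} (hC : 1 ≤ C) {n P δ : ℕ} (hn : 8 * C ^ 2 ≤ n) (hP : 0 < P) (hδ : 1 ≤ δ)
    (hδP : δ ≤ P) {U : Finset ℕ} {bb : ℕ → ℕ} (hU : ∀ i ∈ U, (n : ℝ) / C ≤ i) {q : (ℕ × ℕ) × (ℕ × ℕ)}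
    (hq : q ∈ NB C P U δ bb) :
    (q.1 ∈ U ×ˢ (Ioc P (2 * P)).filter (fun m => Nat.Coprime m δ) ∧
      q.2 ∈ U ×ˢ (Ioc P (2 * P)).filter (fun m => Nat.Coprime m δ)) ∧
    (q.1.2 * bb q.1.1) % δ = (q.2.2 * bb q.2.1) % δ ∧
    |(Real.log q.1.1 - Real.log q.1.2) - (Real.log q.2.1 - Real.log q.2.2)| * (n / (16 * C ^ 2)) ≤ 1 / 2 := by
  rw [mem_NB, mem_QS] at hq
  obtain ⟨⟨h1, h2, h3, h4, h5, h6, h7, h8, h9⟩, h10⟩ := hq
  have hcop : ∀ p : ℕ, P < p → p.Prime → Nat.Coprime p δ := by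
    intro p hp hpp
    rw [Nat.Prime.coprime_iff_not_dvd hpp]
    intro hd
    have := Nat.le_of_dvd (by omega) hd
    omega
  refine ⟨⟨?_, ?_⟩, h10, ?_⟩
  · rw [Finset.mem_product, Finset.mem_filter, Finset.mem_Ioc]
    exact ⟨h1, ⟨h2, h3⟩, hcop _ h2 h4⟩
  · rw [Finset.mem_product, Finset.mem_filter, Finset.mem_Ioc]
    exact ⟨h5, ⟨h6, h7⟩, hcop _ h6 h8⟩
  · exact BoostL_close hC hn (by exact_mod_cast hP) (hU _ h1) (hU _ h5) (by exact_mod_cast h2)
      (by exact_mod_cast h6) h9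

open Classical in
/-- the sum in `fej` is `GG` -/
private theorem BoostL_GG (P δ : ℕ) (U : Finset ℕ) (bb : ℕ → ℕ) (t : ℝ) :
    ∑ β ∈ range δ, ‖∑ s ∈ (U ×ˢ (Ioc P (2 * P)).filter (fun m => Nat.Coprime m δ)).filter
      (fun s : ℕ × ℕ => (s.2 * bb s.1) % δ = β), ee (t * (Real.log s.1 - Real.log s.2))‖ ^ 2 =
    GG P δ U bb t := by
  unfold GG
  refine Finset.sum_congr rfl fun β _ => ?_
  congr 2
  rw [Finset.sum_filter, Finset.sum_product]
  refine Finset.sum_congr rfl fun i _ => ?_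
  rw [Finset.sum_filter, Finset.sum_filter]
  refine Finset.sum_congr rfl fun m _ => ?_
  by_cases h1 : Nat.Coprime m δ
  · by_cases h2 : (m * bb i) % δ = β
    · rw [if_pos h1, if_pos h2, if_pos ⟨h1, h2⟩]
    · rw [if_pos h1, if_neg h2, if_neg fun h => h2 h.2]
  · rw [if_neg h1, if_neg fun h => h1 h.1]

private theorem BoostL_GG_cont (P δ : ℕ) (U : Finset ℕ) (bb : ℕ → ℕ) :
    Continuous fun t : ℝ => GG P δ U bb t := by
  unfold GG
  refine continuous_finsetSum _ fun β _ => ?_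
  refine Continuous.pow ?_ 2
  refine Continuous.norm ?_
  refine continuous_finsetSum _ fun i _ => ?_
  exact continuous_finsetSum _ fun m _ => BoostL_ee_cont _

/-- the mean value of `u_c` -/
private theorem BoostL_mv (C : ℝ) (hC : 1 ≤ C) (n : ℕ) (hn : 1 ≤ n) (W : Finset ℕ)
    (hW : ∀ i ∈ W, (n : ℝ) / C ≤ i ∧ (i : ℝ) ≤ C * n) (V : ℝ) (hV : 0 ≤ V) :
    ∫ t in Set.Icc (-V) V, ‖∑ i ∈ W, ee (t * Real.log i)‖ ^ 2 ≤
      (2 * V + 2 * (C * n) * (1 + Real.log (C * n))) * W.card := by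
  have hn0 : (1 : ℝ) ≤ n := by exact_mod_cast hn
  have hC0 : 0 < C := by linarith
  have hCn : 1 ≤ C * n := by nlinarith
  set X := ⌊C * n⌋₊ with hX
  have hX1 : 1 ≤ X := Nat.le_floor (by simpa using hCn)
  have hXle : (X : ℝ) ≤ C * n := Nat.floor_le (by linarith)
  have hX1' : (1 : ℝ) ≤ X := by exact_mod_cast hX1
  have hsub : W ⊆ Icc 1 X := by
    intro i hi
    obtain ⟨h1, h2⟩ := hW i hi
    rw [Finset.mem_Icc]
    refine ⟨?_, Nat.le_floor h2⟩
    have h3 : (0 : ℝ) < n / C := by positivity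
    have h4 : (0 : ℝ) < i := by linarith
    exact_mod_cast h4
  have h1 := Pool.Agent.H53.MID.mvt (fun m => if m ∈ W then 1 else 0) X V 0 hX1 hV
  have h2 : ∀ t : ℝ, ‖∑ i ∈ W, ee (t * Real.log i)‖ ^ 2 =
      ‖∑ m ∈ Icc 1 X, (if m ∈ W then (1 : ℂ) else 0) * ee (-((0 + t) * Real.log m))‖ ^ 2 := by
    intro t
    have e1 : ∑ m ∈ Icc 1 X, (if m ∈ W then (1 : ℂ) else 0) * ee (-((0 + t) * Real.log m)) =
        ∑ i ∈ W, ee (-(t * Real.log i)) := by
      rw [← Finset.sum_subset hsub (fun m _ hm => by rw [if_neg hm, zero_mul])]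
      exact Finset.sum_congr rfl fun m hm => by rw [if_pos hm, one_mul, zero_add]
    rw [e1, ← RCLike.norm_conj (∑ i ∈ W, ee (t * Real.log i)), map_sum]
    simp only [BoostL_conj]
  have h3 : ∑ m ∈ Icc 1 X, ‖(if m ∈ W then (1 : ℂ) else 0)‖ ^ 2 = W.card := by
    rw [← Finset.sum_subset hsub (fun m _ hm => by rw [if_neg hm, norm_zero]; ring)]
    rw [Finset.sum_congr rfl fun m hm => by rw [if_pos hm, norm_one, one_pow]]
    simp
  simp only [h2]
  refine h1.trans ?_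
  rw [h3]
  refine mul_le_mul_of_nonneg_right ?_ (Nat.cast_nonneg _)
  have h4 : Real.log X ≤ Real.log (C * n) := Real.log_le_log (by linarith) hXle
  have h5 : 0 ≤ Real.log X := Real.log_nonneg hX1'
  have h6 : (X : ℝ) * (1 + Real.log X) ≤ C * n * (1 + Real.log (C * n)) :=
    mul_le_mul hXle (by linarith) (by linarith) (by linarith)
  linarith

/-- the integral of the sum of the squares of the `u_c` -/
private theorem BoostL_Y (C : ℝ) (hC : 1 ≤ C) (n : ℕ) (hn : 1 ≤ n) (δ : ℕ) (hδ : 1 ≤ δ) (U : Finset ℕ)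
    (bb : ℕ → ℕ) (hU : ∀ i ∈ U, (n : ℝ) / C ≤ i ∧ (i : ℝ) ≤ C * n) (V : ℝ) (hV : 0 ≤ V) :
    ∫ t in Set.Icc (-V) V, ∑ c ∈ range δ, ‖∑ i ∈ U.filter (fun i => bb i % δ = c), ee (t * Real.log i)‖ ^ 2 ≤
      (2 * V + 2 * (C * n) * (1 + Real.log (C * n))) * U.card := by
  rw [integral_finsetSum]
  · calc ∑ c ∈ range δ, ∫ t in Set.Icc (-V) V,
          ‖∑ i ∈ U.filter (fun i => bb i % δ = c), ee (t * Real.log i)‖ ^ 2
        ≤ ∑ c ∈ range δ, (2 * V + 2 * (C * n) * (1 + Real.log (C * n))) *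
            ((U.filter (fun i => bb i % δ = c)).card : ℝ) := by
          refine Finset.sum_le_sum fun c _ => ?_
          exact BoostL_mv C hC n hn _ (fun i hi => hU i (Finset.mem_of_mem_filter i hi)) V hV
      _ = (2 * V + 2 * (C * n) * (1 + Real.log (C * n))) * U.card := by
          rw [← Finset.mul_sum]
          congr 1
          have h1 := Finset.card_eq_sum_card_fiberwise (s := U) (t := range δ) (f := fun i => bb i % δ)
            (fun i _ => Finset.mem_coe.2 (Finset.mem_range.2 (Nat.mod_lt _ (by omega))))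
          rw [h1]
          push_cast
          rfl
  · intro c _
    refine Continuous.integrableOn_Icc ?_
    refine Continuous.pow (Continuous.norm ?_) 2
    exact continuous_finsetSum _ fun i _ => BoostL_ee_cont _

/-- the integral of `GG` -/
private theorem BoostL_int (C : ℝ) (hC : 1 ≤ C) (n P δ : ℕ) (hn : 1 ≤ n) (hδ : 1 ≤ δ) (hδP : δ ≤ P)
    (U : Finset ℕ) (bb : ℕ → ℕ) (hU : ∀ i ∈ U, (n : ℝ) / C ≤ i ∧ (i : ℝ) ≤ C * n ∧ Nat.Coprime (bb i) δ)
    (V T M : ℝ) (hV : 0 ≤ V) (hT : 0 ≤ T)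
    (hM : ∀ t : ℝ, T ≤ |t| → |t| ≤ V → ∀ r : ℕ, ‖sres P δ r t‖ ≤ M) :
    ∫ t in Set.Icc (-V) V, GG P δ U bb t ≤ 4 * P ^ 2 * U.card ^ 2 / δ * (2 * T) +
      (δ * M) ^ 2 * ((2 * V + 2 * (C * n) * (1 + Real.log (C * n))) * U.card) := by
  have hδ0 : (0 : ℝ) < δ := by exact_mod_cast hδ
  have hP0 : (δ : ℝ) ≤ P := by exact_mod_cast hδP
  have hcop : ∀ i ∈ U, Nat.Coprime (bb i) δ := fun i hi => (hU i hi).2.2
  set Y : ℝ → ℝ := fun t => ∑ c ∈ range δ,
    ‖∑ i ∈ U.filter (fun i => bb i % δ = c), ee (t * Real.log i)‖ ^ 2 with hY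
  have hY0 : ∀ t, 0 ≤ Y t := fun t => Finset.sum_nonneg fun c _ => sq_nonneg _
  have hYc : Continuous Y := by
    refine continuous_finsetSum _ fun c _ => ?_
    refine Continuous.pow (Continuous.norm ?_) 2
    exact continuous_finsetSum _ fun i _ => BoostL_ee_cont _
  set G1 : ℝ := 4 * P ^ 2 * U.card ^ 2 / δ with hG1
  have hG10 : 0 ≤ G1 := by positivity
  set ind : ℝ → ℝ := (Set.Icc (-T) T).indicator (fun _ => (1 : ℝ)) with hind
  have hind0 : ∀ t, 0 ≤ ind t := fun t => Set.indicator_nonneg (fun _ _ => zero_le_one) t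
  have hindI : Integrable ind := by
    rw [hind, integrable_indicator_iff measurableSet_Icc]
    exact integrableOn_const (by rw [Real.volume_Icc]; exact ENNReal.ofReal_ne_top) (by simp)
  have hpt : ∀ t ∈ Set.Icc (-V) V, GG P δ U bb t ≤ G1 * ind t + (δ * M) ^ 2 * Y t := by
    intro t ht
    have htV : |t| ≤ V := abs_le.2 ⟨ht.1, ht.2⟩
    by_cases hc : |t| ≤ T
    · have h1 : ind t = 1 := Set.indicator_of_mem (show t ∈ Set.Icc (-T) T from abs_le.1 hc) _
      have h2 : ∀ r : ℕ, ‖sres P δ r t‖ ≤ 2 * P / δ := by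
        intro r
        refine (sres_triv P δ r t hδ).trans ?_
        rw [le_div_iff₀ hδ0, add_mul, div_mul_cancel₀ _ hδ0.ne']
        linarith
      have h3 := gg_triv P δ U bb t (2 * P / δ) hδ hcop h2
      have h4 : (δ : ℝ) * (2 * P / δ * U.card) ^ 2 = G1 := by
        rw [hG1]
        field_simp
        ring
      rw [h4] at h3
      rw [h1, mul_one]
      have h5 : 0 ≤ (δ * M) ^ 2 * Y t := mul_nonneg (sq_nonneg _) (hY0 t)
      linarith
    · push Not at hc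
      have h3 := gg_young P δ U bb t M hδ hcop (hM t hc.le htV)
      have h5 : 0 ≤ G1 * ind t := mul_nonneg hG10 (hind0 t)
      exact h3.trans (le_add_of_nonneg_left h5)
  have hI1 : IntegrableOn (fun t => G1 * ind t) (Set.Icc (-V) V) := (hindI.const_mul G1).integrableOn
  have hI2 : IntegrableOn (fun t => (δ * M) ^ 2 * Y t) (Set.Icc (-V) V) :=
    (continuous_const.mul hYc).integrableOn_Icc
  calc ∫ t in Set.Icc (-V) V, GG P δ U bb t
      ≤ ∫ t in Set.Icc (-V) V, (G1 * ind t + (δ * M) ^ 2 * Y t) :=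
        setIntegral_mono_on (BoostL_GG_cont P δ U bb).integrableOn_Icc (hI1.add hI2)
          measurableSet_Icc hpt
    _ = G1 * (∫ t in Set.Icc (-V) V, ind t) + (δ * M) ^ 2 * ∫ t in Set.Icc (-V) V, Y t := by
        rw [integral_add hI1 hI2, integral_const_mul, integral_const_mul]
    _ ≤ _ := by
        refine add_le_add (mul_le_mul_of_nonneg_left ?_ hG10)
          (mul_le_mul_of_nonneg_left ?_ (sq_nonneg _))
        · refine (setIntegral_le_integral hindI (Filter.Eventually.of_forall hind0)).trans ?_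
          rw [hind, integral_indicator measurableSet_Icc, integral_const]
          simp only [MeasurableSet.univ, measureReal_restrict_apply, Set.univ_inter, smul_eq_mul, mul_one]
          rw [Real.volume_real_Icc_of_le (by linarith)]
          linarith
        · exact BoostL_Y C hC n hn δ hδ U bb (fun i hi => ⟨(hU i hi).1, (hU i hi).2.1⟩) V hV

theorem boostl (t0 t t2 : ℝ) (h0 : 0 < t0) (h0t : t0 < t) (h2 : 0 < t2) (h2t : t2 < t) (ht : t < 1) (hV : VKe t0) (C : ℝ)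
    (hC : 1 ≤ C) (A1 : ℕ) : ∃ T1 N0 : ℕ, ∀ N : ℕ, N0 ≤ N → ∀ (n P δ : ℕ) (U : Finset ℕ) (bb : ℕ → ℕ),
    Real.exp (Real.log N ^ t) ≤ P → P ≤ N → (N : ℝ) ^ (1 / 4 : ℝ) ≤ n → n ≤ N → 1 ≤ δ → (δ : ℝ) ≤ Real.exp (Real.log N ^ t2) →
    (∀ i ∈ U, (n : ℝ) / C ≤ i ∧ (i : ℝ) ≤ C * n ∧ Nat.Coprime (bb i) δ) →
    ((NB C P U δ bb).card : ℝ) ≤ P ^ 2 * (Real.log N ^ T1 * U.card ^ 2 / (n * δ) + U.card / Real.log N ^ A1) := by
  classical
  obtain ⟨T1, N1, hvk⟩ := sres_vk t0 t t2 h0 h0t h2 h2t hV (A1 + 2)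
  have hC0 : 0 < C := by linarith
  -- the choice of `N0`
  have hlogN : Filter.Tendsto (fun N : ℕ => Real.log N) Filter.atTop Filter.atTop :=
    Real.tendsto_log_atTop.comp tendsto_natCast_atTop_atTop
  have hpowN : Filter.Tendsto (fun N : ℕ => (N : ℝ) ^ (1 / 4 : ℝ)) Filter.atTop Filter.atTop :=
    (tendsto_rpow_atTop (by norm_num)).comp tendsto_natCast_atTop_atTop
  obtain ⟨N2, hN2⟩ := Filter.eventually_atTop.1
    ((hlogN.eventually_ge_atTop (512 * C ^ 3 + (1 + Real.log C))).and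
      (hpowN.eventually_ge_atTop (8 * C ^ 2)))
  refine ⟨T1 + 1, max N1 N2, fun N hN n P δ U bb hP hPN hnN hn hδ hδQ hU => ?_⟩
  obtain ⟨hL, hNp⟩ := hN2 N ((le_max_right _ _).trans hN)
  have hvkN := hvk N ((le_max_left _ _).trans hN)
  set L := Real.log N with hLdef
  have hlogC : 0 ≤ Real.log C := Real.log_nonneg hC
  have hC2 : 1 ≤ C ^ 2 := one_le_pow₀ hC
  have hC3 : 1 ≤ C ^ 3 := one_le_pow₀ hC
  have hC23 : C ^ 2 ≤ C ^ 3 := pow_le_pow_right₀ hC (by norm_num)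
  have hL1 : 1 ≤ L := by nlinarith
  have hL512 : 512 * C ^ 3 ≤ L := by linarith
  have hLC : 1 + Real.log C ≤ L := by nlinarith
  have hn8 : 8 * C ^ 2 ≤ (n : ℝ) := hNp.trans hnN
  have hn0 : (0 : ℝ) < n := by nlinarith
  have hn1 : 1 ≤ n := by exact_mod_cast (by exact_mod_cast hn0 : 0 < n)
  have hδ0 : (0 : ℝ) < δ := by exact_mod_cast hδ
  have hδP' : (δ : ℝ) ≤ P := hδQ.trans ((Real.exp_le_exp.2
    (Real.rpow_le_rpow_of_exponent_le hL1 h2t.le)).trans hP)
  have hδP : δ ≤ P := by exact_mod_cast hδP'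
  have hP0 : 0 < P := by omega
  have hP0' : (0 : ℝ) < P := by exact_mod_cast hP0
  have hnN' : (n : ℝ) ≤ N := by exact_mod_cast hn
  set V : ℝ := n / (16 * C ^ 2) with hVdef
  have hV0 : 0 < V := by positivity
  have hVn : V ≤ n := by
    rw [hVdef, div_le_iff₀ (by positivity)]
    nlinarith
  -- the pairs
  have hfej := fej (U ×ˢ (Ioc P (2 * P)).filter (fun m => Nat.Coprime m δ))
    (fun s : ℕ × ℕ => Real.log s.1 - Real.log s.2) (fun s => (s.2 * bb s.1) % δ) (range δ) V hV0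
    (fun s _ => Finset.mem_range.2 (Nat.mod_lt _ (by omega)))
  simp only [BoostL_GG] at hfej
  have hcard : ((NB C P U δ bb).card : ℝ) ≤ 4 / V * ∫ t in Set.Icc (-V) V, GG P δ U bb t := by
    refine le_trans ?_ hfej
    have hle : (NB C P U δ bb).card ≤ (((U ×ˢ (Ioc P (2 * P)).filter (fun m => Nat.Coprime m δ)) ×ˢ
        (U ×ˢ (Ioc P (2 * P)).filter (fun m => Nat.Coprime m δ))).filter
        (fun q => (q.1.2 * bb q.1.1) % δ = (q.2.2 * bb q.2.1) % δ ∧
          |(Real.log q.1.1 - Real.log q.1.2) - (Real.log q.2.1 - Real.log q.2.2)| * V ≤ 1 / 2)).card := by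
      refine Finset.card_le_card fun q hq => ?_
      have h1 := BoostL_sub hC hn8 hP0 hδ hδP (fun i hi => (hU i hi).1) hq
      rw [Finset.mem_filter, Finset.mem_product]
      exact h1
    exact_mod_cast hle
  have hint := BoostL_int C hC n P δ hn1 hδ hδP U bb hU V (L ^ T1) (P / δ / L ^ (A1 + 2)) hV0.le
    (by positivity) (fun u hu huV r => hvkN P δ r u hP hPN hδ hδQ hu (huV.trans (hVn.trans hnN')))
  have h4V : 4 / V = 64 * C ^ 2 / n := by
    rw [hVdef]
    field_simp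
    norm_num
  have hmain : ((NB C P U δ bb).card : ℝ) ≤ 64 * C ^ 2 / n * (4 * P ^ 2 * U.card ^ 2 / δ * (2 * L ^ T1) +
      (δ * (P / δ / L ^ (A1 + 2))) ^ 2 *
        ((2 * V + 2 * (C * n) * (1 + Real.log (C * n))) * U.card)) := by
    refine hcard.trans ?_
    rw [h4V]
    exact mul_le_mul_of_nonneg_left hint (by positivity)
  refine hmain.trans ?_
  have hU0 : (0 : ℝ) ≤ U.card := Nat.cast_nonneg _
  have hL0 : 0 < L := by linarith
  refine (le_of_eq (mul_add _ _ _)).trans ?_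
  refine le_trans (add_le_add ?_ ?_) (le_of_eq (mul_add ((P : ℝ) ^ 2) _ _).symm)
  · have e1 : 64 * C ^ 2 / n * (4 * P ^ 2 * U.card ^ 2 / δ * (2 * L ^ T1)) =
        P ^ 2 * (512 * C ^ 2 * L ^ T1 * U.card ^ 2 / (n * δ)) := by
      field_simp
      ring
    rw [e1, pow_succ]
    refine mul_le_mul_of_nonneg_left ?_ (by positivity)
    refine div_le_div_of_nonneg_right ?_ (by positivity)
    refine mul_le_mul_of_nonneg_right ?_ (by positivity)
    have h5 : 512 * C ^ 2 ≤ L := by nlinarith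
    calc 512 * C ^ 2 * L ^ T1 ≤ L * L ^ T1 := mul_le_mul_of_nonneg_right h5 (by positivity)
      _ = L ^ T1 * L := by ring
  · have hlogn : Real.log n ≤ L := Real.log_le_log hn0 hnN'
    have hlogCn : Real.log (C * n) ≤ Real.log C + L := by
      rw [Real.log_mul hC0.ne' hn0.ne']
      linarith
    have h5 : 2 * V + 2 * (C * n) * (1 + Real.log (C * n)) ≤ 6 * C * n * L := by
      have h6 : 1 + Real.log (C * n) ≤ 2 * L := by linarith
      have h7 : 2 * (C * n) * (1 + Real.log (C * n)) ≤ 2 * (C * n) * (2 * L) :=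
        mul_le_mul_of_nonneg_left h6 (by positivity)
      have h8 : 2 * V ≤ 2 * C * n * L := by
        have h9 : (n : ℝ) ≤ C * n * L := by
          calc (n : ℝ) = 1 * n * 1 := by ring
            _ ≤ C * n * L := by
              refine mul_le_mul (mul_le_mul_of_nonneg_right hC hn0.le) hL1 zero_le_one (by positivity)
        linarith
      linarith
    have e2 : (δ : ℝ) * (P / δ / L ^ (A1 + 2)) = P / L ^ (A1 + 2) := by
      field_simp
    rw [e2]
    calc 64 * C ^ 2 / n * ((P / L ^ (A1 + 2)) ^ 2 *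
          ((2 * V + 2 * (C * n) * (1 + Real.log (C * n))) * U.card))
        ≤ 64 * C ^ 2 / n * ((P / L ^ (A1 + 2)) ^ 2 * ((6 * C * n * L) * U.card)) := by
          refine mul_le_mul_of_nonneg_left (mul_le_mul_of_nonneg_left
            (mul_le_mul_of_nonneg_right h5 hU0) (by positivity)) (by positivity)
      _ = P ^ 2 * (384 * C ^ 3 * U.card / L ^ (2 * A1 + 3)) := by
          have e3 : L ^ (2 * A1 + 3) * L = (L ^ (A1 + 2)) ^ 2 := by
            rw [← pow_succ, ← pow_mul]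
            congr 1
            ring
          rw [div_pow, ← e3]
          field_simp
          ring
      _ ≤ P ^ 2 * (U.card / L ^ A1) := by
          refine mul_le_mul_of_nonneg_left ?_ (by positivity)
          rw [div_le_div_iff₀ (by positivity) (by positivity)]
          have h10 : 384 * C ^ 3 * L ^ A1 ≤ L ^ (2 * A1 + 3) := by
            calc 384 * C ^ 3 * L ^ A1 ≤ L * L ^ A1 :=
                  mul_le_mul_of_nonneg_right (by linarith) (by positivity)
              _ = L ^ (A1 + 1) := by ring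
              _ ≤ L ^ (2 * A1 + 3) := pow_le_pow_right₀ hL1 (by omega)
          calc 384 * C ^ 3 * U.card * L ^ A1 = U.card * (384 * C ^ 3 * L ^ A1) := by ring
            _ ≤ U.card * L ^ (2 * A1 + 3) := mul_le_mul_of_nonneg_left h10 hU0

end Pool.Agent.H53.MDB
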