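import Pool.Agent.H53.MDB.Defs

/-!
# MDB PairF: the frequency inequality of a quadruple, and the near quadruples

Let `q = ((i,p),(i',p')) ∈ QS C P U`, `j = s i`, `j' = s i'`, `nz (p α_i - p' α_i') ≤ 2 η P`.
`pair_f`: `p (b/d + T/i) - p' (b'/d' + T'/i') = [p α_i - p' α_i'] - p [α_i - b/d - T/i] + p' [α_i' - b'/d' - T'/i']`, `nz ≤ 2 η P + 2 P Q η + 2 P Q η ≤ 6 Q η P` (`nz_nat_mul`, `p, p' ≤ 2 P`, `1 ≤ Q`);
`p' T'/i' - p T'/i = T' (p' i - p i')/(i i')`, in absolute value `≤ Q η n^2 · 4 C P · C^2/n^2 = 4 C^3 Q η P` (`i, i' ≥ n/C`).  Together `≤ 10 C^3 Q η P`.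
`near`: if moreover `|T - T'| ≤ Z = Q^12 η n` then `|p (T - T')/i| ≤ 2 P Q^12 η n C/n = 2 C Q^12 η P`, so `nz (p b/d - p' b'/d') ≤ 10 C^3 Q η P + 2 C Q^12 η P ≤ 12 C^3 Q^12 η P < 1/Q^2 ≤ 1/(d d')`
(from `η Q^60 P^3 ≤ 1`, `200 C^10 ≤ Q`, `1 ≤ P`).  `p b/d - p' b'/d' = (p b d' - p' b' d)/(d d')`, so `d d' ∣ p b d' - p' b' d` by `nz_frac_ge`.  Hence `d ∣ p b d'`; `p` is a prime `> P ≥ Q ≥ d` so prime to `d`, and `b` is prime to `d`: `d ∣ d'`.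
In the same way `d' ∣ d`, so `d = d'`, and (cancel `d`) `p b ≡ p' b' mod d`.
-/

set_option autoImplicit false

namespace Pool.Agent.H53.MDB

open Finset
open Pool.Agent.H53.MID (nz)

theorem pair_f (C : ℝ) (hC : 1 ≤ C) (n P : ℕ) (Q η : ℝ) (α : ℕ → ℝ) (r : ℕ) (U : Finset ℕ) (s d b : ℕ → ℕ) (T : ℕ → ℝ)
    (hc : Cov C n Q η α r U s d b T) (hn : 1 ≤ n) (hP : 1 ≤ P) (hQ : 1 ≤ Q) (hη : 0 ≤ η) (q : (ℕ × ℕ) × (ℕ × ℕ)) (hq : q ∈ QS C P U)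
    (hf : nz (q.1.2 * α q.1.1 - q.2.2 * α q.2.1) ≤ 2 * η * P) :
    nz (q.1.2 * (b (s q.1.1) / d (s q.1.1)) - q.2.2 * (b (s q.2.1) / d (s q.2.1)) + q.1.2 * (T (s q.1.1) - T (s q.2.1)) / q.1.1)
      ≤ 10 * C ^ 3 * Q * η * P := by
  obtain ⟨hi, hp1, hp2, hpp, hi', hp1', hp2', hpp', hclose⟩ := mem_QS.1 hq
  have hC0 : (0 : ℝ) < C := by linarith
  have hn0 : (0 : ℝ) < n := by exact_mod_cast hn
  have hP0 : (0 : ℝ) < P := by exact_mod_cast hP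
  have hr1 := (hc.rng _ hi).1
  have hr2 := (hc.rng _ hi').1
  have hnC : (0 : ℝ) < n / C := div_pos hn0 hC0
  have hi0 : (0 : ℝ) < q.1.1 := lt_of_lt_of_le hnC hr1
  have hi0' : (0 : ℝ) < q.2.1 := lt_of_lt_of_le hnC hr2
  have hf1 := hc.frq _ hi
  have hf2 := hc.frq _ hi'
  have hT' : |T (s q.2.1)| ≤ Q * η * (n : ℝ) ^ 2 := (hc.dat _ (hc.lab _ hi')).2.2.2
  have hp2R : (q.1.2 : ℝ) ≤ 2 * P := by exact_mod_cast hp2
  have hp2R' : (q.2.2 : ℝ) ≤ 2 * P := by exact_mod_cast hp2'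
  have hkey : (q.1.2 : ℝ) * (b (s q.1.1) / d (s q.1.1)) - q.2.2 * (b (s q.2.1) / d (s q.2.1)) +
      q.1.2 * (T (s q.1.1) - T (s q.2.1)) / q.1.1 =
      ((q.1.2 * α q.1.1 - q.2.2 * α q.2.1) -
        q.1.2 * (α q.1.1 - b (s q.1.1) / d (s q.1.1) - T (s q.1.1) / q.1.1)) +
      (q.2.2 * (α q.2.1 - b (s q.2.1) / d (s q.2.1) - T (s q.2.1) / q.2.1) +
        T (s q.2.1) * (q.1.1 * q.2.2 - q.2.1 * q.1.2) / (q.1.1 * q.2.1)) := by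
    field_simp
    ring
  rw [hkey]
  have e1 : nz (q.1.2 * (α q.1.1 - b (s q.1.1) / d (s q.1.1) - T (s q.1.1) / q.1.1)) ≤
      2 * P * (Q * η) := by
    refine (Pool.Agent.H53.MID.nz_nat_mul _ _).trans ?_
    exact mul_le_mul hp2R hf1 (Pool.Agent.H53.MID.nz_nonneg _) (by positivity)
  have e2 : nz (q.2.2 * (α q.2.1 - b (s q.2.1) / d (s q.2.1) - T (s q.2.1) / q.2.1)) ≤
      2 * P * (Q * η) := by
    refine (Pool.Agent.H53.MID.nz_nat_mul _ _).trans ?_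
    exact mul_le_mul hp2R' hf2 (Pool.Agent.H53.MID.nz_nonneg _) (by positivity)
  have e3 : nz (T (s q.2.1) * (q.1.1 * q.2.2 - q.2.1 * q.1.2) / (q.1.1 * q.2.1)) ≤
      4 * C ^ 3 * Q * η * P := by
    refine (Pool.Agent.H53.MID.nz_le_abs _).trans ?_
    rw [abs_div, abs_mul, abs_of_pos (mul_pos hi0 hi0'), div_le_iff₀ (mul_pos hi0 hi0')]
    have h1 : |T (s q.2.1)| * |(q.1.1 : ℝ) * q.2.2 - q.2.1 * q.1.2| ≤
        (Q * η * (n : ℝ) ^ 2) * (4 * C * P) :=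
      mul_le_mul hT' hclose (abs_nonneg _) (by positivity)
    have h2 : (n / C) * (n / C) ≤ (q.1.1 : ℝ) * q.2.1 := mul_le_mul hr1 hr2 hnC.le hi0.le
    have h3 : (Q * η * (n : ℝ) ^ 2) * (4 * C * P) = 4 * C ^ 3 * Q * η * P * ((n / C) * (n / C)) := by
      field_simp
    rw [h3] at h1
    exact h1.trans (mul_le_mul_of_nonneg_left h2 (by positivity))
  have e4 := Pool.Agent.H53.MID.nz_add ((q.1.2 * α q.1.1 - q.2.2 * α q.2.1) -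
        q.1.2 * (α q.1.1 - b (s q.1.1) / d (s q.1.1) - T (s q.1.1) / q.1.1))
      (q.2.2 * (α q.2.1 - b (s q.2.1) / d (s q.2.1) - T (s q.2.1) / q.2.1) +
        T (s q.2.1) * (q.1.1 * q.2.2 - q.2.1 * q.1.2) / (q.1.1 * q.2.1))
  have e5 := Pool.Agent.H53.MID.nz_sub (q.1.2 * α q.1.1 - q.2.2 * α q.2.1)
    (q.1.2 * (α q.1.1 - b (s q.1.1) / d (s q.1.1) - T (s q.1.1) / q.1.1))
  have e6 := Pool.Agent.H53.MID.nz_add (q.2.2 * (α q.2.1 - b (s q.2.1) / d (s q.2.1) - T (s q.2.1) / q.2.1))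
    (T (s q.2.1) * (q.1.1 * q.2.2 - q.2.1 * q.1.2) / (q.1.1 * q.2.1))
  have hC3 : 1 ≤ C ^ 3 := one_le_pow₀ hC
  have hX : 0 ≤ Q * η * P := by positivity
  have f1 : 2 * η * P ≤ 2 * C ^ 3 * (Q * η * P) := by
    have g1 : η * P ≤ Q * (η * P) := le_mul_of_one_le_left (by positivity) hQ
    have g2 : Q * η * P ≤ C ^ 3 * (Q * η * P) := le_mul_of_one_le_left hX hC3
    nlinarith
  have f2 : Q * η * P ≤ C ^ 3 * (Q * η * P) := le_mul_of_one_le_left hX hC3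
  nlinarith

theorem near (C : ℝ) (hC : 1 ≤ C) (n P : ℕ) (Q η : ℝ) (α : ℕ → ℝ) (r : ℕ) (U : Finset ℕ) (s d b : ℕ → ℕ) (T : ℕ → ℝ)
    (hc : Cov C n Q η α r U s d b T) (hn : 1 ≤ n) (hP : 1 ≤ P) (hQ : 200 * C ^ 10 ≤ Q) (hQP : Q ≤ P) (hη : 0 ≤ η)
    (hηQ : η * Q ^ 60 * (P : ℝ) ^ 3 ≤ 1) (q : (ℕ × ℕ) × (ℕ × ℕ)) (hq : q ∈ QS C P U)
    (hf : nz (q.1.2 * α q.1.1 - q.2.2 * α q.2.1) ≤ 2 * η * P) (hT : |T (s q.1.1) - T (s q.2.1)| ≤ Q ^ 12 * η * n) :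
    d (s q.1.1) = d (s q.2.1) ∧ q.1.2 * b (s q.1.1) ≡ q.2.2 * b (s q.2.1) [MOD d (s q.1.1)] := by
  obtain ⟨hi, hp1, hp2, hpp, hi', hp1', hp2', hpp', hclose⟩ := mem_QS.1 hq
  have hC0 : (0 : ℝ) < C := by linarith
  have hn0 : (0 : ℝ) < n := by exact_mod_cast hn
  have hP0 : (0 : ℝ) < P := by exact_mod_cast hP
  have hP1 : (1 : ℝ) ≤ P := by exact_mod_cast hP
  have hC10 : 1 ≤ C ^ 10 := one_le_pow₀ hC
  have hQ1 : 1 ≤ Q := by nlinarith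
  have hQ0 : 0 < Q := by linarith
  have hr1 := (hc.rng _ hi).1
  have hnC : (0 : ℝ) < n / C := div_pos hn0 hC0
  have hi0 : (0 : ℝ) < q.1.1 := lt_of_lt_of_le hnC hr1
  have hp2R : (q.1.2 : ℝ) ≤ 2 * P := by exact_mod_cast hp2
  obtain ⟨hd1, hdQ, hbd, -⟩ := hc.dat _ (hc.lab _ hi)
  obtain ⟨hd1', hdQ', hbd', -⟩ := hc.dat _ (hc.lab _ hi')
  have h1 := pair_f C hC n P Q η α r U s d b T hc hn hP hQ1 hη q hq hf
  -- the error of the frequencies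
  have h2 : |(q.1.2 : ℝ) * (T (s q.1.1) - T (s q.2.1)) / q.1.1| ≤ 2 * C * Q ^ 12 * η * P := by
    rw [abs_div, abs_mul, abs_of_pos hi0, div_le_iff₀ hi0, Nat.abs_cast]
    have g1 : (q.1.2 : ℝ) * |T (s q.1.1) - T (s q.2.1)| ≤ (2 * P) * (Q ^ 12 * η * n) :=
      mul_le_mul hp2R hT (abs_nonneg _) (by positivity)
    have g2 : (2 * P) * (Q ^ 12 * η * n) = 2 * C * Q ^ 12 * η * P * (n / C) := by
      field_simp
    rw [g2] at g1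
    exact g1.trans (mul_le_mul_of_nonneg_left hr1 (by positivity))
  have h3 : nz ((q.1.2 : ℝ) * (b (s q.1.1) / d (s q.1.1)) - q.2.2 * (b (s q.2.1) / d (s q.2.1))) ≤
      12 * C ^ 3 * Q ^ 12 * η * P := by
    have g1 : (q.1.2 : ℝ) * (b (s q.1.1) / d (s q.1.1)) - q.2.2 * (b (s q.2.1) / d (s q.2.1)) =
        (q.1.2 * (b (s q.1.1) / d (s q.1.1)) - q.2.2 * (b (s q.2.1) / d (s q.2.1)) +
          q.1.2 * (T (s q.1.1) - T (s q.2.1)) / q.1.1) -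
        q.1.2 * (T (s q.1.1) - T (s q.2.1)) / q.1.1 := by ring
    rw [g1]
    refine (Pool.Agent.H53.MID.nz_sub _ _).trans ?_
    have g2 := (Pool.Agent.H53.MID.nz_le_abs ((q.1.2 : ℝ) * (T (s q.1.1) - T (s q.2.1)) / q.1.1)).trans h2
    have g3 : Q ≤ Q ^ 12 := le_self_pow₀ hQ1 (by norm_num)
    have g4 : C ≤ C ^ 3 := le_self_pow₀ hC (by norm_num)
    have hX : 0 ≤ η * P := by positivity
    have g5 : 10 * C ^ 3 * Q * η * P ≤ 10 * C ^ 3 * Q ^ 12 * η * P := by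
      have : C ^ 3 * Q * (η * P) ≤ C ^ 3 * Q ^ 12 * (η * P) :=
        mul_le_mul_of_nonneg_right (mul_le_mul_of_nonneg_left g3 (by positivity)) hX
      nlinarith
    have g6 : 2 * C * Q ^ 12 * η * P ≤ 2 * C ^ 3 * Q ^ 12 * η * P := by
      have : C * Q ^ 12 * (η * P) ≤ C ^ 3 * Q ^ 12 * (η * P) :=
        mul_le_mul_of_nonneg_right (mul_le_mul_of_nonneg_right g4 (by positivity)) hX
      nlinarith
    linarith
  have h4 : 12 * C ^ 3 * Q ^ 12 * η * P < 1 / ((d (s q.1.1) * d (s q.2.1) : ℕ) : ℝ) := by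
    have hd0 : (0 : ℝ) < d (s q.1.1) := by exact_mod_cast hd1
    have hd0' : (0 : ℝ) < d (s q.2.1) := by exact_mod_cast hd1'
    rw [Nat.cast_mul, lt_div_iff₀ (mul_pos hd0 hd0')]
    have g1 : (d (s q.1.1) : ℝ) * d (s q.2.1) ≤ Q * Q := mul_le_mul hdQ hdQ' hd0'.le hQ0.le
    have g2 : 12 * C ^ 3 ≤ Q := by
      have : C ^ 3 ≤ C ^ 10 := pow_le_pow_right₀ hC (by norm_num)
      nlinarith
    have g3 : 12 * C ^ 3 * Q ^ 12 * η * P * (d (s q.1.1) * d (s q.2.1)) ≤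
        Q * Q ^ 12 * η * P * (Q * Q) := by
      refine mul_le_mul ?_ g1 (by positivity) (by positivity)
      have : 12 * C ^ 3 * (Q ^ 12 * η * P) ≤ Q * (Q ^ 12 * η * P) :=
        mul_le_mul_of_nonneg_right g2 (by positivity)
      nlinarith
    refine lt_of_le_of_lt g3 ?_
    rcases hη.eq_or_lt with h0 | h0
    · rw [← h0]; simp
    have hQ2 : 1 < Q := by nlinarith
    have g4 : Q * Q ^ 12 * η * P * (Q * Q) < η * Q ^ 60 * (P : ℝ) ^ 3 := by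
      have k1 : Q ^ 15 < Q ^ 60 := pow_lt_pow_right₀ hQ2 (by norm_num)
      have k2 : (P : ℝ) ≤ (P : ℝ) ^ 3 := le_self_pow₀ hP1 (by norm_num)
      have k3 : Q ^ 15 * P < Q ^ 60 * (P : ℝ) ^ 3 := by
        calc Q ^ 15 * P < Q ^ 60 * P := mul_lt_mul_of_pos_right k1 hP0
          _ ≤ Q ^ 60 * (P : ℝ) ^ 3 := mul_le_mul_of_nonneg_left k2 (by positivity)
      have k4 := mul_lt_mul_of_pos_left k3 h0
      calc Q * Q ^ 12 * η * P * (Q * Q) = η * (Q ^ 15 * P) := by ring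
        _ < η * (Q ^ 60 * (P : ℝ) ^ 3) := k4
        _ = η * Q ^ 60 * (P : ℝ) ^ 3 := by ring
    exact lt_of_lt_of_le g4 hηQ
  have h5 : (((q.1.2 * b (s q.1.1) * d (s q.2.1) : ℕ) : ℤ) -
      ((q.2.2 * b (s q.2.1) * d (s q.1.1) : ℕ) : ℤ) : ℤ) = _ := rfl
  have hdd : 0 < d (s q.1.1) * d (s q.2.1) := Nat.mul_pos hd1 hd1'
  have h6 : ((d (s q.1.1) * d (s q.2.1) : ℕ) : ℤ) ∣
      ((q.1.2 * b (s q.1.1) * d (s q.2.1) : ℕ) : ℤ) -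
      ((q.2.2 * b (s q.2.1) * d (s q.1.1) : ℕ) : ℤ) := by
    by_contra hcon
    have g1 := Pool.Agent.H53.MID.nz_frac_ge _ _ hdd hcon
    have g2 : ((((q.1.2 * b (s q.1.1) * d (s q.2.1) : ℕ) : ℤ) -
      ((q.2.2 * b (s q.2.1) * d (s q.1.1) : ℕ) : ℤ) : ℤ) : ℝ) /
        ((d (s q.1.1) * d (s q.2.1) : ℕ) : ℝ) =
        (q.1.2 : ℝ) * (b (s q.1.1) / d (s q.1.1)) - q.2.2 * (b (s q.2.1) / d (s q.2.1)) := by
      have hd0 : (d (s q.1.1) : ℝ) ≠ 0 := by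
        have : (0 : ℝ) < d (s q.1.1) := by exact_mod_cast hd1
        exact this.ne'
      have hd0' : (d (s q.2.1) : ℝ) ≠ 0 := by
        have : (0 : ℝ) < d (s q.2.1) := by exact_mod_cast hd1'
        exact this.ne'
      push_cast
      field_simp
    rw [g2] at g1
    linarith
  have hPd : ∀ e : ℕ, (e : ℝ) ≤ Q → e ≤ P := by
    intro e he
    have : (e : ℝ) ≤ P := he.trans hQP
    exact_mod_cast this
  have hcop : ∀ (e p : ℕ), 1 ≤ e → (e : ℝ) ≤ Q → p.Prime → P < p → Nat.Coprime e p := by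
    intro e p he1 he hp hPp
    rw [Nat.coprime_comm, Nat.Prime.coprime_iff_not_dvd hp]
    intro hdvd
    have := Nat.le_of_dvd (by omega) hdvd
    have := hPd e he
    omega
  have h7 : d (s q.1.1) ∣ d (s q.2.1) := by
    have g1 : ((d (s q.1.1) : ℕ) : ℤ) ∣ ((q.1.2 * b (s q.1.1) * d (s q.2.1) : ℕ) : ℤ) := by
      have g2 : ((d (s q.1.1) : ℕ) : ℤ) ∣ ((q.1.2 * b (s q.1.1) * d (s q.2.1) : ℕ) : ℤ) -
          ((q.2.2 * b (s q.2.1) * d (s q.1.1) : ℕ) : ℤ) := by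
        refine dvd_trans ?_ h6
        exact_mod_cast dvd_mul_right _ _
      have g3 : ((d (s q.1.1) : ℕ) : ℤ) ∣ ((q.2.2 * b (s q.2.1) * d (s q.1.1) : ℕ) : ℤ) := by
        exact_mod_cast dvd_mul_left _ _
      have g4 := dvd_add g2 g3
      simpa using g4
    have g5 : d (s q.1.1) ∣ q.1.2 * b (s q.1.1) * d (s q.2.1) := by exact_mod_cast g1
    refine Nat.Coprime.dvd_of_dvd_mul_left ?_ g5
    exact Nat.Coprime.mul_right (hcop _ _ hd1 hdQ hpp hp1) hbd.symm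
  have h8 : d (s q.2.1) ∣ d (s q.1.1) := by
    have g1 : ((d (s q.2.1) : ℕ) : ℤ) ∣ ((q.2.2 * b (s q.2.1) * d (s q.1.1) : ℕ) : ℤ) := by
      have g2 : ((d (s q.2.1) : ℕ) : ℤ) ∣ ((q.1.2 * b (s q.1.1) * d (s q.2.1) : ℕ) : ℤ) -
          ((q.2.2 * b (s q.2.1) * d (s q.1.1) : ℕ) : ℤ) := by
        refine dvd_trans ?_ h6
        exact_mod_cast dvd_mul_left _ _
      have g3 : ((d (s q.2.1) : ℕ) : ℤ) ∣ ((q.1.2 * b (s q.1.1) * d (s q.2.1) : ℕ) : ℤ) := by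
        exact_mod_cast dvd_mul_left _ _
      have g4 := dvd_sub g3 g2
      simpa using g4
    have g5 : d (s q.2.1) ∣ q.2.2 * b (s q.2.1) * d (s q.1.1) := by exact_mod_cast g1
    refine Nat.Coprime.dvd_of_dvd_mul_left ?_ g5
    exact Nat.Coprime.mul_right (hcop _ _ hd1' hdQ' hpp' hp1') hbd'.symm
  have h9 : d (s q.1.1) = d (s q.2.1) := Nat.dvd_antisymm h7 h8
  refine ⟨h9, ?_⟩
  rw [← h9] at h6
  have h10 : ((d (s q.1.1) : ℕ) : ℤ) * (d (s q.1.1) : ℕ) ∣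
      ((d (s q.1.1) : ℕ) : ℤ) * (((q.1.2 * b (s q.1.1) : ℕ) : ℤ) - ((q.2.2 * b (s q.2.1) : ℕ) : ℤ)) := by
    have g1 : ((d (s q.1.1) : ℕ) : ℤ) *
        (((q.1.2 * b (s q.1.1) : ℕ) : ℤ) - ((q.2.2 * b (s q.2.1) : ℕ) : ℤ)) =
        ((q.1.2 * b (s q.1.1) * d (s q.1.1) : ℕ) : ℤ) -
        ((q.2.2 * b (s q.2.1) * d (s q.1.1) : ℕ) : ℤ) := by
      push_cast
      ring
    rw [g1]
    have g2 : ((d (s q.1.1) : ℕ) : ℤ) * (d (s q.1.1) : ℕ) =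
        ((d (s q.1.1) * d (s q.1.1) : ℕ) : ℤ) := by push_cast; ring
    rw [g2]
    exact h6
  have hd0Z : ((d (s q.1.1) : ℕ) : ℤ) ≠ 0 := by
    have : d (s q.1.1) ≠ 0 := by omega
    exact_mod_cast this
  have h11 := (mul_dvd_mul_iff_left hd0Z).1 h10
  exact (Nat.modEq_iff_dvd.2 h11).symm

end Pool.Agent.H53.MDB
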