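import Pool.Agent.H53.MDB.Osc
import Pool.Agent.H53.MDB.PairF

/-!
# MDB Far: few quadruples with `|T - T'| > Z = Q^12 η n`

Proof.  Let `q = ((i,p),(i',p'))` be such a quadruple, `j = s i`, `j' = s i'` (`< r`), `V = d_j d_j' (T_j - T_j')`: `Z < |V| ≤ 2 Q^3 η n^2` (`1 ≤ d_j d_j' ≤ Q^2`, `|T_j - T_j'| ≤ 2 Q η n^2`).
Multiply `pair_f` by the natural number `d_j d_j' ≤ Q^2` (`nz_nat_mul`); `d_j d_j' (p b_j/d_j - p' b_j'/d_j')` is an integer: `nz (V p/i) ≤ κ := 10 C^3 Q^3 η P`.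
For fixed `j, j', p` the set `S` of the `i ∈ U` with `nz (V p/i) ≤ κ` has by `osc` (`W = V p`, `|W| ≤ 4 Q^3 η n^2 P`, `|W| ≥ Z P`) at most
`(C |W|/n + 2)(2 κ C^2 n^2/|W| + 1) = 2 κ C^3 n + C |W|/n + 4 κ C^2 n^2/|W| + 2 ≤ n/Q^6` elements: the four terms are `≤ n/(4 Q^6)` each:
`20 C^6 Q^3 η P n` and `4 C Q^3 η P n`: from `η Q^60 P^3 ≤ 1`, `200 C^10 ≤ Q`, `1 ≤ P`; `4 κ C^2 n^2/|W| ≤ 40 C^5 Q^3 η P n^2/(Q^12 η n P) = 40 C^5 n/Q^9`, `160 C^5 ≤ Q^3`; `2 ≤ n/(4 Q^6)`: `8 Q^6 ≤ n`.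
For given `i, p` there are at most `P (8 C + 1)` pairs `(i', p')`: `p' ∈ (P, 2P]` and `|i' - i p'/p| ≤ 4 C P/p < 4 C` (an interval of length `8 C` contains at most `8 C + 1` integers).
So the number of quadruples is at most `∑_{j, j' < r} ∑_{p ∈ (P,2P]} (n/Q^6) · P (8C+1) ≤ (C Q)^2 P (n/Q^6) P (8 C + 1) ≤ n P^2/Q^3` (`9 C^3 ≤ Q`).
Formalization hint: the set of quadruples is contained in the union over `(j, j') ∈ range r × range r` with `|T_j - T_j'| > Z` and `p ∈ Ioc P (2P)` of the sets `{q : q.1.2 = p, q.1.1 ∈ S_{j,j',p}, q.2 ∈ E(q.1)}` (`Finset.card_biUnion_le`).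
-/

set_option autoImplicit false

namespace Pool.Agent.H53.MDB

open Finset
open Pool.Agent.H53.MID (nz)

private theorem Far_fib {α β : Type*} [DecidableEq β] (A : Finset α) (g : α → β) (B : Finset β) (M : ℝ)
    (h : ∀ a ∈ A, g a ∈ B) (hM : ∀ b ∈ B, ((A.filter (fun a => g a = b)).card : ℝ) ≤ M) :
    (A.card : ℝ) ≤ B.card * M := by
  rw [Finset.card_eq_sum_card_fiberwise h]
  push_cast
  refine (Finset.sum_le_sum hM).trans ?_
  rw [Finset.sum_const, nsmul_eq_mul]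

private theorem Far_card (S : Finset ℕ) (a L : ℝ) (hL : 0 ≤ L) (h : ∀ x ∈ S, |(x : ℝ) - a| ≤ L) :
    (S.card : ℝ) ≤ 2 * L + 1 := by
  rcases S.eq_empty_or_nonempty with h0 | h0
  · rw [h0, Finset.card_empty]
    push_cast
    linarith
  · have h1 : S ⊆ Finset.Icc (S.min' h0) (S.max' h0) := fun x hx =>
      Finset.mem_Icc.2 ⟨S.min'_le x hx, S.le_max' x hx⟩
    have h2 := Finset.card_le_card h1
    rw [Nat.card_Icc] at h2
    have h3 := abs_le.1 (h _ (S.min'_mem h0))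
    have h4 := abs_le.1 (h _ (S.max'_mem h0))
    have h5 : S.min' h0 ≤ S.max' h0 := S.min'_le _ (S.max'_mem h0)
    have h6 : (S.card : ℝ) ≤ (S.max' h0 : ℝ) + 1 - S.min' h0 := by
      have h7 : S.card + S.min' h0 ≤ S.max' h0 + 1 := by omega
      have h8 : ((S.card + S.min' h0 : ℕ) : ℝ) ≤ ((S.max' h0 + 1 : ℕ) : ℝ) := by exact_mod_cast h7
      push_cast at h8
      linarith
    linarith [h3.1, h4.2]

private theorem Far_Q {C Q : ℝ} (hC : 1 ≤ C) (hQ : 200 * C ^ 10 ≤ Q) : 200 ≤ Q ∧ 200 * C ^ 6 ≤ Q ∧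
    200 * C ^ 5 ≤ Q ∧ 200 * C ^ 3 ≤ Q ∧ 200 * C ≤ Q := by
  have h1 : (1 : ℝ) ≤ C ^ 10 := one_le_pow₀ hC
  have h2 : C ^ 6 ≤ C ^ 10 := pow_le_pow_right₀ hC (by norm_num)
  have h3 : C ^ 5 ≤ C ^ 10 := pow_le_pow_right₀ hC (by norm_num)
  have h4 : C ^ 3 ≤ C ^ 10 := pow_le_pow_right₀ hC (by norm_num)
  have h5 : C ^ 1 ≤ C ^ 10 := pow_le_pow_right₀ hC (by norm_num)
  rw [pow_one] at h5
  refine ⟨?_, ?_, ?_, ?_, ?_⟩ <;> linarith

private theorem Far_num {C Q n P η w : ℝ} (hC : 1 ≤ C) (hQ : 200 * C ^ 10 ≤ Q) (hP : 1 ≤ P) (hQn : 8 * Q ^ 6 ≤ n)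
    (hη : 0 < η) (hηQ : η * Q ^ 60 * P ^ 3 ≤ 1) (hw1 : Q ^ 12 * η * n * P ≤ w) (hw2 : w ≤ 4 * Q ^ 3 * η * n ^ 2 * P) :
    10 * C ^ 3 * Q ^ 3 * η * P ≤ 1 / 2 ∧
    (C * w / n + 2) * (2 * (10 * C ^ 3 * Q ^ 3 * η * P) * C ^ 2 * n ^ 2 / w + 1) ≤ n / Q ^ 6 := by
  obtain ⟨hQ0, hQ6, hQ5, hQ3, hQC⟩ := Far_Q hC hQ
  have hQp : 0 < Q := by linarith
  have hQ1 : 1 ≤ Q := by linarith
  have hCp : 0 < C := by linarith
  have hPp : 0 < P := by linarith
  have hn : 0 < n := lt_of_lt_of_le (by positivity) hQn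
  have hwp : 0 < w := lt_of_lt_of_le (by positivity) hw1
  obtain ⟨e, he⟩ : ∃ e : ℝ, e = η * P := ⟨_, rfl⟩
  have hep : 0 < e := by
    rw [he]
    positivity
  have he60 : Q ^ 60 * e ≤ 1 := by
    have h1 : P ≤ P ^ 3 := by
      have := pow_le_pow_right₀ hP (show 1 ≤ 3 by norm_num)
      rwa [pow_one] at this
    have h2 : η * Q ^ 60 * P ≤ η * Q ^ 60 * P ^ 3 := mul_le_mul_of_nonneg_left h1 (by positivity)
    rw [he]
    linarith
  have hpow : ∀ k : ℕ, k ≤ 60 → Q ^ k * e ≤ 1 := fun k hk =>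
    (mul_le_mul_of_nonneg_right (pow_le_pow_right₀ hQ1 hk) hep.le).trans he60
  have k1 : 80 * C ^ 6 * Q ^ 9 * e ≤ 1 := by
    have h1 : 80 * C ^ 6 ≤ Q := by
      have : 0 ≤ C ^ 6 := by positivity
      linarith
    have h2 : 80 * C ^ 6 * (Q ^ 9 * e) ≤ Q * (Q ^ 9 * e) := mul_le_mul_of_nonneg_right h1 (by positivity)
    have h3 := hpow 10 (by norm_num)
    calc 80 * C ^ 6 * Q ^ 9 * e = 80 * C ^ 6 * (Q ^ 9 * e) := by ring
      _ ≤ Q * (Q ^ 9 * e) := h2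
      _ = Q ^ 10 * e := by ring
      _ ≤ 1 := h3
  have k2 : 16 * C * Q ^ 9 * e ≤ 1 := by
    have h1 : 16 * C ≤ Q := by linarith
    have h2 : 16 * C * (Q ^ 9 * e) ≤ Q * (Q ^ 9 * e) := mul_le_mul_of_nonneg_right h1 (by positivity)
    have h3 := hpow 10 (by norm_num)
    calc 16 * C * Q ^ 9 * e = 16 * C * (Q ^ 9 * e) := by ring
      _ ≤ Q * (Q ^ 9 * e) := h2
      _ = Q ^ 10 * e := by ring
      _ ≤ 1 := h3
  have k3 : 160 * C ^ 5 ≤ Q ^ 3 := by
    have h1 : Q ≤ Q ^ 3 := by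
      have := pow_le_pow_right₀ hQ1 (show 1 ≤ 3 by norm_num)
      rwa [pow_one] at this
    have : 0 ≤ C ^ 5 := by positivity
    linarith
  have k0 : 20 * C ^ 3 * Q ^ 3 * e ≤ 1 := by
    have h1 : 20 * C ^ 3 ≤ Q := by
      have : 0 ≤ C ^ 3 := by positivity
      linarith
    have h2 : 20 * C ^ 3 * (Q ^ 3 * e) ≤ Q * (Q ^ 3 * e) := mul_le_mul_of_nonneg_right h1 (by positivity)
    have h3 := hpow 4 (by norm_num)
    calc 20 * C ^ 3 * Q ^ 3 * e = 20 * C ^ 3 * (Q ^ 3 * e) := by ring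
      _ ≤ Q * (Q ^ 3 * e) := h2
      _ = Q ^ 4 * e := by ring
      _ ≤ 1 := h3
  have hκ : 10 * C ^ 3 * Q ^ 3 * η * P = 10 * C ^ 3 * Q ^ 3 * e := by
    rw [he]
    ring
  rw [hκ]
  refine ⟨by linarith, ?_⟩
  have hw1' : Q ^ 12 * n * e ≤ w := by
    rw [he]
    calc Q ^ 12 * n * (η * P) = Q ^ 12 * η * n * P := by ring
      _ ≤ w := hw1
  have hw2' : w ≤ 4 * Q ^ 3 * n ^ 2 * e := by
    rw [he]
    calc w ≤ 4 * Q ^ 3 * η * n ^ 2 * P := hw2
      _ = _ := by ring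
  have t1 : C * w / n * (2 * (10 * C ^ 3 * Q ^ 3 * e) * C ^ 2 * n ^ 2 / w) = 20 * C ^ 6 * Q ^ 3 * e * n := by
    field_simp
    ring
  have t1' : 20 * C ^ 6 * Q ^ 3 * e * n ≤ n / Q ^ 6 / 4 := by
    have h1 : 20 * C ^ 6 * Q ^ 3 * e * n = (80 * C ^ 6 * Q ^ 9 * e) * (n / Q ^ 6 / 4) := by
      field_simp
      ring
    rw [h1]
    exact mul_le_of_le_one_left (by positivity) k1
  have t2 : C * w / n ≤ n / Q ^ 6 / 4 := by
    rw [div_le_iff₀ hn]
    have h1 : C * (4 * Q ^ 3 * n ^ 2 * e) = (16 * C * Q ^ 9 * e) * (n / Q ^ 6 / 4 * n) := by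
      field_simp
      ring
    calc C * w ≤ C * (4 * Q ^ 3 * n ^ 2 * e) := mul_le_mul_of_nonneg_left hw2' hCp.le
      _ = (16 * C * Q ^ 9 * e) * (n / Q ^ 6 / 4 * n) := h1
      _ ≤ n / Q ^ 6 / 4 * n := mul_le_of_le_one_left (by positivity) k2
  have t3 : 2 * (2 * (10 * C ^ 3 * Q ^ 3 * e) * C ^ 2 * n ^ 2 / w) ≤ n / Q ^ 6 / 4 := by
    have h0 : 2 * (2 * (10 * C ^ 3 * Q ^ 3 * e) * C ^ 2 * n ^ 2 / w) = (40 * C ^ 5 * Q ^ 3 * e * n ^ 2) / w := by
      ring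
    rw [h0, div_le_iff₀ hwp]
    have h1 : n / Q ^ 6 / 4 * (Q ^ 12 * n * e) = Q ^ 3 * (Q ^ 3 * e * n ^ 2 / 4) := by
      field_simp
    calc 40 * C ^ 5 * Q ^ 3 * e * n ^ 2 = 160 * C ^ 5 * (Q ^ 3 * e * n ^ 2 / 4) := by ring
      _ ≤ Q ^ 3 * (Q ^ 3 * e * n ^ 2 / 4) := mul_le_mul_of_nonneg_right k3 (by positivity)
      _ = n / Q ^ 6 / 4 * (Q ^ 12 * n * e) := h1.symm
      _ ≤ n / Q ^ 6 / 4 * w := mul_le_mul_of_nonneg_left hw1' (by positivity)
  have t4 : 2 ≤ n / Q ^ 6 / 4 := by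
    rw [le_div_iff₀ (by norm_num : (0 : ℝ) < 4), le_div_iff₀ (by positivity)]
    linarith
  calc (C * w / n + 2) * (2 * (10 * C ^ 3 * Q ^ 3 * e) * C ^ 2 * n ^ 2 / w + 1)
      = C * w / n * (2 * (10 * C ^ 3 * Q ^ 3 * e) * C ^ 2 * n ^ 2 / w) + C * w / n +
        2 * (2 * (10 * C ^ 3 * Q ^ 3 * e) * C ^ 2 * n ^ 2 / w) + 2 := by ring
    _ ≤ n / Q ^ 6 := by
      rw [t1]
      linarith

open Classical in
theorem far (C : ℝ) (hC : 1 ≤ C) (n P : ℕ) (Q η : ℝ) (α : ℕ → ℝ) (r : ℕ) (U : Finset ℕ) (s d b : ℕ → ℕ) (T : ℕ → ℝ)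
    (hc : Cov C n Q η α r U s d b T) (hP : 1 ≤ P) (hQ : 200 * C ^ 10 ≤ Q) (hQn : 8 * Q ^ 6 ≤ n) (hη : 0 < η)
    (hηQ : η * Q ^ 60 * (P : ℝ) ^ 3 ≤ 1) :
    (((QS C P U).filter (fun q => nz (q.1.2 * α q.1.1 - q.2.2 * α q.2.1) ≤ 2 * η * P ∧
      Q ^ 12 * η * n < |T (s q.1.1) - T (s q.2.1)|)).card : ℝ) ≤ n * P ^ 2 / Q ^ 3 := by
  obtain ⟨hQ0, hQ6, hQ5, hQ3, hQC⟩ := Far_Q hC hQ
  have hQp : 0 < Q := by linarith
  have hQ1 : 1 ≤ Q := by linarith
  have hCp : 0 < C := by linarith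
  have hP' : (1 : ℝ) ≤ P := by exact_mod_cast hP
  have hPp : (0 : ℝ) < P := by linarith
  have hnp : (0 : ℝ) < n := lt_of_lt_of_le (by positivity) hQn
  have hn : 1 ≤ n := by
    have : 0 < n := by exact_mod_cast hnp
    omega
  obtain ⟨A, hA⟩ : ∃ A, A = (QS C P U).filter (fun q => nz (q.1.2 * α q.1.1 - q.2.2 * α q.2.1) ≤ 2 * η * P ∧
      Q ^ 12 * η * n < |T (s q.1.1) - T (s q.2.1)|) := ⟨_, rfl⟩
  rw [← hA]
  have hAm : ∀ q ∈ A, q ∈ QS C P U ∧ nz (q.1.2 * α q.1.1 - q.2.2 * α q.2.1) ≤ 2 * η * P ∧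
      Q ^ 12 * η * n < |T (s q.1.1) - T (s q.2.1)| := by
    intro q hq
    rw [hA, Finset.mem_filter] at hq
    exact hq
  have hlev : ∀ x ∈ range r ×ˢ range r ×ˢ Ioc P (2 * P),
      ((A.filter (fun q => (s q.1.1, s q.2.1, q.1.2) = x)).card : ℝ) ≤ (n / Q ^ 6) * (P * (8 * C + 1)) := by
    rintro ⟨j, j', p⟩ hx
    rw [mem_product, mem_product, mem_range, mem_range, mem_Ioc] at hx
    obtain ⟨hj, hj', hp1, hp2⟩ := hx
    have hp1' : (P : ℝ) < p := by exact_mod_cast hp1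
    have hp2' : (p : ℝ) ≤ 2 * P := by exact_mod_cast hp2
    have hpp : (0 : ℝ) < p := by linarith
    obtain ⟨A1, hA1⟩ : ∃ A1, A1 = A.filter (fun q => (s q.1.1, s q.2.1, q.1.2) = (j, j', p)) := ⟨_, rfl⟩
    rw [← hA1]
    have hA1m : ∀ q ∈ A1, q ∈ A ∧ s q.1.1 = j ∧ s q.2.1 = j' ∧ q.1.2 = p := by
      intro q hq
      rw [hA1, Finset.mem_filter, Prod.mk.injEq, Prod.mk.injEq] at hq
      exact hq
    have hfib3 : ∀ i ∈ A1.image (fun q => q.1.1), ((A1.filter (fun q => q.1.1 = i)).card : ℝ) ≤ P * (8 * C + 1) := by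
      intro i _
      obtain ⟨A2, hA2⟩ : ∃ A2, A2 = A1.filter (fun q => q.1.1 = i) := ⟨_, rfl⟩
      rw [← hA2]
      have hA2m : ∀ q ∈ A2, q ∈ A1 ∧ q.1.1 = i := by
        intro q hq
        rw [hA2, Finset.mem_filter] at hq
        exact hq
      have h4 : ∀ p' ∈ Ioc P (2 * P), ((A2.filter (fun q => q.2.2 = p')).card : ℝ) ≤ 8 * C + 1 := by
        intro p' _
        obtain ⟨A3, hA3⟩ : ∃ A3, A3 = A2.filter (fun q => q.2.2 = p') := ⟨_, rfl⟩
        rw [← hA3]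
        have hA3m : ∀ q ∈ A3, q ∈ A2 ∧ q.2.2 = p' := by
          intro q hq
          rw [hA3, Finset.mem_filter] at hq
          exact hq
        have hinj : Set.InjOn (fun q : (ℕ × ℕ) × (ℕ × ℕ) => q.2.1) (A3 : Set ((ℕ × ℕ) × (ℕ × ℕ))) := by
          intro q hq q' hq' h
          have hq := Finset.mem_coe.1 hq
          have hq' := Finset.mem_coe.1 hq'
          have a1 := hA3m q hq
          have a2 := hA3m q' hq'
          have b1 := hA2m q a1.1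
          have b2 := hA2m q' a2.1
          have c1 := hA1m q b1.1
          have c2 := hA1m q' b2.1
          exact Prod.ext (Prod.ext (b1.2.trans b2.2.symm) (c1.2.2.2.trans c2.2.2.2.symm))
            (Prod.ext h (a1.2.trans a2.2.symm))
        rw [← Finset.card_image_of_injOn hinj]
        have h5 := Far_card (A3.image (fun q => q.2.1)) ((i : ℝ) * p' / p) (4 * C) (by positivity) (by
          intro x hx
          obtain ⟨q, hq, hqx⟩ := Finset.mem_image.1 hx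
          have a1 := hA3m q hq
          have b1 := hA2m q a1.1
          have c1 := hA1m q b1.1
          have d1 := (mem_QS.1 (hAm q c1.1).1).2.2.2.2.2.2.2.2
          rw [a1.2, b1.2, c1.2.2.2] at d1
          have hqx' : q.2.1 = x := hqx
          rw [hqx'] at d1
          have e1 : (x : ℝ) - (i : ℝ) * p' / p = -(((i : ℝ) * p' - x * p) / p) := by
            field_simp
            ring
          rw [e1, abs_neg, abs_div, abs_of_pos hpp, div_le_iff₀ hpp]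
          refine d1.trans ?_
          exact mul_le_mul_of_nonneg_left hp1'.le (by positivity))
        linarith
      have h5 := Far_fib A2 (fun q => q.2.2) (Ioc P (2 * P)) (8 * C + 1) (by
        intro q hq
        have b1 := hA2m q hq
        have c1 := hA1m q b1.1
        have d1 := mem_QS.1 (hAm q c1.1).1
        exact mem_Ioc.2 ⟨d1.2.2.2.2.2.1, d1.2.2.2.2.2.2.1⟩) h4
      rw [Nat.card_Ioc] at h5
      have e1 : 2 * P - P = P := by omega
      rw [e1] at h5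
      exact h5
    have hM := Far_fib A1 (fun q => q.1.1) (A1.image (fun q => q.1.1)) (P * (8 * C + 1))
      (fun q hq => Finset.mem_image_of_mem _ hq) hfib3
    refine hM.trans (mul_le_mul_of_nonneg_right ?_ (by positivity))
    rcases A1.eq_empty_or_nonempty with h0 | ⟨q0, hq0⟩
    · rw [h0, Finset.image_empty, Finset.card_empty]
      push_cast
      positivity
    · have hq1 := hA1m q0 hq0
      have hZ := (hAm q0 hq1.1).2.2
      rw [hq1.2.1, hq1.2.2.1] at hZ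
      obtain ⟨hd1, hd2, _, hd4⟩ := hc.dat j hj
      obtain ⟨hd1', hd2', _, hd4'⟩ := hc.dat j' hj'
      have hdj : (1 : ℝ) ≤ d j := by exact_mod_cast hd1
      have hdj' : (1 : ℝ) ≤ d j' := by exact_mod_cast hd1'
      obtain ⟨W, hW⟩ : ∃ W : ℝ, W = ((d j * d j' : ℕ) : ℝ) * (T j - T j') * p := ⟨_, rfl⟩
      have hWabs : |W| = ((d j : ℝ) * d j') * |T j - T j'| * p := by
        rw [hW, abs_mul, abs_mul, abs_of_pos hpp]
        push_cast
        rw [abs_of_nonneg (show (0 : ℝ) ≤ (d j : ℝ) * d j' by positivity)]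
      have hDD : (d j : ℝ) * d j' ≤ Q * Q := mul_le_mul hd2 hd2' (by positivity) hQp.le
      have hDD1 : (1 : ℝ) ≤ (d j : ℝ) * d j' := one_le_mul_of_one_le_of_one_le hdj hdj'
      have hTT : |T j - T j'| ≤ 2 * (Q * η * (n : ℝ) ^ 2) := by
        refine (abs_sub _ _).trans ?_
        linarith
      have hw1 : Q ^ 12 * η * n * P ≤ |W| := by
        rw [hWabs]
        have h5 : Q ^ 12 * η * n ≤ ((d j : ℝ) * d j') * |T j - T j'| := by
          have h6 : 1 * |T j - T j'| ≤ ((d j : ℝ) * d j') * |T j - T j'| :=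
            mul_le_mul_of_nonneg_right hDD1 (abs_nonneg _)
          linarith
        exact mul_le_mul h5 hp1'.le hPp.le (by positivity)
      have hw2 : |W| ≤ 4 * Q ^ 3 * η * (n : ℝ) ^ 2 * P := by
        rw [hWabs]
        calc ((d j : ℝ) * d j') * |T j - T j'| * p
            ≤ (Q * Q) * (2 * (Q * η * (n : ℝ) ^ 2)) * (2 * P) := by
              apply mul_le_mul _ hp2' hpp.le (by positivity)
              exact mul_le_mul hDD hTT (abs_nonneg _) (by positivity)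
          _ = 4 * Q ^ 3 * η * (n : ℝ) ^ 2 * P := by ring
      obtain ⟨hκ2, hnum⟩ := Far_num (n := (n : ℝ)) (P := (P : ℝ)) hC hQ hP' hQn hη hηQ hw1 hw2
      have hW0 : W ≠ 0 := by
        intro h5
        rw [h5, abs_zero] at hw1
        have : 0 < Q ^ 12 * η * n * P := by positivity
        linarith
      have hosc := osc C hC n W (10 * C ^ 3 * Q ^ 3 * η * P) hn hW0 (by positivity) hκ2
        (A1.image (fun q => q.1.1)) (by
          intro i hi
          obtain ⟨q, hq, hqi⟩ := Finset.mem_image.1 hi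
          have hqi' : q.1.1 = i := hqi
          have c1 := hA1m q hq
          have a1 := hAm q c1.1
          have u1 := (mem_QS.1 a1.1).1
          rw [hqi'] at u1
          have hr := hc.rng i u1
          have hi0 : (0 : ℝ) < i := lt_of_lt_of_le (by positivity) hr.1
          refine ⟨hr.1, hr.2, ?_⟩
          have hp := pair_f C hC n P Q η α r U s d b T hc hn hP hQ1 hη.le q a1.1 a1.2.1
          rw [c1.2.1, c1.2.2.1, c1.2.2.2, hqi'] at hp
          have hk := Pool.Agent.H53.MID.nz_nat_mul (d j * d j') ((p : ℝ) * (b j / d j) - q.2.2 * (b j' / d j') + p * (T j - T j') / i)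
          have e1 : ((d j * d j' : ℕ) : ℝ) * ((p : ℝ) * (b j / d j) - q.2.2 * (b j' / d j') + p * (T j - T j') / i) =
              W / i + (((d j' * p * b j : ℤ) - (d j * q.2.2 * b j' : ℤ) : ℤ) : ℝ) := by
            rw [hW]
            push_cast
            field_simp
            ring
          rw [e1, Pool.Agent.H53.MID.nz_add_int] at hk
          refine hk.trans ?_
          push_cast
          calc (d j : ℝ) * d j' * nz ((p : ℝ) * (b j / d j) - q.2.2 * (b j' / d j') + p * (T j - T j') / i)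
              ≤ (Q * Q) * (10 * C ^ 3 * Q * η * P) := mul_le_mul hDD hp (Pool.Agent.H53.MID.nz_nonneg _) (by positivity)
            _ = 10 * C ^ 3 * Q ^ 3 * η * P := by ring)
      exact hosc.trans hnum
  have hfin := Far_fib A (fun q => (s q.1.1, s q.2.1, q.1.2)) (range r ×ˢ range r ×ˢ Ioc P (2 * P))
    ((n / Q ^ 6) * (P * (8 * C + 1))) (by
      intro q hq
      have a1 := mem_QS.1 (hAm q hq).1
      rw [mem_product, mem_product, mem_range, mem_range, mem_Ioc]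
      exact ⟨hc.lab _ a1.1, hc.lab _ a1.2.2.2.2.1, a1.2.1, a1.2.2.1⟩) hlev
  refine hfin.trans ?_
  rw [card_product, card_product, card_range, Nat.card_Ioc]
  have e1 : 2 * P - P = P := by omega
  rw [e1]
  push_cast
  have hr := hc.cnt
  have hr2 : (r : ℝ) * r ≤ (C * Q) * (C * Q) := mul_le_mul hr hr (Nat.cast_nonneg _) (by positivity)
  have hC3 : C ^ 2 * (8 * C + 1) ≤ Q := by
    have h5 : C ^ 2 * 1 ≤ C ^ 2 * C := mul_le_mul_of_nonneg_left hC (by positivity)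
    have h6 : 0 ≤ C ^ 3 := by positivity
    have h7 : C ^ 2 * C = C ^ 3 := by ring
    have h8 : C ^ 2 * (8 * C + 1) = 8 * C ^ 3 + C ^ 2 * 1 := by ring
    rw [h8]
    rw [h7] at h5
    linarith
  calc (r : ℝ) * (r * P) * (n / Q ^ 6 * (P * (8 * C + 1)))
      = (r * r) * (P * (n / Q ^ 6 * (P * (8 * C + 1)))) := by ring
    _ ≤ ((C * Q) * (C * Q)) * (P * (n / Q ^ 6 * (P * (8 * C + 1)))) :=
        mul_le_mul_of_nonneg_right hr2 (by positivity)
    _ = (C ^ 2 * (8 * C + 1)) * (n * P ^ 2 / Q ^ 4) := by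
        field_simp
    _ ≤ Q * (n * P ^ 2 / Q ^ 4) := mul_le_mul_of_nonneg_right hC3 (by positivity)
    _ = n * P ^ 2 / Q ^ 3 := by
        field_simp

end Pool.Agent.H53.MDB
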