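import Pool.Agent.H53.MDB.Defs

/-!
# MDB Pairs: many quadruples (Cauchy-Schwarz over `g`)

Proof.  The `g` of the triples of `R1` are in `[n/C, C n]`, so there are at most `C n` of them (natural numbers `≥ 1` as `n/C > 0`).  Cauchy-Schwarz (`Finset.inner_mul_le_norm_mul_norm` or `sq_sum_le_card_mul_sum_sq` over the `g`):
the number of pairs `(t, t') ∈ R1 × R1` with the same `g` is `≥ |R1|^2/(C n)`.  The map `(t, t') ↦ ((i,p),(i',p'))` has fibres with at most `2 C + 1` elements: given `i, p` there are at most `2C+1` numbers `g` with `|g p - i P| ≤ C P`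
(`|g - i P/p| ≤ C P/p < C`, an interval of length `< 2 C`).
The image is contained in the set on the right: `i, i' ∈ U`, `p, p'` primes in `(P, 2P]`; `P |i p' - i' p| = |(i P - g p) p' + (g p' - i' P) p| ≤ C P 2P + C P 2P`, so `|i p' - i' p| ≤ 4 C P`;
`nz (p α_i - p' α_i') ≤ nz (p α_i - β_g) + nz (β_g - p' α_i') ≤ 2 η P` (`nz_triangle`, `nz_neg`).
-/

set_option autoImplicit false

namespace Pool.Agent.H53.MDB

open Finset
open Pool.Agent.H53.MID (nz Rel)

/-- the number of the indices at a bounded distance -/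
private theorem Pairs_cardK {C X : ℝ} {p P : ℕ} (hC : 1 ≤ C) (hP : 0 < P) (hp : P < p)
    (U : Finset ℕ) (hU : ∀ K ∈ U, |(K : ℝ) * p - X| ≤ C * P) :
    (U.card : ℝ) ≤ 2 * C + 1 := by
  rcases U.eq_empty_or_nonempty with h0 | hne
  · rw [h0, Finset.card_empty, Nat.cast_zero]
    linarith
  · obtain ⟨a, ha⟩ : ∃ a, a = U.min' hne := ⟨_, rfl⟩
    have haU : a ∈ U := by
      rw [ha]
      exact Finset.min'_mem _ _
    have hsub : U ⊆ Finset.Icc a (a + ⌊2 * C⌋₊) := by
      intro K hK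
      have h1 : a ≤ K := by
        rw [ha]
        exact Finset.min'_le _ _ hK
      rw [Finset.mem_Icc]
      refine ⟨h1, ?_⟩
      have h2 := hU K hK
      have h3 := hU a haU
      rw [abs_le] at h2 h3
      have hP0 : (0 : ℝ) < P := by exact_mod_cast hP
      have hpP : (P : ℝ) < p := by exact_mod_cast hp
      have h4 : ((K : ℝ) - a) * p ≤ 2 * C * P := by linarith [h2.2, h3.1]
      have h5 : (K : ℝ) - a ≤ 2 * C := by
        by_contra hcon
        push Not at hcon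
        have h6 : 2 * C * p < ((K : ℝ) - a) * p :=
          mul_lt_mul_of_pos_right hcon (hP0.trans hpP)
        have h7 : 2 * C * P < 2 * C * p := mul_lt_mul_of_pos_left hpP (by linarith)
        linarith
      have h8 : ((K - a : ℕ) : ℝ) ≤ 2 * C := by
        rw [Nat.cast_sub h1]
        exact h5
      have h9 : K - a ≤ ⌊2 * C⌋₊ := Nat.le_floor h8
      omega
    have h10 : U.card ≤ ⌊2 * C⌋₊ + 1 := by
      refine (Finset.card_le_card hsub).trans ?_
      rw [Nat.card_Icc]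
      omega
    have h11 : (U.card : ℝ) ≤ ((⌊2 * C⌋₊ + 1 : ℕ) : ℝ) := by exact_mod_cast h10
    refine h11.trans ?_
    push_cast
    have := Nat.floor_le (show (0 : ℝ) ≤ 2 * C by linarith)
    linarith

open Classical in
theorem pairs (C : ℝ) (hC : 1 ≤ C) (n P : ℕ) (η : ℝ) (U G0 : Finset ℕ) (α β : ℕ → ℝ) (R1 : Finset (ℕ × ℕ × ℕ))
    (hR : Rel C n P (η * P) U G0 α β R1) (hn : 1 ≤ n) (hP : 1 ≤ P) :
    (R1.card : ℝ) ^ 2 ≤ C * n * (2 * C + 1) *
      ((QS C P U).filter (fun q => nz (q.1.2 * α q.1.1 - q.2.2 * α q.2.1) ≤ 2 * η * P)).card := by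
  have hn0 : (0 : ℝ) < n := by exact_mod_cast hn
  have hP0 : (0 : ℝ) < P := by exact_mod_cast hP
  have hC0 : 0 < C := by linarith
  obtain ⟨G, hG⟩ : ∃ G : Finset ℕ, G = R1.image (fun t => t.2.2) := ⟨_, rfl⟩
  obtain ⟨r, hr⟩ : ∃ r : ℕ → Finset (ℕ × ℕ × ℕ), r = fun g => R1.filter (fun t => t.2.2 = g) := ⟨_, rfl⟩
  have h1 : (R1.card : ℝ) = ∑ g ∈ G, ((r g).card : ℝ) := by
    rw [hG, hr, Finset.card_eq_sum_card_image (fun t : ℕ × ℕ × ℕ => t.2.2) R1]
    push_cast
    rfl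
  have hGc : (G.card : ℝ) ≤ C * n := by
    have h2 : G ⊆ Finset.Icc 1 ⌊C * n⌋₊ := by
      intro g hg
      rw [hG, Finset.mem_image] at hg
      obtain ⟨t, ht, rfl⟩ := hg
      obtain ⟨a1, a2⟩ := hR.rngF' _ (hR.memF' t ht)
      rw [Finset.mem_Icc]
      constructor
      · have a3 : (0 : ℝ) < t.2.2 := lt_of_lt_of_le (by positivity) a1
        exact_mod_cast a3
      · exact Nat.le_floor a2
    have h3 := Finset.card_le_card h2
    rw [Nat.card_Icc, Nat.add_sub_cancel] at h3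
    have h4 : (G.card : ℝ) ≤ (⌊C * n⌋₊ : ℝ) := by exact_mod_cast h3
    exact h4.trans (Nat.floor_le (by positivity))
  have h5 : (R1.card : ℝ) ^ 2 ≤ G.card * ∑ g ∈ G, ((r g).card : ℝ) ^ 2 := by
    rw [h1]
    exact sq_sum_le_card_mul_sum_sq
  obtain ⟨Y, hY⟩ : ∃ Y : Finset ((ℕ × ℕ × ℕ) × (ℕ × ℕ × ℕ)), Y = (R1 ×ˢ R1).filter (fun y => y.1.2.2 = y.2.2.2) :=
    ⟨_, rfl⟩
  have h6 : ∑ g ∈ G, ((r g).card : ℝ) ^ 2 = (Y.card : ℝ) := by
    have h7 : Y.card = ∑ g ∈ G, (Y.filter (fun y => y.1.2.2 = g)).card := by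
      refine Finset.card_eq_sum_card_fiberwise fun y hy => ?_
      rw [Finset.mem_coe, hY, Finset.mem_filter, Finset.mem_product] at hy
      rw [Finset.mem_coe, hG, Finset.mem_image]
      exact ⟨y.1, hy.1.1, rfl⟩
    rw [h7]
    push_cast
    refine Finset.sum_congr rfl fun g _ => ?_
    have h8 : Y.filter (fun y => y.1.2.2 = g) = (r g) ×ˢ (r g) := by
      ext y
      rw [hY, hr, Finset.mem_filter, Finset.mem_filter, Finset.mem_product, Finset.mem_product, Finset.mem_filter,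
        Finset.mem_filter]
      constructor
      · rintro ⟨⟨⟨b1, b2⟩, b3⟩, b4⟩
        exact ⟨⟨b1, b4⟩, b2, b3.symm.trans b4⟩
      · rintro ⟨⟨b1, b2⟩, b3, b4⟩
        exact ⟨⟨⟨b1, b3⟩, b2.trans b4.symm⟩, b2⟩
    rw [h8, Finset.card_product]
    push_cast
    ring
  obtain ⟨f, hf⟩ : ∃ f : (ℕ × ℕ × ℕ) × (ℕ × ℕ × ℕ) → (ℕ × ℕ) × (ℕ × ℕ),
      f = fun y => ((y.1.1, y.1.2.1), (y.2.1, y.2.2.1)) := ⟨_, rfl⟩
  have h9 : (Y.card : ℝ) ≤ (2 * C + 1) * ((Y.image f).card : ℝ) := by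
    rw [Finset.card_eq_sum_card_image f Y]
    push_cast
    have h10 : ∀ q ∈ Y.image f, ((Y.filter (fun y => f y = q)).card : ℝ) ≤ 2 * C + 1 := by
      intro q hq
      rw [Finset.mem_image] at hq
      obtain ⟨y0, hy0, hq0⟩ := hq
      rw [hY, Finset.mem_filter, Finset.mem_product] at hy0
      have hp := hR.prime _ hy0.1.1
      have c1 : ((Y.filter (fun y => f y = q)).card : ℝ) =
          (((Y.filter (fun y => f y = q)).image (fun y => y.1.2.2)).card : ℝ) := by
        rw [Finset.card_image_of_injOn]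
        intro y hy y' hy' hyy
        rw [Finset.mem_coe, Finset.mem_filter, hY, Finset.mem_filter] at hy hy'
        have d1 := hy.2
        have d2 := hy'.2
        have d3 : f y = f y' := d1.trans d2.symm
        rw [hf] at d3
        simp only [Prod.mk.injEq] at d3
        obtain ⟨⟨e1, e2⟩, e3, e4⟩ := d3
        have e5 := hy.1.2
        have e6 := hy'.1.2
        obtain ⟨⟨i, p, g⟩, i', p', g'⟩ := y
        obtain ⟨⟨j, q, h⟩, j', q', h'⟩ := y'
        simp only at e1 e2 e3 e4 e5 e6 hyy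
        subst e1 e2 e3 e4 e5 e6 hyy
        rfl
      rw [c1]
      refine Pairs_cardK (X := (y0.1.1 : ℝ) * P) (p := y0.1.2.1) hC hP hp.2.1 _ fun g hg => ?_
      rw [Finset.mem_image] at hg
      obtain ⟨y, hy, rfl⟩ := hg
      rw [Finset.mem_filter, hY, Finset.mem_filter, Finset.mem_product] at hy
      have d3 : f y = f y0 := hy.2.trans hq0.symm
      rw [hf] at d3
      simp only [Prod.mk.injEq] at d3
      have d4 := hR.pos _ hy.1.1.1
      rw [d3.1.1, d3.1.2] at d4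
      exact d4
    refine (Finset.sum_le_sum h10).trans ?_
    rw [Finset.sum_const, nsmul_eq_mul, mul_comm]
  have h11 : Y.image f ⊆ (QS C P U).filter (fun q => nz (q.1.2 * α q.1.1 - q.2.2 * α q.2.1) ≤ 2 * η * P) := by
    intro q hq
    rw [Finset.mem_image] at hq
    obtain ⟨y, hy, rfl⟩ := hq
    rw [hY, Finset.mem_filter, Finset.mem_product] at hy
    obtain ⟨⟨i, p, g⟩, i', p', g'⟩ := y
    obtain ⟨⟨b1, b2⟩, b3⟩ := hy
    simp only at b1 b2 b3
    subst b3
    rw [Finset.mem_filter, mem_QS, hf]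
    have p1 := hR.prime _ b1
    have p2 := hR.prime _ b2
    have q1 := hR.pos _ b1
    have q2 := hR.pos _ b2
    have r1 := hR.freq _ b1
    have r2 := hR.freq _ b2
    have s1 := hR.memF _ b1
    have s2 := hR.memF _ b2
    simp only at p1 p2 q1 q2 r1 r2 s1 s2 ⊢
    refine ⟨⟨s1, p1.2.1, p1.2.2, p1.1, s2, p2.2.1, p2.2.2, p2.1, ?_⟩, ?_⟩
    · have hp1 : (p : ℝ) ≤ 2 * P := by exact_mod_cast p1.2.2
      have hp2 : (p' : ℝ) ≤ 2 * P := by exact_mod_cast p2.2.2
      have e : (P : ℝ) * ((i : ℝ) * p' - i' * p) = -((g * p - i * P) * p') + (g * p' - i' * P) * p := by ring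
      have u1 : |(P : ℝ) * ((i : ℝ) * p' - i' * p)| ≤ C * P * (2 * P) + C * P * (2 * P) := by
        rw [e]
        refine (abs_add_le _ _).trans (add_le_add ?_ ?_)
        · rw [abs_neg, abs_mul, abs_of_nonneg (show (0 : ℝ) ≤ (p' : ℝ) from Nat.cast_nonneg p')]
          exact mul_le_mul q1 hp2 (Nat.cast_nonneg p') (by positivity)
        · rw [abs_mul, abs_of_nonneg (show (0 : ℝ) ≤ (p : ℝ) from Nat.cast_nonneg p)]
          exact mul_le_mul q2 hp1 (Nat.cast_nonneg p) (by positivity)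
      rw [abs_mul, abs_of_pos hP0] at u1
      have u2 : (P : ℝ) * |(i : ℝ) * p' - i' * p| ≤ P * (4 * C * P) := by
        refine u1.trans (le_of_eq ?_)
        ring
      exact le_of_mul_le_mul_left u2 hP0
    · refine (Pool.Agent.H53.MID.nz_triangle _ (β g) _).trans ?_
      have e : β g - (p' : ℝ) * α i' = -((p' : ℝ) * α i' - β g) := by ring
      rw [e, Pool.Agent.H53.MID.nz_neg]
      linarith
  have h12 : ((Y.image f).card : ℝ) ≤
      (((QS C P U).filter (fun q => nz (q.1.2 * α q.1.1 - q.2.2 * α q.2.1) ≤ 2 * η * P)).card : ℝ) := by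
    exact_mod_cast Finset.card_le_card h11
  rw [h6] at h5
  calc (R1.card : ℝ) ^ 2 ≤ G.card * (Y.card : ℝ) := h5
    _ ≤ (C * n) * ((2 * C + 1) * ((Y.image f).card : ℝ)) :=
        mul_le_mul hGc h9 (Nat.cast_nonneg _) (by positivity)
    _ ≤ (C * n) * ((2 * C + 1) * (((QS C P U).filter (fun q =>
        nz (q.1.2 * α q.1.1 - q.2.2 * α q.2.1) ≤ 2 * η * P)).card : ℝ)) := by
        refine mul_le_mul_of_nonneg_left (mul_le_mul_of_nonneg_left h12 (by linarith)) (by positivity)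
    _ = _ := by ring

end Pool.Agent.H53.MDB
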