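import Pool.Agent.H53.MDB.Defs

/-!
# MDB Split: division of `U` according to the denominator and the size of `T`

Proof.  `K` = image of `U` under `i ↦ (⌊T i/Z⌋, D i)`.  If `D i = D i'` and `|T i - T i'| ≤ Z`, let (by symmetry) `T i ≤ T i'`, `m = ⌊T i/Z⌋`: `m Z ≤ T i ≤ T i' ≤ T i + Z < (m + 2) Z`.
Sum: every `i ∈ U` belongs to `Uk k` only for `k.2 = D i` and `k.1 Z ≤ T i < (k.1 + 2) Z`, i.e. `k.1 ∈ {⌊T i/Z⌋, ⌊T i/Z⌋ - 1}`: for at most two `k` (swap the sums, `Finset.sum_comm`, `card_filter`).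
-/

set_option autoImplicit false

namespace Pool.Agent.H53.MDB

open Finset

private theorem Split_floor (Z t : ℝ) (hZ : 0 < Z) : (⌊t / Z⌋ : ℝ) * Z ≤ t ∧ t < ((⌊t / Z⌋ : ℝ) + 1) * Z := by
  constructor
  · have h := Int.floor_le (t / Z)
    rwa [le_div_iff₀ hZ] at h
  · have h := Int.lt_floor_add_one (t / Z)
    rwa [div_lt_iff₀ hZ] at h

open Classical in
private theorem Split_two (Z : ℝ) (hZ : 0 < Z) (K : Finset (ℤ × ℕ)) (t : ℝ) (D : ℕ) :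
    (K.filter (fun k => D = k.2 ∧ (k.1 : ℝ) * Z ≤ t ∧ t < ((k.1 : ℝ) + 2) * Z)).card ≤ 2 := by
  have hsub : K.filter (fun k => D = k.2 ∧ (k.1 : ℝ) * Z ≤ t ∧ t < ((k.1 : ℝ) + 2) * Z) ⊆
      {(⌊t / Z⌋, D), (⌊t / Z⌋ - 1, D)} := by
    rintro ⟨m, d⟩ hk
    rw [Finset.mem_filter] at hk
    obtain ⟨-, h1, h2, h3⟩ := hk
    simp only at h1 h2 h3
    obtain ⟨f1, f2⟩ := Split_floor Z t hZ
    have a1 : (m : ℝ) < (⌊t / Z⌋ : ℝ) + 1 := lt_of_mul_lt_mul_right (lt_of_le_of_lt h2 f2) hZ.le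
    have a2 : (⌊t / Z⌋ : ℝ) < (m : ℝ) + 2 := lt_of_mul_lt_mul_right (lt_of_le_of_lt f1 h3) hZ.le
    have b1 : m < ⌊t / Z⌋ + 1 := by exact_mod_cast a1
    have b2 : ⌊t / Z⌋ < m + 2 := by exact_mod_cast a2
    simp only [Finset.mem_insert, Finset.mem_singleton, Prod.mk.injEq]
    subst h1
    rcases (by omega : m = ⌊t / Z⌋ ∨ m = ⌊t / Z⌋ - 1) with h | h
    · exact Or.inl ⟨h, rfl⟩
    · exact Or.inr ⟨h, rfl⟩
  exact (Finset.card_le_card hsub).trans Finset.card_le_two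

open Classical in
theorem split (Z : ℝ) (hZ : 0 < Z) (U : Finset ℕ) (D : ℕ → ℕ) (T : ℕ → ℝ) : ∃ K : Finset (ℤ × ℕ),
    (∀ k ∈ K, ∃ i ∈ U, D i = k.2) ∧
    ∑ k ∈ K, ((U.filter (fun i => D i = k.2 ∧ k.1 * Z ≤ T i ∧ T i < (k.1 + 2) * Z)).card : ℝ) ≤ 2 * U.card ∧
    ∀ i ∈ U, ∀ i' ∈ U, D i = D i' → |T i - T i'| ≤ Z → ∃ k ∈ K, D i = k.2 ∧ k.1 * Z ≤ T i ∧ T i < (k.1 + 2) * Z ∧
      k.1 * Z ≤ T i' ∧ T i' < (k.1 + 2) * Z := by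
  refine ⟨U.image (fun i => (⌊T i / Z⌋, D i)), ?_, ?_, ?_⟩
  · intro k hk
    rw [Finset.mem_image] at hk
    obtain ⟨i, hi, rfl⟩ := hk
    exact ⟨i, hi, rfl⟩
  · generalize hK : U.image (fun i => (⌊T i / Z⌋, D i)) = K
    have h1 : ∑ k ∈ K, (U.filter (fun i => D i = k.2 ∧ (k.1 : ℝ) * Z ≤ T i ∧ T i < ((k.1 : ℝ) + 2) * Z)).card =
        ∑ i ∈ U, (K.filter (fun k => D i = k.2 ∧ (k.1 : ℝ) * Z ≤ T i ∧ T i < ((k.1 : ℝ) + 2) * Z)).card := by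
      simp only [Finset.card_filter]
      exact Finset.sum_comm
    have h2 : ∑ i ∈ U, (K.filter (fun k => D i = k.2 ∧ (k.1 : ℝ) * Z ≤ T i ∧ T i < ((k.1 : ℝ) + 2) * Z)).card ≤
        ∑ _i ∈ U, 2 := Finset.sum_le_sum (fun i _ => Split_two Z hZ K (T i) (D i))
    rw [Finset.sum_const, smul_eq_mul] at h2
    have h3 : ∑ k ∈ K, (U.filter (fun i => D i = k.2 ∧ (k.1 : ℝ) * Z ≤ T i ∧ T i < ((k.1 : ℝ) + 2) * Z)).card ≤
        2 * U.card := by rw [h1]; linarith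
    have h4 : ((∑ k ∈ K, (U.filter (fun i => D i = k.2 ∧ (k.1 : ℝ) * Z ≤ T i ∧ T i < ((k.1 : ℝ) + 2) * Z)).card : ℕ) : ℝ) ≤
        ((2 * U.card : ℕ) : ℝ) := by exact_mod_cast h3
    push_cast at h4
    exact h4
  · have key : ∀ i ∈ U, ∀ i' ∈ U, D i = D i' → |T i - T i'| ≤ Z → T i ≤ T i' →
        ∃ k ∈ U.image (fun i => (⌊T i / Z⌋, D i)), D i = k.2 ∧ (k.1 : ℝ) * Z ≤ T i ∧ T i < ((k.1 : ℝ) + 2) * Z ∧
      (k.1 : ℝ) * Z ≤ T i' ∧ T i' < ((k.1 : ℝ) + 2) * Z := by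
      intro i hi i' hi' hD hT hle
      obtain ⟨f1, f2⟩ := Split_floor Z (T i) hZ
      have hab := abs_le.mp hT
      refine ⟨(⌊T i / Z⌋, D i), Finset.mem_image_of_mem _ hi, rfl, f1, ?_, f1.trans hle, ?_⟩
      · simp only
        nlinarith
      · simp only
        nlinarith
    intro i hi i' hi' hD hT
    rcases le_total (T i) (T i') with h | h
    · exact key i hi i' hi' hD hT h
    · obtain ⟨k, hk, e1, e2, e3, e4, e5⟩ := key i' hi' i hi hD.symm (by rwa [abs_sub_comm]) h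
      exact ⟨k, hk, hD.trans e1, e4, e5, e2, e3⟩

end Pool.Agent.H53.MDB
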