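import Pool.Agent.H53.MDB.Cover
import Pool.Agent.H53.MDB.Pairs
import Pool.Agent.H53.MDB.Far
import Pool.Agent.H53.MDB.Split
import Pool.Agent.H53.MDB.BoostL

/-!
# MDB BoostF: the combinatorial theorem with the boost

Proof.  Given `C, C0`.  `L = log N`, `Q = exp(L^t2)`; for large `N`: `200 C^10 ≤ Q ≤ P` (`t2 < t`), `8 Q^6 ≤ N^(1/4) ≤ n` (`t2 < 1`), `L ≥ 100 C^3`, `24 C^2 L^(2 C0) · 2 ≤ Q^3`.
(1) `cover`: `r, U, s, d, b, T`, `Cov C n Q η α r U s d b T`; `R1 = R0.filter (t.1 ∈ U)`, `|R1| ≥ n P/(2 L^C0)`, `Rel C n P (η P) U G0 α β R1` (`rngF` from `U ⊆ F0`).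
(2) `pairs`: the set `A` of the `q ∈ QS C P U` with `nz (p α_i - p' α_i') ≤ 2 η P` has `≥ |R1|^2/(C n (2C+1)) ≥ n P^2/(12 C^2 L^(2 C0))` elements (`2C+1 ≤ 3C`).
(3) `far`: the `q ∈ A` with `|T (s i) - T (s i')| > Z := Q^12 η n` are `≤ n P^2/Q^3 ≤ n P^2/(24 C^2 L^(2C0))`.  So the near ones (`≤ Z`) are `≥ n P^2/(24 C^2 L^(2C0))`.
(4) `near`: for a near `q`: `d (s i) = d (s i')`, `p b (s i) ≡ p' b (s i') mod d (s i)`.  `split Z U (fun i => d (s i)) (fun i => T (s i))`: `K`; with `U_k = U.filter (...)`: every near `q` is in `NB C P U_k k.2 bb` for some `k ∈ K`, `bb i = b (s i)`.  So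
`∑_{k ∈ K} |NB_k| ≥ n P^2/(24 C^2 L^(2 C0))`, `∑_k |U_k| ≤ 2 |U| ≤ 2 C n`.
(5) `boostl` with `A1 = 2 C0 + 1` (for `k ∈ K`: `δ = k.2 = d (s i)` for some `i ∈ U`, so `1 ≤ δ ≤ Q`; for `i ∈ U_k`: `b (s i)` is prime to `d (s i) = δ`): `∑_k |U_k|/L^(2C0+1) ≤ 2 C n/L^(2C0+1) ≤ n/(48 C^2 L^(2C0))`, so
`∑_k L^T1 |U_k|^2/(n δ_k) ≥ n/(48 C^2 L^(2 C0))`, and as `∑_k |U_k| ≤ 2 C n` some `k` has `L^T1 |U_k|/(n δ_k) ≥ 1/(96 C^3 L^(2 C0))`, i.e. `|U_k| ≥ δ_k n/L^(C1')`, `C1' = 2 C0 + T1 + 1`.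
(6) `δ := δ_k ≤ |U_k| L^C1'/n ≤ C L^C1' ≤ L^(C1'+1)`.  Pigeonhole: some `c < δ` is `bb i % δ` for `≥ |U_k|/δ ≥ n/L^C1'` elements `i ∈ U_k`: they form `F1`.  Answer: `d = δ`, `b = c`, `T = k.1 Z`, `C1 = C1' + 1`.
`F1` is nonempty; for `i ∈ F1`: `|T (s i) - T| ≤ 2 Z`, so `|T| ≤ Q η n^2 + 2 Q^12 η n ≤ Q^20 η n^2`; `α_i - c/δ - T/i = (α_i - b(s i)/δ - T(s i)/i) + (b (s i) - c)/δ + (T (s i) - T)/i`, the middle term is an integer,
`nz ≤ Q η + 2 Q^12 η n C/n ≤ Q^13 η`.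
-/

set_option autoImplicit false

namespace Pool.Agent.H53.MDB

open Finset
open Pool.Agent.H53.MID (nz Rel)
open Pool.Agent.H53.MIX (VKe CombX)

open Filter Asymptotics in
/-- large `N` -/
private theorem BoostF_large (t t2 : ℝ) (h2 : 0 < t2) (h2t : t2 < t) (ht : t < 1) (C : ℝ) (hC : 1 ≤ C) (C0 : ℕ) :
    ∃ N1 : ℕ, ∀ N : ℕ, N1 ≤ N → 192 * C ^ 3 ≤ Real.log N ∧ 200 * C ^ 10 ≤ Real.exp (Real.log N ^ t2) ∧
      24 * C ^ 2 * Real.log N ^ (2 * C0) ≤ Real.exp (Real.log N ^ t2) ^ 3 ∧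
      8 * Real.exp (Real.log N ^ t2) ^ 6 ≤ (N : ℝ) ^ (1 / 4 : ℝ) ∧
      Real.exp (Real.log N ^ t2) ≤ Real.exp (Real.log N ^ t) ∧ 1 ≤ N := by
  have hlog : Tendsto (fun N : ℕ => Real.log (N : ℝ)) atTop atTop :=
    Real.tendsto_log_atTop.comp tendsto_natCast_atTop_atTop
  have hpow : Tendsto (fun N : ℕ => Real.log (N : ℝ) ^ t2) atTop atTop := (tendsto_rpow_atTop h2).comp hlog
  have hexp : Tendsto (fun N : ℕ => Real.exp (Real.log (N : ℝ) ^ t2)) atTop atTop := Real.tendsto_exp_atTop.comp hpow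
  have hC2 : (0 : ℝ) < 1 / (24 * C ^ 2) := by positivity
  have h1 := hlog.eventually_ge_atTop (192 * C ^ 3)
  have h3 := hexp.eventually_ge_atTop (200 * C ^ 10)
  have h6 := hpow.eventually ((isLittleO_rpow_exp_atTop ((2 * C0 : ℕ) / t2 : ℝ)).bound hC2)
  have h7 : Tendsto (fun N : ℕ => Real.log (N : ℝ) ^ (1 - t2)) atTop atTop :=
    (tendsto_rpow_atTop (by linarith)).comp hlog
  have h8 := h7.eventually_ge_atTop 48
  obtain ⟨N1, hN1⟩ := eventually_atTop.1 (h1.and (h3.and (h6.and (h8.and (eventually_ge_atTop 1)))))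
  refine ⟨N1, fun N hN => ?_⟩
  obtain ⟨a1, a3, a6, a8, a9⟩ := hN1 N hN
  obtain ⟨L, hL⟩ : ∃ L, L = Real.log (N : ℝ) := ⟨_, rfl⟩
  rw [← hL] at a1 a3 a6 a8 ⊢
  have hC3 : (1 : ℝ) ≤ C ^ 3 := one_le_pow₀ hC
  have hL1 : (192 : ℝ) ≤ L := by linarith
  have hL0 : (0 : ℝ) < L := by linarith
  have hQ1 : (1 : ℝ) ≤ Real.exp (L ^ t2) := Real.one_le_exp (Real.rpow_nonneg hL0.le _)
  refine ⟨a1, a3, ?_, ?_, ?_, a9⟩
  · have e1 : (L ^ t2) ^ ((2 * C0 : ℕ) / t2 : ℝ) = L ^ (2 * C0) := by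
      rw [← Real.rpow_mul hL0.le, mul_div_cancel₀ _ h2.ne', Real.rpow_natCast]
    rw [e1, Real.norm_of_nonneg (pow_nonneg hL0.le _), Real.norm_of_nonneg (Real.exp_pos _).le] at a6
    have e2 : 24 * C ^ 2 * L ^ (2 * C0) ≤ Real.exp (L ^ t2) := by
      have e3 : (0 : ℝ) < 24 * C ^ 2 := by positivity
      calc 24 * C ^ 2 * L ^ (2 * C0) ≤ 24 * C ^ 2 * (1 / (24 * C ^ 2) * Real.exp (L ^ t2)) :=
            mul_le_mul_of_nonneg_left a6 e3.le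
        _ = Real.exp (L ^ t2) := by field_simp
    exact e2.trans (le_self_pow₀ hQ1 (by norm_num))
  · have e1 : (N : ℝ) ^ (1 / 4 : ℝ) = Real.exp (L / 8) * Real.exp (L / 8) := by
      have hN0 : (0 : ℝ) < N := by exact_mod_cast a9
      rw [Real.rpow_def_of_pos hN0, ← hL, ← Real.exp_add]
      congr 1
      ring
    have e2 : (8 : ℝ) ≤ Real.exp (L / 8) := by
      have := Real.add_one_le_exp (L / 8)
      linarith
    have e3 : L ^ t2 * 48 ≤ L := by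
      have e4 : L ^ t2 * L ^ (1 - t2) = L := by
        rw [← Real.rpow_add hL0]
        have : t2 + (1 - t2) = 1 := by ring
        rw [this, Real.rpow_one]
      calc L ^ t2 * 48 ≤ L ^ t2 * L ^ (1 - t2) := mul_le_mul_of_nonneg_left a8 (Real.rpow_nonneg hL0.le _)
        _ = L := e4
    have e5 : Real.exp (L ^ t2) ^ 6 ≤ Real.exp (L / 8) := by
      rw [← Real.exp_nat_mul]
      apply Real.exp_le_exp.2
      push_cast
      linarith
    rw [e1]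
    exact mul_le_mul e2 e5 (by positivity) (by positivity)
  · apply Real.exp_le_exp.2
    exact Real.rpow_le_rpow_of_exponent_le (by linarith) h2t.le

/-- selection of a class -/
private theorem BoostF_sel {ι : Type} (K : Finset ι) (u δ : ι → ℝ) (C n L : ℝ) (C0 T1 : ℕ) (hC : 1 ≤ C) (hn : 0 < n)
    (hL : 192 * C ^ 3 ≤ L) (hu : ∀ k ∈ K, 0 ≤ u k) (hδ : ∀ k ∈ K, 0 < δ k) (hs : ∑ k ∈ K, u k ≤ 2 * (C * n))
    (h : n / (24 * C ^ 2 * L ^ (2 * C0)) ≤ ∑ k ∈ K, (L ^ T1 * u k ^ 2 / (n * δ k) + u k / L ^ (2 * C0 + 1))) :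
    ∃ k ∈ K, n * δ k ≤ u k * L ^ (2 * C0 + T1 + 1) := by
  by_contra hcon
  push Not at hcon
  have hC3 : (1 : ℝ) ≤ C ^ 3 := one_le_pow₀ hC
  have hL0 : (0 : ℝ) < L := by linarith
  have h1 : ∀ k ∈ K, L ^ T1 * u k ^ 2 / (n * δ k) + u k / L ^ (2 * C0 + 1) ≤ 2 * u k / L ^ (2 * C0 + 1) := by
    intro k hk
    have h2 : 0 < n * δ k := mul_pos hn (hδ k hk)
    have h3 : L ^ T1 * u k ^ 2 / (n * δ k) ≤ u k / L ^ (2 * C0 + 1) := by
      rw [div_le_div_iff₀ h2 (pow_pos hL0 _)]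
      have h4 := mul_le_mul_of_nonneg_left (hcon k hk).le (hu k hk)
      calc L ^ T1 * u k ^ 2 * L ^ (2 * C0 + 1) = u k * (u k * L ^ (2 * C0 + T1 + 1)) := by ring
        _ ≤ u k * (n * δ k) := h4
    have h5 : 2 * u k / L ^ (2 * C0 + 1) = u k / L ^ (2 * C0 + 1) + u k / L ^ (2 * C0 + 1) := by ring
    rw [h5]
    exact add_le_add_left h3 _
  have h6 := h.trans (sum_le_sum h1)
  have h7 : ∑ k ∈ K, 2 * u k / L ^ (2 * C0 + 1) = 2 * (∑ k ∈ K, u k) / L ^ (2 * C0 + 1) := by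
    rw [mul_sum, sum_div]
  rw [h7] at h6
  have h8 : 2 * (∑ k ∈ K, u k) / L ^ (2 * C0 + 1) ≤ 4 * (C * n) / L ^ (2 * C0 + 1) := by
    apply div_le_div_of_nonneg_right _ (pow_nonneg hL0.le _)
    linarith
  have h9 := h6.trans h8
  have hLp : (0 : ℝ) < L ^ (2 * C0) := pow_pos hL0 _
  rw [div_le_div_iff₀ (by positivity) (by positivity), pow_succ L (2 * C0)] at h9
  have h10 : n * L ≤ n * (96 * C ^ 3) := by
    have h11 : (n * L) * L ^ (2 * C0) ≤ (n * (96 * C ^ 3)) * L ^ (2 * C0) := by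
      calc (n * L) * L ^ (2 * C0) = n * (L ^ (2 * C0) * L) := by ring
        _ ≤ 4 * (C * n) * (24 * C ^ 2 * L ^ (2 * C0)) := h9
        _ = (n * (96 * C ^ 3)) * L ^ (2 * C0) := by ring
    exact le_of_mul_le_mul_right h11 hLp
  have h12 := le_of_mul_le_mul_left h10 hn
  linarith

open Classical in
/-- many near quadruples -/
private theorem BoostF_near (C : ℝ) (hC : 1 ≤ C) (n P : ℕ) (Q η L : ℝ) (C0 : ℕ) (α β : ℕ → ℝ) (r : ℕ) (U G0 : Finset ℕ)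
    (R1 : Finset (ℕ × ℕ × ℕ)) (s d b : ℕ → ℕ) (T : ℕ → ℝ) (hc : Cov C n Q η α r U s d b T)
    (hR : Rel C n P (η * P) U G0 α β R1) (hn : 1 ≤ n) (hP : 1 ≤ P) (hQ : 200 * C ^ 10 ≤ Q) (hQn : 8 * Q ^ 6 ≤ n)
    (hη : 0 < η) (hηQ : η * Q ^ 60 * (P : ℝ) ^ 3 ≤ 1) (hL : 1 ≤ L) (hQL : 24 * C ^ 2 * L ^ (2 * C0) ≤ Q ^ 3)
    (hcard : n * P / L ^ C0 / 2 ≤ (R1.card : ℝ)) :
    (n : ℝ) * P ^ 2 / (24 * C ^ 2 * L ^ (2 * C0)) ≤ (((QS C P U).filter (fun q =>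
      nz (q.1.2 * α q.1.1 - q.2.2 * α q.2.1) ≤ 2 * η * P ∧ |T (s q.1.1) - T (s q.2.1)| ≤ Q ^ 12 * η * n)).card : ℝ) := by
  have hn0 : (0 : ℝ) < n := by exact_mod_cast hn
  have hP0 : (0 : ℝ) < P := by exact_mod_cast hP
  have hL0 : (0 : ℝ) < L := by linarith
  have hLc : (0 : ℝ) < L ^ C0 := pow_pos hL0 _
  have hp := pairs C hC n P η U G0 α β R1 hR hn hP
  have hf := far C hC n P Q η α r U s d b T hc hP hQ hQn hη hηQ
  set A := (QS C P U).filter (fun q => nz (q.1.2 * α q.1.1 - q.2.2 * α q.2.1) ≤ 2 * η * P) with hA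
  have hsplit : (A.card : ℝ) = (((QS C P U).filter (fun q =>
      nz (q.1.2 * α q.1.1 - q.2.2 * α q.2.1) ≤ 2 * η * P ∧ |T (s q.1.1) - T (s q.2.1)| ≤ Q ^ 12 * η * n)).card : ℝ) +
      (((QS C P U).filter (fun q => nz (q.1.2 * α q.1.1 - q.2.2 * α q.2.1) ≤ 2 * η * P ∧
      Q ^ 12 * η * n < |T (s q.1.1) - T (s q.2.1)|)).card : ℝ) := by
    have h1 := Finset.card_filter_add_card_filter_not (s := A)
      (fun q : (ℕ × ℕ) × (ℕ × ℕ) => |T (s q.1.1) - T (s q.2.1)| ≤ Q ^ 12 * η * n)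
    rw [hA, Finset.filter_filter, Finset.filter_filter] at h1
    simp only [not_le] at h1
    rw [hA, ← h1]
    push_cast
    rfl
  have hA1 : (n : ℝ) * P ^ 2 / (12 * C ^ 2 * L ^ (2 * C0)) ≤ A.card := by
    have h1 : ((n : ℝ) * P / L ^ C0 / 2) ^ 2 ≤ (R1.card : ℝ) ^ 2 :=
      pow_le_pow_left₀ (by positivity) hcard 2
    have h2 : C * n * (2 * C + 1) * (A.card : ℝ) ≤ C * n * (3 * C) * A.card := by
      apply mul_le_mul_of_nonneg_right _ (Nat.cast_nonneg _)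
      apply mul_le_mul_of_nonneg_left _ (by positivity)
      linarith
    have h3 := (h1.trans hp).trans h2
    have h4 : ((n : ℝ) * P / L ^ C0 / 2) ^ 2 = (3 * C ^ 2 * n) * (n * P ^ 2 / (12 * C ^ 2 * L ^ (2 * C0))) := by
      have h5 : L ^ (2 * C0) = (L ^ C0) ^ 2 := by rw [← pow_mul, mul_comm]
      rw [h5]
      have hC0 : C ≠ 0 := by positivity
      field_simp
      ring
    have h6 : C * n * (3 * C) * (A.card : ℝ) = (3 * C ^ 2 * n) * A.card := by ring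
    rw [h4, h6] at h3
    exact le_of_mul_le_mul_left h3 (by positivity)
  have hF : (n : ℝ) * P ^ 2 / Q ^ 3 ≤ n * P ^ 2 / (24 * C ^ 2 * L ^ (2 * C0)) := by
    apply div_le_div_of_nonneg_left (by positivity) (by positivity) hQL
  have hhalf : (n : ℝ) * P ^ 2 / (12 * C ^ 2 * L ^ (2 * C0)) =
      n * P ^ 2 / (24 * C ^ 2 * L ^ (2 * C0)) + n * P ^ 2 / (24 * C ^ 2 * L ^ (2 * C0)) := by
    have hC0 : C ≠ 0 := by positivity
    field_simp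
    norm_num
  have hf2 := hf.trans hF
  rw [hsplit, hhalf] at hA1
  linarith

theorem comb_x (t0 t t2 : ℝ) (h0 : 0 < t0) (h0t : t0 < t) (h2 : 0 < t2) (h2t : t2 < t) (ht : t < 1) (hV : VKe t0)
    (hW : CombWk t t2) : CombX t t2 := by
  intro C hC C0
  obtain ⟨Na, hNa⟩ := cover t t2 hW C hC C0
  obtain ⟨T1, Nb, hNb⟩ := boostl t0 t t2 h0 h0t h2 h2t ht hV C hC (2 * C0 + 1)
  obtain ⟨Nc, hNc⟩ := BoostF_large t t2 h2 h2t ht C hC C0
  refine ⟨2 * C0 + T1 + 2, max Na (max Nb Nc), fun N hN n P η F0 G0 α β R0 hP hPN hnN hn hη hηQ hR hcard => ?_⟩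
  classical
  obtain ⟨l1, l2, l3, l4, l5, l6⟩ := hNc N ((le_max_right _ _).trans ((le_max_right _ _).trans hN))
  have hNb' := hNb N ((le_max_left _ _).trans ((le_max_right _ _).trans hN))
  have hNa' := hNa N ((le_max_left _ _).trans hN)
  clear hNa hNb hNc
  obtain ⟨L, hL⟩ : ∃ L, L = Real.log (N : ℝ) := ⟨_, rfl⟩
  obtain ⟨Q, hQd⟩ : ∃ Q, Q = Real.exp (L ^ t2) := ⟨_, rfl⟩
  rw [← hL] at l1 l2 l3 l4 l5 hP hηQ hcard hNa' hNb' ⊢
  rw [← hQd] at l2 l3 l4 l5 hηQ hNa' hNb' ⊢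
  have hC3 : (1 : ℝ) ≤ C ^ 3 := one_le_pow₀ hC
  have hCC3 : C ≤ C ^ 3 := le_self_pow₀ hC (by norm_num)
  have hC10 : (1 : ℝ) ≤ C ^ 10 := one_le_pow₀ hC
  have hCC10 : C ≤ C ^ 10 := le_self_pow₀ hC (by norm_num)
  have hL1 : (1 : ℝ) ≤ L := by linarith
  have hL0 : (0 : ℝ) < L := by linarith
  have hQ1 : (1 : ℝ) ≤ Q := by linarith
  have hQ0 : (0 : ℝ) < Q := by linarith
  have hC0' : (0 : ℝ) < C := by linarith
  have hNn1 : (1 : ℝ) ≤ (N : ℝ) ^ (1 / 4 : ℝ) := by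
    have : (1 : ℝ) ≤ Q ^ 6 := one_le_pow₀ hQ1
    linarith
  have hn1 : 1 ≤ n := by
    have : (1 : ℝ) ≤ n := hNn1.trans hn
    exact_mod_cast this
  have hn0 : (0 : ℝ) < n := by exact_mod_cast hn1
  have hQP : Q ≤ P := l5.trans hP
  have hP1 : 1 ≤ P := by
    have : (1 : ℝ) ≤ P := hQ1.trans hQP
    exact_mod_cast this
  have hP0 : (0 : ℝ) < P := by exact_mod_cast hP1
  have hQn : 8 * Q ^ 6 ≤ n := l4.trans hn
  have hηQ1 : η * Q * (P : ℝ) ^ 3 ≤ 1 := by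
    refine le_trans ?_ hηQ
    apply mul_le_mul_of_nonneg_right _ (by positivity)
    exact mul_le_mul_of_nonneg_left (le_self_pow₀ hQ1 (by norm_num)) hη.le
  -- (1)
  obtain ⟨r, U, s, d, b, T, hUF, hcov, hR1c⟩ := hNa' n P η F0 G0 α β R0 hP hPN hn1 hnN hη hηQ1 hR hcard
  have hRel1 : Rel C n P (η * P) U G0 α β (R0.filter (fun x => x.1 ∈ U)) :=
    { memF := fun x hx => (Finset.mem_filter.1 hx).2
      memF' := fun x hx => hR.memF' x (Finset.mem_filter.1 hx).1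
      prime := fun x hx => hR.prime x (Finset.mem_filter.1 hx).1
      pos := fun x hx => hR.pos x (Finset.mem_filter.1 hx).1
      freq := fun x hx => hR.freq x (Finset.mem_filter.1 hx).1
      rngF := fun K hK => hR.rngF K (hUF hK)
      rngF' := hR.rngF' }
  have hcard1 : (n : ℝ) * P / L ^ C0 / 2 ≤ ((R0.filter (fun x => x.1 ∈ U)).card : ℝ) := by
    refine le_trans ?_ hR1c
    linarith
  -- (2), (3)
  have hnear := BoostF_near C hC n P Q η L C0 α β r U G0 _ s d b T hcov hRel1 hn1 hP1 l2 hQn hη hηQ hL1 l3 hcard1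
  -- (4)
  have hZ : 0 < Q ^ 12 * η * n := by positivity
  obtain ⟨Z, hZd⟩ : ∃ Z, Z = Q ^ 12 * η * n := ⟨_, rfl⟩
  rw [← hZd] at hnear hZ
  obtain ⟨K, hK1, hK2, hK3⟩ := split Z hZ U (fun i => d (s i)) (fun i => T (s i))
  let Uk : ℤ × ℕ → Finset ℕ := fun k =>
    U.filter (fun i => d (s i) = k.2 ∧ k.1 * Z ≤ T (s i) ∧ T (s i) < (k.1 + 2) * Z)
  have hUk : ∀ k i, i ∈ Uk k ↔ i ∈ U ∧ d (s i) = k.2 ∧ k.1 * Z ≤ T (s i) ∧ T (s i) < (k.1 + 2) * Z := by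
    intro k i
    exact Finset.mem_filter
  have hsub : (QS C P U).filter (fun q =>
      nz (q.1.2 * α q.1.1 - q.2.2 * α q.2.1) ≤ 2 * η * P ∧ |T (s q.1.1) - T (s q.2.1)| ≤ Z) ⊆
      K.biUnion (fun k => NB C P (Uk k) k.2 (fun i => b (s i))) := by
    intro q hq
    rw [Finset.mem_filter] at hq
    obtain ⟨hq1, hq2, hq3⟩ := hq
    have hnr := near C hC n P Q η α r U s d b T hcov hn1 hP1 l2 hQP hη.le hηQ q hq1 hq2 (hZd ▸ hq3)
    rw [mem_QS] at hq1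
    obtain ⟨m1, m2, m3, m4, m5, m6, m7, m8, m9⟩ := hq1
    obtain ⟨k, hk, k1, k2, k3, k4, k5⟩ := hK3 _ m1 _ m5 hnr.1 hq3
    rw [Finset.mem_biUnion]
    refine ⟨k, hk, ?_⟩
    rw [mem_NB, mem_QS, hUk, hUk]
    refine ⟨⟨⟨m1, k1, k2, k3⟩, m2, m3, m4, ⟨m5, ?_, k4, k5⟩, m6, m7, m8, m9⟩, ?_⟩
    · rw [← hnr.1]
      exact k1
    · have := hnr.2
      rw [k1] at this
      exact this
  have hcardsum : (n : ℝ) * P ^ 2 / (24 * C ^ 2 * L ^ (2 * C0)) ≤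
      ∑ k ∈ K, ((NB C P (Uk k) k.2 (fun i => b (s i))).card : ℝ) := by
    refine hnear.trans ?_
    have h1 := (Finset.card_le_card hsub).trans Finset.card_biUnion_le
    exact_mod_cast h1
  -- (5)
  have hδ1 : ∀ k ∈ K, 1 ≤ k.2 ∧ (k.2 : ℝ) ≤ Q := by
    intro k hk
    obtain ⟨i, hi, hi2⟩ := hK1 k hk
    have h1 := hcov.dat (s i) (hcov.lab i hi)
    rw [← hi2]
    exact ⟨h1.1, h1.2.1⟩
  have hboost : ∀ k ∈ K, ((NB C P (Uk k) k.2 (fun i => b (s i))).card : ℝ) ≤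
      P ^ 2 * (L ^ T1 * (Uk k).card ^ 2 / (n * k.2) + (Uk k).card / L ^ (2 * C0 + 1)) := by
    intro k hk
    refine hNb' n P k.2 (Uk k) (fun i => b (s i)) hP hPN hn hnN (hδ1 k hk).1 (hδ1 k hk).2 fun i hi => ?_
    rw [hUk] at hi
    have h1 := hcov.dat (s i) (hcov.lab i hi.1)
    refine ⟨(hcov.rng i hi.1).1, (hcov.rng i hi.1).2, ?_⟩
    rw [← hi.2.1]
    exact h1.2.2.1
  have hsel : (n : ℝ) / (24 * C ^ 2 * L ^ (2 * C0)) ≤
      ∑ k ∈ K, (L ^ T1 * ((Uk k).card : ℝ) ^ 2 / (n * k.2) + (Uk k).card / L ^ (2 * C0 + 1)) := by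
    have h1 := hcardsum.trans (sum_le_sum hboost)
    rw [← mul_sum] at h1
    have h2 : (n : ℝ) * P ^ 2 / (24 * C ^ 2 * L ^ (2 * C0)) = P ^ 2 * (n / (24 * C ^ 2 * L ^ (2 * C0))) := by ring
    rw [h2] at h1
    exact le_of_mul_le_mul_left h1 (by positivity)
  have hUcard : (U.card : ℝ) ≤ C * n := by
    have h1 : U ⊆ Finset.Icc 1 ⌊C * n⌋₊ := by
      intro i hi
      have h2 := hcov.rng i hi
      rw [Finset.mem_Icc]
      constructor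
      · have : (0 : ℝ) < i := lt_of_lt_of_le (by positivity) h2.1
        exact_mod_cast this
      · exact Nat.le_floor h2.2
    have h3 := Finset.card_le_card h1
    rw [Nat.card_Icc, Nat.add_sub_cancel] at h3
    have h4 : (U.card : ℝ) ≤ ⌊C * n⌋₊ := by exact_mod_cast h3
    exact h4.trans (Nat.floor_le (by positivity))
  obtain ⟨k, hkK, hk⟩ := BoostF_sel K (fun k => ((Uk k).card : ℝ)) (fun k => (k.2 : ℝ)) C n L C0 T1 hC hn0 l1
    (fun k _ => Nat.cast_nonneg _) (fun k hk => by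
      have := (hδ1 k hk).1
      exact_mod_cast this) (by
      refine hK2.trans ?_
      linarith) hsel
  -- (6)
  have hδk := hδ1 k hkK
  have hδ0 : (0 : ℝ) < k.2 := by exact_mod_cast hδk.1
  have hUkU : Uk k ⊆ U := Finset.filter_subset _ _
  have hUkc : ((Uk k).card : ℝ) ≤ C * n := by
    have : ((Uk k).card : ℝ) ≤ U.card := by exact_mod_cast Finset.card_le_card hUkU
    exact this.trans hUcard
  have hCL : C ≤ L := by linarith
  have hLe : (0 : ℝ) < L ^ (2 * C0 + T1 + 1) := pow_pos hL0 _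
  have hLe1 : L ^ (2 * C0 + T1 + 1) ≤ L ^ (2 * C0 + T1 + 2) := pow_le_pow_right₀ hL1 (by omega)
  have hδL : (k.2 : ℝ) ≤ L ^ (2 * C0 + T1 + 2) := by
    have h1 : (n : ℝ) * k.2 ≤ n * (C * L ^ (2 * C0 + T1 + 1)) := by
      refine hk.trans ?_
      calc ((Uk k).card : ℝ) * L ^ (2 * C0 + T1 + 1) ≤ C * n * L ^ (2 * C0 + T1 + 1) :=
            mul_le_mul_of_nonneg_right hUkc hLe.le
        _ = n * (C * L ^ (2 * C0 + T1 + 1)) := by ring
    have h2 := le_of_mul_le_mul_left h1 hn0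
    refine h2.trans ?_
    calc C * L ^ (2 * C0 + T1 + 1) ≤ L * L ^ (2 * C0 + T1 + 1) := mul_le_mul_of_nonneg_right hCL hLe.le
      _ = L ^ (2 * C0 + T1 + 2) := by ring
  obtain ⟨c, hc1, hc2⟩ := Finset.exists_le_card_fiber_of_nsmul_le_card_of_maps_to
    (s := Uk k) (t := range k.2) (f := fun i => b (s i) % k.2) (b := (n : ℝ) / L ^ (2 * C0 + T1 + 1))
    (fun i _ => Finset.mem_range.2 (Nat.mod_lt _ hδk.1)) ⟨0, Finset.mem_range.2 hδk.1⟩ (by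
      rw [Finset.card_range, nsmul_eq_mul, mul_div_assoc', div_le_iff₀ hLe]
      calc (k.2 : ℝ) * n = n * k.2 := by ring
        _ ≤ (Uk k).card * L ^ (2 * C0 + T1 + 1) := hk)
  have hF1m : ∀ i ∈ (Uk k).filter (fun i => b (s i) % k.2 = c),
      i ∈ U ∧ d (s i) = k.2 ∧ |T (s i) - k.1 * Z| ≤ 2 * Z ∧ b (s i) % k.2 = c := by
    intro i hi
    rw [Finset.mem_filter, hUk] at hi
    obtain ⟨⟨i1, i2, i3, i4⟩, i5⟩ := hi
    refine ⟨i1, i2, ?_, i5⟩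
    rw [abs_le]
    constructor
    · linarith
    · linarith
  refine ⟨k.2, c, k.1 * Z, (Uk k).filter (fun i => b (s i) % k.2 = c), hδk.1, hδL, ?_, ?_, ?_, ?_⟩
  · -- the bound of `T`
    have hne : ((Uk k).filter (fun i => b (s i) % k.2 = c)).Nonempty := by
      rw [← Finset.card_pos]
      have : (0 : ℝ) < (((Uk k).filter (fun i => b (s i) % k.2 = c)).card : ℝ) := lt_of_lt_of_le (by positivity) hc2
      exact_mod_cast this
    obtain ⟨i, hi⟩ := hne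
    obtain ⟨i1, i2, i3, i4⟩ := hF1m i hi
    have h1 := (hcov.dat (s i) (hcov.lab i i1)).2.2.2
    have h2 : |(k.1 : ℝ) * Z| ≤ |T (s i)| + |T (s i) - k.1 * Z| := by
      have h3 : (k.1 : ℝ) * Z = T (s i) - (T (s i) - k.1 * Z) := by ring
      calc |(k.1 : ℝ) * Z| = |T (s i) - (T (s i) - k.1 * Z)| := by rw [← h3]
        _ ≤ |T (s i)| + |T (s i) - k.1 * Z| := abs_sub _ _
    have hn2 : (n : ℝ) ≤ (n : ℝ) ^ 2 := le_self_pow₀ (by exact_mod_cast hn1) (by norm_num)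
    have h4 : 2 * Z ≤ 2 * Q ^ 12 * η * (n : ℝ) ^ 2 := by
      rw [hZd]
      calc 2 * (Q ^ 12 * η * n) = 2 * Q ^ 12 * η * n := by ring
        _ ≤ 2 * Q ^ 12 * η * (n : ℝ) ^ 2 := mul_le_mul_of_nonneg_left hn2 (by positivity)
    have h5 : Q + 2 * Q ^ 12 ≤ Q ^ 20 := by
      have h6 : Q ≤ Q ^ 12 := le_self_pow₀ hQ1 (by norm_num)
      have h7 : Q ^ 12 * 3 ≤ Q ^ 12 * Q ^ 8 := by
        apply mul_le_mul_of_nonneg_left _ (by positivity)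
        have : Q ≤ Q ^ 8 := le_self_pow₀ hQ1 (by norm_num)
        linarith
      calc Q + 2 * Q ^ 12 ≤ Q ^ 12 * 3 := by linarith
        _ ≤ Q ^ 12 * Q ^ 8 := h7
        _ = Q ^ 20 := by ring
    calc |(k.1 : ℝ) * Z| ≤ Q * η * (n : ℝ) ^ 2 + 2 * Q ^ 12 * η * (n : ℝ) ^ 2 := by linarith
      _ = (Q + 2 * Q ^ 12) * (η * (n : ℝ) ^ 2) := by ring
      _ ≤ Q ^ 20 * (η * (n : ℝ) ^ 2) := mul_le_mul_of_nonneg_right h5 (by positivity)
      _ = Q ^ 20 * η * (n : ℝ) ^ 2 := by ring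
  · exact (Finset.filter_subset _ _).trans (hUkU.trans hUF)
  · refine le_trans ?_ hc2
    exact div_le_div_of_nonneg_left hn0.le hLe hLe1
  · intro i hi
    obtain ⟨i1, i2, i3, i4⟩ := hF1m i hi
    have hfr := hcov.frq i i1
    rw [i2] at hfr
    have hir := (hcov.rng i i1).1
    have hi0 : (0 : ℝ) < i := lt_of_lt_of_le (by positivity) hir
    obtain ⟨m, hdm⟩ : ∃ m : ℕ, (b (s i) : ℝ) = k.2 * (m : ℝ) + c := by
      have := Nat.div_add_mod (b (s i)) k.2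
      rw [i4] at this
      exact ⟨b (s i) / k.2, by exact_mod_cast this.symm⟩
    have h1 : α i - (c : ℝ) / k.2 - k.1 * Z / i = (α i - b (s i) / k.2 - T (s i) / i + (T (s i) - k.1 * Z) / i) +
        ((m : ℤ) : ℝ) := by
      have h2 : (b (s i) : ℝ) / k.2 = (m : ℝ) + c / k.2 := by
        rw [hdm]
        field_simp
      rw [h2, sub_div]
      push_cast
      ring
    rw [h1, Pool.Agent.H53.MID.nz_add_int]
    refine (Pool.Agent.H53.MID.nz_add _ _).trans ?_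
    have h3 : nz ((T (s i) - k.1 * Z) / i) ≤ 2 * C * Q ^ 12 * η := by
      refine (Pool.Agent.H53.MID.nz_le_abs _).trans ?_
      rw [abs_div, abs_of_pos hi0, div_le_iff₀ hi0]
      refine i3.trans ?_
      rw [hZd]
      rw [div_le_iff₀ hC0'] at hir
      calc 2 * (Q ^ 12 * η * n) = 2 * Q ^ 12 * η * n := by ring
        _ ≤ 2 * Q ^ 12 * η * (i * C) := mul_le_mul_of_nonneg_left hir (by positivity)
        _ = 2 * C * Q ^ 12 * η * i := by ring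
    have h4 : Q + 2 * C * Q ^ 12 ≤ Q ^ 13 := by
      have h6 : Q ≤ Q ^ 12 := le_self_pow₀ hQ1 (by norm_num)
      calc Q + 2 * C * Q ^ 12 ≤ Q ^ 12 + 2 * C * Q ^ 12 := by linarith
        _ = Q ^ 12 * (1 + 2 * C) := by ring
        _ ≤ Q ^ 12 * Q := mul_le_mul_of_nonneg_left (by linarith) (by positivity)
        _ = Q ^ 13 := by ring
    calc nz (α i - b (s i) / k.2 - T (s i) / i) + nz ((T (s i) - k.1 * Z) / i)
        ≤ Q * η + 2 * C * Q ^ 12 * η := add_le_add hfr h3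
      _ = (Q + 2 * C * Q ^ 12) * η := by ring
      _ ≤ Q ^ 13 * η := mul_le_mul_of_nonneg_right h4 hη.le

end Pool.Agent.H53.MDB
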