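import Pool.Agent.H53.MDB.Defs

/-!
# MDB Cover: greedy cover by classes with a rational approximation

Proof.  `N0`: such that `hW C (C0 + 1)` applies, and `L = log N ≥ 2`.  Call `(r, U, s, d, b, T)` admissible if `U ⊆ F0`, all `i ∈ U` satisfy `s i < r`, the data of `j < r` are as in `Cov.dat`, `frq` holds, and
`r n ≤ Q |U|` (every class has at least `n/Q` elements).  The empty system is admissible (`r = 0`, `U = ∅`).  For an admissible system `|U| ≤ |F0| ≤ C n` (`F0 ⊆ [n/C, C n]`, natural numbers `≥ 1`), so `r ≤ C Q`.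
Take an admissible system with `r` maximal (`r ≤ C Q`: `Nat.findGreatest`, or strong induction on `|F0 \ U|`).  If `|R0.filter (t.1 ∈ U)| < |R0|/2` then `R0' := R0.filter (t.1 ∉ U)` has `|R0'| > |R0|/2 ≥ n P/(2 L^C0) ≥ n P/L^(C0+1)`
and `Rel C n P (η P) (F0 \ U) G0 α β R0'`, so `hW C (C0+1)` gives `d, b, T, F1 ⊆ F0 \ U` with `n ≤ Q |F1|`: put `U' = U ∪ F1` (disjoint), `r' = r + 1`, `s' = r` on `F1` (`s` elsewhere), `d' r = d`, ... (`Function.update` or `if`):
admissible with `r + 1`, a contradiction.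
-/

set_option autoImplicit false

namespace Pool.Agent.H53.MDB

open Finset
open Pool.Agent.H53.MID (nz Rel)

private theorem Cover_log {N : ℕ} (h : 8 ≤ N) : 2 ≤ Real.log N := by
  have h1 : (8 : ℝ) ≤ N := by exact_mod_cast h
  rw [Real.le_log_iff_exp_le (by linarith)]
  have h2 := Real.exp_one_lt_d9
  have h3 : Real.exp 2 = Real.exp 1 * Real.exp 1 := by
    rw [← Real.exp_add]
    norm_num
  have h4 := Real.exp_pos 1
  rw [h3]
  nlinarith

/-- admissible systems -/
private def Cover_Adm (n : ℕ) (Q η : ℝ) (F0 : Finset ℕ) (α : ℕ → ℝ) (r : ℕ) (U : Finset ℕ) (s d b : ℕ → ℕ) (T : ℕ → ℝ) : Prop :=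
  U ⊆ F0 ∧ (r : ℝ) * n ≤ Q * U.card ∧ (∀ i ∈ U, s i < r) ∧
    (∀ j < r, 1 ≤ d j ∧ (d j : ℝ) ≤ Q ∧ Nat.Coprime (b j) (d j) ∧ |T j| ≤ Q * η * (n : ℝ) ^ 2) ∧
    (∀ i ∈ U, nz (α i - b (s i) / d (s i) - T (s i) / i) ≤ Q * η)

private theorem Cover_card {C : ℝ} (hC : 1 ≤ C) {n : ℕ} (hn : 1 ≤ n) {U : Finset ℕ}
    (h : ∀ K ∈ U, (n : ℝ) / C ≤ K ∧ (K : ℝ) ≤ C * n) : (U.card : ℝ) ≤ C * n := by
  have hn' : (0 : ℝ) < n := by exact_mod_cast hn
  have h1 : U ⊆ Icc 1 ⌊C * n⌋₊ := by
    intro K hK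
    obtain ⟨h2, h3⟩ := h K hK
    rw [mem_Icc]
    refine ⟨?_, Nat.le_floor h3⟩
    by_contra h0
    have h4 : K = 0 := by omega
    rw [h4, Nat.cast_zero] at h2
    have h5 : (0 : ℝ) < n / C := div_pos hn' (by linarith)
    linarith
  have h2 := card_le_card h1
  rw [Nat.card_Icc, Nat.add_sub_cancel] at h2
  have h3 : (U.card : ℝ) ≤ (⌊C * n⌋₊ : ℝ) := by exact_mod_cast h2
  exact h3.trans (Nat.floor_le (by positivity))

private theorem Cover_le {C : ℝ} (hC : 1 ≤ C) {n : ℕ} (hn : 1 ≤ n) {Q η : ℝ} (hQ : 0 < Q) {F0 : Finset ℕ} {α : ℕ → ℝ}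
    (hF : ∀ K ∈ F0, (n : ℝ) / C ≤ K ∧ (K : ℝ) ≤ C * n) {r : ℕ} {U : Finset ℕ} {s d b : ℕ → ℕ} {T : ℕ → ℝ}
    (h : Cover_Adm n Q η F0 α r U s d b T) : (r : ℝ) ≤ C * Q := by
  have hn' : (0 : ℝ) < n := by exact_mod_cast hn
  have h1 := Cover_card hC hn (U := U) (fun K hK => hF K (h.1 hK))
  have h2 := h.2.1
  have h3 : (r : ℝ) * n ≤ (C * Q) * n := by
    refine h2.trans ?_
    have h4 := mul_le_mul_of_nonneg_left h1 hQ.le
    linarith
  exact le_of_mul_le_mul_right h3 hn'

open Classical in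
theorem cover (t t2 : ℝ) (hW : CombWk t t2) (C : ℝ) (hC : 1 ≤ C) (C0 : ℕ) : ∃ N0 : ℕ, ∀ N : ℕ, N0 ≤ N →
    ∀ (n P : ℕ) (η : ℝ) (F0 G0 : Finset ℕ) (α β : ℕ → ℝ) (R0 : Finset (ℕ × ℕ × ℕ)),
    Real.exp (Real.log N ^ t) ≤ P → P ≤ N → 1 ≤ n → n ≤ N → 0 < η → η * Real.exp (Real.log N ^ t2) * (P : ℝ) ^ 3 ≤ 1 →
    Rel C n P (η * P) F0 G0 α β R0 → n * P / Real.log N ^ C0 ≤ (R0.card : ℝ) →
    ∃ (r : ℕ) (U : Finset ℕ) (s d b : ℕ → ℕ) (T : ℕ → ℝ), U ⊆ F0 ∧
      Cov C n (Real.exp (Real.log N ^ t2)) η α r U s d b T ∧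
      (R0.card : ℝ) / 2 ≤ (R0.filter (fun x => x.1 ∈ U)).card := by
  obtain ⟨N1, hN1⟩ := hW C hC (C0 + 1)
  refine ⟨max N1 8, fun N hN n P η F0 G0 α β R0 hP hPN hn hnN hη hηP hRel hR0 => ?_⟩
  have hN1' : N1 ≤ N := (le_max_left _ _).trans hN
  have hL : 2 ≤ Real.log N := Cover_log ((le_max_right _ _).trans hN)
  have hQ : 0 < Real.exp (Real.log N ^ t2) := Real.exp_pos _
  by_contra hcon
  have hall : ∀ r : ℕ, ∃ (U : Finset ℕ) (s d b : ℕ → ℕ) (T : ℕ → ℝ),
      Cover_Adm n (Real.exp (Real.log N ^ t2)) η F0 α r U s d b T := by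
    intro r
    induction r with
    | zero =>
      refine ⟨∅, fun _ => 0, fun _ => 0, fun _ => 0, fun _ => 0, empty_subset _, ?_, ?_, ?_, ?_⟩
      · simp
      · intro i hi
        exact absurd hi (notMem_empty i)
      · intro j hj
        exact absurd hj (Nat.not_lt_zero j)
      · intro i hi
        exact absurd hi (notMem_empty i)
    | succ r ih =>
      obtain ⟨U, s, d, b, T, hA⟩ := ih
      have hrQ := Cover_le hC hn hQ hRel.rngF hA
      obtain ⟨hU, hcard, hs, hdat, hfrq⟩ := hA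
      have hhalf : ((R0.filter (fun x => x.1 ∈ U)).card : ℝ) < (R0.card : ℝ) / 2 := by
        by_contra hge
        exact hcon ⟨r, U, s, d, b, T, hU, ⟨hrQ, fun i hi => hRel.rngF i (hU hi), hs, hdat, hfrq⟩, not_lt.1 hge⟩
      have hsplit : (R0.filter (fun x => x.1 ∈ U)).card + (R0.filter (fun x => ¬ x.1 ∈ U)).card = R0.card :=
        card_filter_add_card_filter_not (s := R0) (fun x => x.1 ∈ U)
      have hsplit' : ((R0.filter (fun x => x.1 ∈ U)).card : ℝ) + ((R0.filter (fun x => ¬ x.1 ∈ U)).card : ℝ) = R0.card := by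
        exact_mod_cast hsplit
      have hRel' : Rel C n P (η * P) (F0 \ U) G0 α β (R0.filter (fun x => ¬ x.1 ∈ U)) := by
        refine ⟨?_, ?_, ?_, ?_, ?_, ?_, hRel.rngF'⟩
        · intro x hx
          rw [mem_filter] at hx
          exact mem_sdiff.2 ⟨hRel.memF x hx.1, hx.2⟩
        · intro x hx
          exact hRel.memF' x (mem_filter.1 hx).1
        · intro x hx
          exact hRel.prime x (mem_filter.1 hx).1
        · intro x hx
          exact hRel.pos x (mem_filter.1 hx).1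
        · intro x hx
          exact hRel.freq x (mem_filter.1 hx).1
        · intro K hK
          exact hRel.rngF K (mem_sdiff.1 hK).1
      have hbig : (n : ℝ) * P / Real.log N ^ (C0 + 1) ≤ ((R0.filter (fun x => ¬ x.1 ∈ U)).card : ℝ) := by
        have h1 : (n : ℝ) * P / Real.log N ^ (C0 + 1) ≤ (n * P / Real.log N ^ C0) / 2 := by
          rw [pow_succ, ← div_div]
          apply div_le_div_of_nonneg_left _ (by norm_num) hL
          positivity
        linarith
      obtain ⟨d0, b0, T0, F1, hd1, hdQ, hbd, hT0, hF1, hnF1, hF1α⟩ :=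
        hN1 N hN1' n P η (F0 \ U) G0 α β (R0.filter (fun x => ¬ x.1 ∈ U)) hP hPN hn hnN hη hηP hRel' hbig
      have hdisj : Disjoint U F1 := by
        rw [disjoint_left]
        intro i hi hi1
        exact (mem_sdiff.1 (hF1 hi1)).2 hi
      refine ⟨U ∪ F1, fun i => if i ∈ U then s i else r, Function.update d r d0, Function.update b r b0,
        Function.update T r T0, ?_, ?_, ?_, ?_, ?_⟩
      · exact union_subset hU (hF1.trans sdiff_subset)
      · rw [card_union_of_disjoint hdisj]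
        push_cast
        linarith
      · intro i hi
        by_cases h : i ∈ U
        · simp only [h, if_true]
          exact (hs i h).trans (Nat.lt_succ_self r)
        · simp only [h, if_false]
          exact Nat.lt_succ_self r
      · intro j hj
        rcases Nat.lt_succ_iff_lt_or_eq.1 hj with h | h
        · rw [Function.update_of_ne h.ne, Function.update_of_ne h.ne, Function.update_of_ne h.ne]
          exact hdat j h
        · rw [h, Function.update_self, Function.update_self, Function.update_self]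
          exact ⟨hd1, hdQ, hbd, hT0⟩
      · intro i hi
        by_cases h : i ∈ U
        · simp only [h, if_true]
          have h1 := (hs i h).ne
          rw [Function.update_of_ne h1, Function.update_of_ne h1, Function.update_of_ne h1]
          exact hfrq i h
        · simp only [h, if_false]
          rw [Function.update_self, Function.update_self, Function.update_self]
          exact hF1α i ((mem_union.1 hi).resolve_left h)
  obtain ⟨r, hr⟩ := exists_nat_gt (C * Real.exp (Real.log N ^ t2))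
  obtain ⟨U, s, d, b, T, hA⟩ := hall r
  have := Cover_le hC hn hQ hRel.rngF hA
  linarith

end Pool.Agent.H53.MDB
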