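import Pool.Agent.H53.MIX.Defs

/-!
# MDB Defs: the boost (part II of project MDX/MIX)

`L = log N`, `Q = exp(L^t2)`.
* `CombWk t t2`: the weak combinatorial theorem (project MDX of helper74): a rational approximation with denominator `d ≤ Q` on a set `F1` of `≥ n/Q` indices.
* `QS C P U`: the quadruples `((i, p), (i', p'))` with `i, i' ∈ U`, `p, p'` primes in `(P, 2P]`, `|i p' - i' p| ≤ 4 C P`.
* `Cov C n Q η α r U s d b T`: the set `U` is divided into `r ≤ C Q` classes (`s i < r` is the number of the class of `i`); `j`-th class: data `d j ≤ Q`, `b j` prime to `d j`, `|T j| ≤ Q η n^2`, and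
  `nz (α i - b/d - T/i) ≤ Q η` for all `i` of the class.
* `NB C P U δ bb`: the quadruples of `QS` with `p bb(i) ≡ p' bb(i') mod δ`.
* `sres P δ r t = ∑_{P < m ≤ 2P, m ≡ r mod δ} m^(-2πit)`.
* `GG P δ U bb t = ∑_{β mod δ} |∑_{i ∈ U} ∑_{P < m ≤ 2P, (m,δ)=1, m bb(i) ≡ β} (i/m)^(2πit)|^2`.
-/

set_option autoImplicit false

namespace Pool.Agent.H53.MDB

open Finset
open Pool.Agent.H91.PK (ee)
open Pool.Agent.H53.MID (nz Rel)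

/-- the weak combinatorial theorem -/
def CombWk (t t2 : ℝ) : Prop := ∀ (C : ℝ), 1 ≤ C → ∀ C0 : ℕ, ∃ N0 : ℕ, ∀ N : ℕ, N0 ≤ N →
  ∀ (n P : ℕ) (η : ℝ) (F0 G0 : Finset ℕ) (α β : ℕ → ℝ) (R0 : Finset (ℕ × ℕ × ℕ)),
    Real.exp (Real.log N ^ t) ≤ P → P ≤ N → 1 ≤ n → n ≤ N → 0 < η → η * Real.exp (Real.log N ^ t2) * (P : ℝ) ^ 3 ≤ 1 →
    Rel C n P (η * P) F0 G0 α β R0 → n * P / Real.log N ^ C0 ≤ (R0.card : ℝ) →
    ∃ (d b : ℕ) (T : ℝ) (F1 : Finset ℕ), 1 ≤ d ∧ (d : ℝ) ≤ Real.exp (Real.log N ^ t2) ∧ Nat.Coprime b d ∧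
      |T| ≤ Real.exp (Real.log N ^ t2) * η * (n : ℝ) ^ 2 ∧ F1 ⊆ F0 ∧ (n : ℝ) ≤ Real.exp (Real.log N ^ t2) * F1.card ∧
      ∀ i ∈ F1, nz (α i - b / d - T / i) ≤ Real.exp (Real.log N ^ t2) * η

/-- quadruples -/
noncomputable def QS (C : ℝ) (P : ℕ) (U : Finset ℕ) : Finset ((ℕ × ℕ) × (ℕ × ℕ)) := by
  classical
  exact ((U ×ˢ (Ioc P (2 * P)).filter Nat.Prime) ×ˢ (U ×ˢ (Ioc P (2 * P)).filter Nat.Prime)).filter
    (fun q => |(q.1.1 : ℝ) * q.2.2 - q.2.1 * q.1.2| ≤ 4 * C * P)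

theorem mem_QS {C : ℝ} {P : ℕ} {U : Finset ℕ} {q : (ℕ × ℕ) × (ℕ × ℕ)} :
    q ∈ QS C P U ↔ q.1.1 ∈ U ∧ P < q.1.2 ∧ q.1.2 ≤ 2 * P ∧ q.1.2.Prime ∧ q.2.1 ∈ U ∧ P < q.2.2 ∧ q.2.2 ≤ 2 * P ∧ q.2.2.Prime ∧
      |(q.1.1 : ℝ) * q.2.2 - q.2.1 * q.1.2| ≤ 4 * C * P := by
  classical
  unfold QS
  rw [Finset.mem_filter, Finset.mem_product, Finset.mem_product, Finset.mem_product, Finset.mem_filter, Finset.mem_filter,
    Finset.mem_Ioc, Finset.mem_Ioc]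
  tauto

/-- the cover of `U` by classes with a common rational approximation -/
structure Cov (C : ℝ) (n : ℕ) (Q η : ℝ) (α : ℕ → ℝ) (r : ℕ) (U : Finset ℕ) (s d b : ℕ → ℕ) (T : ℕ → ℝ) : Prop where
  cnt : (r : ℝ) ≤ C * Q
  rng : ∀ i ∈ U, (n : ℝ) / C ≤ i ∧ (i : ℝ) ≤ C * n
  lab : ∀ i ∈ U, s i < r
  dat : ∀ j < r, 1 ≤ d j ∧ (d j : ℝ) ≤ Q ∧ Nat.Coprime (b j) (d j) ∧ |T j| ≤ Q * η * (n : ℝ) ^ 2
  frq : ∀ i ∈ U, nz (α i - b (s i) / d (s i) - T (s i) / i) ≤ Q * η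

/-- quadruples with the congruence -/
noncomputable def NB (C : ℝ) (P : ℕ) (U : Finset ℕ) (δ : ℕ) (bb : ℕ → ℕ) : Finset ((ℕ × ℕ) × (ℕ × ℕ)) := by
  classical
  exact (QS C P U).filter (fun q => q.1.2 * bb q.1.1 ≡ q.2.2 * bb q.2.1 [MOD δ])

theorem mem_NB {C : ℝ} {P : ℕ} {U : Finset ℕ} {δ : ℕ} {bb : ℕ → ℕ} {q : (ℕ × ℕ) × (ℕ × ℕ)} :
    q ∈ NB C P U δ bb ↔ q ∈ QS C P U ∧ q.1.2 * bb q.1.1 ≡ q.2.2 * bb q.2.1 [MOD δ] := by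
  classical
  unfold NB
  rw [Finset.mem_filter]

/-- integers in a residue class -/
noncomputable def sres (P δ r : ℕ) (t : ℝ) : ℂ :=
  ∑ m ∈ (Ioc P (2 * P)).filter (fun m => m % δ = r % δ), ee (-(t * Real.log m))

/-- the sum over residue classes of the squares -/
noncomputable def GG (P δ : ℕ) (U : Finset ℕ) (bb : ℕ → ℕ) (t : ℝ) : ℝ :=
  ∑ β ∈ range δ, ‖∑ i ∈ U, ∑ m ∈ (Ioc P (2 * P)).filter (fun m => Nat.Coprime m δ ∧ (m * bb i) % δ = β),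
    ee (t * (Real.log i - Real.log m))‖ ^ 2

end Pool.Agent.H53.MDB
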