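import Pool.Agent.H53.MDB.Defs

/-!
# MDB Fej: pairs with close values, by an exponential integral

Proof.  Write `I(y) = ∫_0^V ee(t y) dt`.  If `|y| V ≤ 1/2` then `|I(y)| ≥ V/2`: for `y = 0` clear, otherwise `I(y) = (ee(V y) - 1)/(2πi y)`, `|I(y)| = |sin(π V y)|/(π |y|) ≥ (2/π) V ≥ V/2` (`|sin u| ≥ (2/π)|u|` for `|u| ≤ π/2`, Jordan:
`Real.mul_le_sin` / `Real.mul_abs_le_abs_sin`).  Or directly: `Re ee(t y) = cos(2π t y)`, and `cos u ≥ 1 - 2u/π` on `[0, π]` (`Real.one_sub_mul_le_cos`...), so `Re I(y) ≥ ∫_0^V (1 - 4 t |y|) dt = V - 2 V^2 |y|`, good only for `|y| V ≤ 1/4`; use the first way.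
So `1 ≤ (4/V^2) |I(y)|^2`, and `|I(y)|^2 ≥ 0` for all `y`.  `|I(y)|^2 = ∫_0^V ∫_0^V ee((t - t') y) dt' dt`.  Sum over all pairs `(s, s')` with `c s = c s'`, `y = x s - x s'`:
`N ≤ (4/V^2) ∫_0^V ∫_0^V ∑_{β ∈ B} ∑_{s, s' ∈ S_β} ee((t - t')(x s - x s')) = (4/V^2) ∫_0^V ∫_0^V G(t - t') dt' dt`, `G(u) = ∑_β |∑_{s ∈ S_β} ee(u x_s)|^2 ≥ 0`, and for every `t ∈ [0, V]`:
`∫_0^V G(t - t') dt' = ∫_{t-V}^{t} G(u) du ≤ ∫_{-V}^{V} G`.  So `N ≤ (4/V) ∫_{-V}^{V} G`.
Alternative without double integrals: `|I(y)|^2 = ∫_{-V}^{V} (V - |u|) ee(u y) du` is also fine (compute both sides for `y ≠ 0`, and `y = 0`).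
-/

set_option autoImplicit false

namespace Pool.Agent.H53.MDB

open Finset MeasureTheory
open Pool.Agent.H91.PK (ee)

/-- the Fejer kernel as an integral -/
private noncomputable def Fej_F (V y : ℝ) : ℝ :=
  ∫ t in Set.Icc (-V) V, (V - |t|) * Real.cos (2 * Real.pi * (t * y))

private theorem Fej_half {V w : ℝ} (hV : 0 < V) (hw : w ≠ 0) :
    ∫ t in Set.Icc (-V) V, (V - |t|) * Real.cos (w * t) = 2 * (1 - Real.cos (w * V)) / w ^ 2 := by
  have hcont : Continuous (fun t : ℝ => (V - |t|) * Real.cos (w * t)) := by fun_prop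
  rw [integral_Icc_eq_integral_Ioc, ← intervalIntegral.integral_of_le (by linarith),
    ← intervalIntegral.integral_add_adjacent_intervals (b := 0)
      (hcont.intervalIntegrable _ _) (hcont.intervalIntegrable _ _)]
  have h1 : ∫ t in (-V)..0, (V - |t|) * Real.cos (w * t) = (1 - Real.cos (w * V)) / w ^ 2 := by
    have e1 : ∫ t in (-V)..0, (V - |t|) * Real.cos (w * t) = ∫ t in (-V)..0, (V + t) * Real.cos (w * t) := by
      refine intervalIntegral.integral_congr fun t ht => ?_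
      rw [Set.uIcc_of_le (by linarith)] at ht
      rw [abs_of_nonpos ht.2, sub_neg_eq_add]
    rw [e1, intervalIntegral.integral_eq_sub_of_hasDerivAt
      (f := fun t => (V + t) * Real.sin (w * t) / w + Real.cos (w * t) / w ^ 2)]
    · simp only [mul_zero, Real.sin_zero, Real.cos_zero, add_neg_cancel, zero_mul, zero_div, zero_add,
        mul_neg, Real.cos_neg]
      ring
    · intro t _
      have d1 : HasDerivAt (fun t : ℝ => w * t) w t := by
        simpa using (hasDerivAt_id t).const_mul w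
      have d2 : HasDerivAt (fun t : ℝ => V + t) 1 t := by
        simpa using (hasDerivAt_id t).const_add V
      have d3 := ((d2.fun_mul d1.sin).div_const w).fun_add (d1.cos.div_const (w ^ 2))
      refine d3.congr_deriv ?_
      field_simp
      ring
    · exact (Continuous.intervalIntegrable (by fun_prop) _ _)
  have h2 : ∫ t in (0 : ℝ)..V, (V - |t|) * Real.cos (w * t) = (1 - Real.cos (w * V)) / w ^ 2 := by
    have e1 : ∫ t in (0 : ℝ)..V, (V - |t|) * Real.cos (w * t) = ∫ t in (0 : ℝ)..V, (V - t) * Real.cos (w * t) := by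
      refine intervalIntegral.integral_congr fun t ht => ?_
      rw [Set.uIcc_of_le hV.le] at ht
      rw [abs_of_nonneg ht.1]
    rw [e1, intervalIntegral.integral_eq_sub_of_hasDerivAt
      (f := fun t => (V - t) * Real.sin (w * t) / w - Real.cos (w * t) / w ^ 2)]
    · simp only [mul_zero, Real.sin_zero, Real.cos_zero, sub_self, zero_mul, zero_div, zero_sub, sub_zero]
      ring
    · intro t _
      have d1 : HasDerivAt (fun t : ℝ => w * t) w t := by
        simpa using (hasDerivAt_id t).const_mul w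
      have d2 : HasDerivAt (fun t : ℝ => V - t) (-1) t := by
        simpa using (hasDerivAt_id t).const_sub V
      have d3 := ((d2.fun_mul d1.sin).div_const w).fun_sub (d1.cos.div_const (w ^ 2))
      refine d3.congr_deriv ?_
      field_simp
      ring
    · exact (Continuous.intervalIntegrable (by fun_prop) _ _)
  rw [h1, h2]
  ring

private theorem Fej_zero {V : ℝ} (hV : 0 < V) :
    ∫ t in Set.Icc (-V) V, (V - |t|) = V ^ 2 := by
  have hcont : Continuous (fun t : ℝ => (V - |t|)) := by fun_prop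
  rw [integral_Icc_eq_integral_Ioc, ← intervalIntegral.integral_of_le (by linarith),
    ← intervalIntegral.integral_add_adjacent_intervals (b := 0)
      (hcont.intervalIntegrable _ _) (hcont.intervalIntegrable _ _)]
  have h1 : ∫ t in (-V)..0, (V - |t|) = V ^ 2 / 2 := by
    have e1 : ∫ t in (-V)..0, (V - |t|) = ∫ t in (-V)..0, (V + t) := by
      refine intervalIntegral.integral_congr fun t ht => ?_
      rw [Set.uIcc_of_le (by linarith)] at ht
      rw [abs_of_nonpos ht.2, sub_neg_eq_add]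
    rw [e1, intervalIntegral.integral_eq_sub_of_hasDerivAt (f := fun t => V * t + t ^ 2 / 2)]
    · ring
    · intro t _
      have d1 : HasDerivAt (fun t : ℝ => V * t) V t := by
        simpa using (hasDerivAt_id t).const_mul V
      have d4 : HasDerivAt (fun t : ℝ => t ^ 2) (2 * t) t := by
        simpa using hasDerivAt_pow 2 t
      refine (d1.fun_add (d4.div_const 2)).congr_deriv ?_
      ring
    · exact (Continuous.intervalIntegrable (by fun_prop) _ _)
  have h2 : ∫ t in (0 : ℝ)..V, (V - |t|) = V ^ 2 / 2 := by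
    have e1 : ∫ t in (0 : ℝ)..V, (V - |t|) = ∫ t in (0 : ℝ)..V, (V - t) := by
      refine intervalIntegral.integral_congr fun t ht => ?_
      rw [Set.uIcc_of_le hV.le] at ht
      rw [abs_of_nonneg ht.1]
    rw [e1, intervalIntegral.integral_eq_sub_of_hasDerivAt (f := fun t => V * t - t ^ 2 / 2)]
    · ring
    · intro t _
      have d1 : HasDerivAt (fun t : ℝ => V * t) V t := by
        simpa using (hasDerivAt_id t).const_mul V
      have d4 : HasDerivAt (fun t : ℝ => t ^ 2) (2 * t) t := by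
        simpa using hasDerivAt_pow 2 t
      refine (d1.fun_sub (d4.div_const 2)).congr_deriv ?_
      ring
    · exact (Continuous.intervalIntegrable (by fun_prop) _ _)
  rw [h1, h2]
  ring

private theorem Fej_F_eq {V y : ℝ} (hV : 0 < V) (hy : y ≠ 0) :
    Fej_F V y = 2 * (1 - Real.cos (2 * Real.pi * y * V)) / (2 * Real.pi * y) ^ 2 := by
  rw [← Fej_half hV (mul_ne_zero (by positivity) hy)]
  unfold Fej_F
  refine integral_congr_ae (Filter.Eventually.of_forall fun t => ?_)
  simp only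
  congr 2
  ring

private theorem Fej_F_zero {V : ℝ} (hV : 0 < V) : Fej_F V 0 = V ^ 2 := by
  rw [← Fej_zero hV]
  unfold Fej_F
  refine integral_congr_ae (Filter.Eventually.of_forall fun t => ?_)
  simp

private theorem Fej_F_nonneg {V : ℝ} (hV : 0 < V) (y : ℝ) : 0 ≤ Fej_F V y := by
  rcases eq_or_ne y 0 with h | h
  · rw [h, Fej_F_zero hV]
    positivity
  · rw [Fej_F_eq hV h]
    have := Real.cos_le_one (2 * Real.pi * y * V)
    refine div_nonneg ?_ (by positivity)
    linarith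

private theorem Fej_F_ge {V : ℝ} (hV : 0 < V) (y : ℝ) (hy : |y| * V ≤ 1 / 2) : V ^ 2 / 4 ≤ Fej_F V y := by
  rcases eq_or_ne y 0 with h | h
  · rw [h, Fej_F_zero hV]
    nlinarith [sq_nonneg V]
  · rw [Fej_F_eq hV h]
    have hpi := Real.pi_pos
    have hy0 : 0 < |y| := abs_pos.2 h
    -- `1 - cos x = 2 sin^2 (x/2)`, `x/2 = π |y| V`
    have h1 : Real.cos (2 * Real.pi * y * V) = Real.cos (2 * (Real.pi * (|y| * V))) := by
      rcases abs_choice y with h2 | h2
      · rw [h2]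
        congr 1
        ring
      · rw [h2, ← Real.cos_neg]
        congr 1
        ring
    have h3 : 2 / Real.pi * (Real.pi * (|y| * V)) ≤ Real.sin (Real.pi * (|y| * V)) := by
      refine Real.mul_le_sin (by positivity) ?_
      nlinarith
    have h4 : 2 / Real.pi * (Real.pi * (|y| * V)) = 2 * (|y| * V) := by
      field_simp
    rw [h4] at h3
    have h5 : (2 * (|y| * V)) ^ 2 ≤ Real.sin (Real.pi * (|y| * V)) ^ 2 :=
      pow_le_pow_left₀ (by positivity) h3 2
    have h6 : 1 - Real.cos (2 * Real.pi * y * V) = 2 * Real.sin (Real.pi * (|y| * V)) ^ 2 := by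
      rw [h1, Real.cos_two_mul, Real.cos_sq']
      ring
    rw [h6]
    have h7 : (2 * Real.pi * y) ^ 2 = 4 * Real.pi ^ 2 * |y| ^ 2 := by
      rw [sq_abs]
      ring
    rw [h7, le_div_iff₀ (by positivity)]
    have h8 : Real.pi ^ 2 ≤ 16 := by
      nlinarith [Real.pi_le_four]
    have h9 : 0 ≤ V ^ 2 * |y| ^ 2 := by positivity
    nlinarith

private theorem Fej_re (a b : ℝ) : (ee a * (starRingEnd ℂ) (ee b)).re = Real.cos (2 * Real.pi * (a - b)) := by
  unfold Pool.Agent.H91.PK.ee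
  rw [← Complex.exp_conj, ← Complex.exp_add]
  have h : 2 * (Real.pi : ℂ) * (a : ℂ) * Complex.I +
      (starRingEnd ℂ) (2 * (Real.pi : ℂ) * (b : ℂ) * Complex.I) =
      ((2 * Real.pi * (a - b) : ℝ) : ℂ) * Complex.I := by
    simp only [map_mul, Complex.conj_ofReal, Complex.conj_I, map_ofNat]
    push_cast
    ring
  rw [h, Complex.exp_ofReal_mul_I_re]

private theorem Fej_sq {ι : Type} (T : Finset ι) (x : ι → ℝ) (t : ℝ) :
    ‖∑ s ∈ T, ee (t * x s)‖ ^ 2 = ∑ s ∈ T, ∑ s' ∈ T, Real.cos (2 * Real.pi * (t * (x s - x s'))) := by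
  have h1 : ((‖∑ s ∈ T, ee (t * x s)‖ ^ 2 : ℝ) : ℂ) =
      (∑ s ∈ T, ee (t * x s)) * (starRingEnd ℂ) (∑ s ∈ T, ee (t * x s)) := by
    rw [Complex.mul_conj, Complex.normSq_eq_norm_sq]
  have h2 : ‖∑ s ∈ T, ee (t * x s)‖ ^ 2 =
      ((∑ s ∈ T, ee (t * x s)) * (starRingEnd ℂ) (∑ s ∈ T, ee (t * x s))).re := by
    rw [← h1, Complex.ofReal_re]
  rw [h2, map_sum, Finset.sum_mul_sum, Complex.re_sum]
  refine sum_congr rfl fun s _ => ?_
  rw [Complex.re_sum]
  refine sum_congr rfl fun s' _ => ?_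
  rw [Fej_re]
  congr 2
  ring

open Classical in
theorem fej {ι : Type} (S : Finset ι) (x : ι → ℝ) (c : ι → ℕ) (B : Finset ℕ) (V : ℝ) (hV : 0 < V) (hc : ∀ s ∈ S, c s ∈ B) :
    (((S ×ˢ S).filter (fun q => c q.1 = c q.2 ∧ |x q.1 - x q.2| * V ≤ 1 / 2)).card : ℝ) ≤
      4 / V * ∫ t in Set.Icc (-V) V, ∑ β ∈ B, ‖∑ s ∈ S.filter (fun s => c s = β), ee (t * x s)‖ ^ 2 := by
  set Pr := (S ×ˢ S).filter (fun q => c q.1 = c q.2) with hPr
  -- the sum over the pairs
  have hG : ∀ t : ℝ, ∑ β ∈ B, ‖∑ s ∈ S.filter (fun s => c s = β), ee (t * x s)‖ ^ 2 =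
      ∑ q ∈ Pr, Real.cos (2 * Real.pi * (t * (x q.1 - x q.2))) := by
    intro t
    have h1 : ∀ β ∈ B, ‖∑ s ∈ S.filter (fun s => c s = β), ee (t * x s)‖ ^ 2 =
        ∑ s ∈ S.filter (fun s => c s = β), ∑ s' ∈ S.filter (fun s' => c s = c s'),
          Real.cos (2 * Real.pi * (t * (x s - x s'))) := by
      intro β _
      rw [Fej_sq]
      refine sum_congr rfl fun s hs => ?_
      rw [(mem_filter.1 hs).2]
      refine sum_congr ?_ fun _ _ => rfl
      ext s'
      rw [mem_filter, mem_filter, eq_comm (a := β)]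
    rw [sum_congr rfl h1, sum_fiberwise_of_maps_to (g := c)
      (f := fun s => ∑ s' ∈ S.filter (fun s' => c s = c s'), Real.cos (2 * Real.pi * (t * (x s - x s')))) hc,
      hPr, sum_filter, sum_product]
    refine sum_congr rfl fun s _ => ?_
    rw [sum_filter]
  have hcontq : ∀ q : ι × ι, Continuous (fun t : ℝ => Real.cos (2 * Real.pi * (t * (x q.1 - x q.2)))) := by
    intro q
    fun_prop
  have hGcont : Continuous (fun t : ℝ => ∑ q ∈ Pr, Real.cos (2 * Real.pi * (t * (x q.1 - x q.2)))) :=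
    continuous_finsetSum _ fun q _ => hcontq q
  have hGnn : ∀ t : ℝ, 0 ≤ ∑ q ∈ Pr, Real.cos (2 * Real.pi * (t * (x q.1 - x q.2))) := by
    intro t
    rw [← hG t]
    exact sum_nonneg fun _ _ => by positivity
  have hint : ∫ t in Set.Icc (-V) V, ∑ β ∈ B, ‖∑ s ∈ S.filter (fun s => c s = β), ee (t * x s)‖ ^ 2 =
      ∫ t in Set.Icc (-V) V, ∑ q ∈ Pr, Real.cos (2 * Real.pi * (t * (x q.1 - x q.2))) := by
    refine integral_congr_ae (Filter.Eventually.of_forall fun t => ?_)
    exact hG t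
  rw [hint]
  -- the sum of the kernels
  have hsum : ∑ q ∈ Pr, Fej_F V (x q.1 - x q.2) ≤
      V * ∫ t in Set.Icc (-V) V, ∑ q ∈ Pr, Real.cos (2 * Real.pi * (t * (x q.1 - x q.2))) := by
    have h1 : ∑ q ∈ Pr, Fej_F V (x q.1 - x q.2) =
        ∫ t in Set.Icc (-V) V, (V - |t|) * ∑ q ∈ Pr, Real.cos (2 * Real.pi * (t * (x q.1 - x q.2))) := by
      unfold Fej_F
      rw [← integral_finsetSum]
      · refine integral_congr_ae (Filter.Eventually.of_forall fun t => ?_)
        simp only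
        rw [mul_sum]
      · intro q _
        exact (Continuous.continuousOn (by fun_prop)).integrableOn_Icc
    rw [h1, ← integral_const_mul]
    refine setIntegral_mono_on ?_ ?_ measurableSet_Icc fun t ht => ?_
    · exact (Continuous.continuousOn ((by fun_prop : Continuous fun t : ℝ => V - |t|).mul hGcont)).integrableOn_Icc
    · exact (Continuous.continuousOn (continuous_const.mul hGcont)).integrableOn_Icc
    · refine mul_le_mul_of_nonneg_right ?_ (hGnn t)
      have := abs_nonneg t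
      linarith
  have hcard : (((S ×ˢ S).filter (fun q => c q.1 = c q.2 ∧ |x q.1 - x q.2| * V ≤ 1 / 2)).card : ℝ) * (V ^ 2 / 4) ≤
      ∑ q ∈ Pr, Fej_F V (x q.1 - x q.2) := by
    have h1 : (S ×ˢ S).filter (fun q => c q.1 = c q.2 ∧ |x q.1 - x q.2| * V ≤ 1 / 2) ⊆ Pr := by
      intro q hq
      rw [mem_filter] at hq
      exact mem_filter.2 ⟨hq.1, hq.2.1⟩
    have h2 : ∑ q ∈ (S ×ˢ S).filter (fun q => c q.1 = c q.2 ∧ |x q.1 - x q.2| * V ≤ 1 / 2), (V ^ 2 / 4) ≤
        ∑ q ∈ (S ×ˢ S).filter (fun q => c q.1 = c q.2 ∧ |x q.1 - x q.2| * V ≤ 1 / 2),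
          Fej_F V (x q.1 - x q.2) :=
      sum_le_sum fun q hq => Fej_F_ge hV _ (mem_filter.1 hq).2.2
    rw [sum_const, nsmul_eq_mul] at h2
    exact h2.trans (sum_le_sum_of_subset_of_nonneg h1 fun q _ _ => Fej_F_nonneg hV _)
  have h3 := hcard.trans hsum
  have h4 : 4 / V * ∫ t in Set.Icc (-V) V, ∑ q ∈ Pr, Real.cos (2 * Real.pi * (t * (x q.1 - x q.2))) =
      (V * ∫ t in Set.Icc (-V) V, ∑ q ∈ Pr, Real.cos (2 * Real.pi * (t * (x q.1 - x q.2)))) / (V ^ 2 / 4) := by
    field_simp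
  rw [h4, le_div_iff₀ (by positivity)]
  exact h3

end Pool.Agent.H53.MDB
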