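import Pool.Agent.H53.MDB.Defs

/-!
# MDB Osc: few indices `i` with `W/i` near an integer

Proof.  By `nz_neg` we may assume `W > 0` (`nz (-t) = nz t`, replace `W` by `|W|`: `|W|/i = ± W/i`).  For `i ∈ S` let `m(i) = round (W/i)`: `|W/i - m(i)| ≤ κ ≤ 1/2`, so `m(i) ≥ 0` (as `W/i > 0`, `m ≥ -1/2`) and
`m(i) ≤ W C/n + 1/2`.  So the `m(i)` take at most `W C/n + 3/2` values.  Fibre of `m`: if `i < i'` are both in it then `W/i - W/i' ≤ 2κ` and `W/i - W/i' = W (i' - i)/(i i') ≥ W (i' - i)/(C^2 n^2)`, so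
`i' - i ≤ 2 κ C^2 n^2/W`: the fibre is contained in an interval of this length and has at most `2 κ C^2 n^2/W + 1` elements.  `S.card ≤ (number of values) * (max fibre)` (`Finset.card_le_mul_card_image` or
`card_eq_sum_card_fiberwise`).
-/

set_option autoImplicit false

namespace Pool.Agent.H53.MDB

open Finset
open Pool.Agent.H53.MID (nz)

/-- a set of natural numbers of diameter at most `D` -/
private theorem Osc_diam (D : ℝ) (T : Finset ℕ) (hD : 0 ≤ D)
    (hT : ∀ i ∈ T, ∀ i' ∈ T, i < i' → (i' : ℝ) - i ≤ D) : (T.card : ℝ) ≤ D + 1 := by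
  rcases T.eq_empty_or_nonempty with h0 | hne
  · rw [h0, Finset.card_empty, Nat.cast_zero]
    linarith
  · obtain ⟨a, ha⟩ : ∃ a, a = T.min' hne := ⟨_, rfl⟩
    have haT : a ∈ T := by
      rw [ha]
      exact Finset.min'_mem _ _
    have hsub : T ⊆ Finset.Icc a (a + ⌊D⌋₊) := by
      intro i hi
      have h1 : a ≤ i := by
        rw [ha]
        exact Finset.min'_le _ _ hi
      rw [Finset.mem_Icc]
      refine ⟨h1, ?_⟩
      rcases h1.eq_or_lt with h2 | h2
      · omega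
      · have h3 := hT a haT i hi h2
        have h4 : ((i - a : ℕ) : ℝ) ≤ D := by
          rw [Nat.cast_sub h1]
          exact h3
        have h5 : i - a ≤ ⌊D⌋₊ := Nat.le_floor h4
        omega
    have h6 : (T.card : ℝ) ≤ ((⌊D⌋₊ + 1 : ℕ) : ℝ) := by
      have h7 : T.card ≤ ⌊D⌋₊ + 1 := by
        refine (Finset.card_le_card hsub).trans ?_
        rw [Nat.card_Icc]
        omega
      exact_mod_cast h7
    refine h6.trans ?_
    push_cast
    have := Nat.floor_le hD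
    linarith

/-- the case of a positive number -/
private theorem Osc_pos (C : ℝ) (hC : 1 ≤ C) (n : ℕ) (W κ : ℝ) (hn : 1 ≤ n) (hW : 0 < W) (hκ : 0 ≤ κ)
    (hκ2 : κ ≤ 1 / 2) (S : Finset ℕ)
    (hS : ∀ i ∈ S, (n : ℝ) / C ≤ i ∧ (i : ℝ) ≤ C * n ∧ nz (W / i) ≤ κ) :
    (S.card : ℝ) ≤ (C * W / n + 2) * (2 * κ * C ^ 2 * n ^ 2 / W + 1) := by
  have hn0 : (0 : ℝ) < n := by exact_mod_cast hn
  have hC0 : 0 < C := by linarith
  have hD : 0 ≤ 2 * κ * C ^ 2 * (n : ℝ) ^ 2 / W := by positivity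
  have hi0 : ∀ i ∈ S, (0 : ℝ) < i := fun i hi => lt_of_lt_of_le (by positivity) (hS i hi).1
  have h1 : (S.card : ℝ) = ∑ m ∈ S.image (fun i : ℕ => round (W / i)),
      ((S.filter (fun i : ℕ => round (W / i) = m)).card : ℝ) := by
    rw [Finset.card_eq_sum_card_image (fun i : ℕ => round (W / i)) S]
    push_cast
    rfl
  have h2 : ∀ m ∈ S.image (fun i : ℕ => round (W / i)),
      ((S.filter (fun i : ℕ => round (W / i) = m)).card : ℝ) ≤ 2 * κ * C ^ 2 * n ^ 2 / W + 1 := by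
    intro m _
    refine Osc_diam _ _ hD fun i hi i' hi' hlt => ?_
    rw [Finset.mem_filter] at hi hi'
    have a1 := (hS i hi.1).2.2
    have a2 := (hS i' hi'.1).2.2
    unfold nz at a1 a2
    rw [hi.2, abs_le] at a1
    rw [hi'.2, abs_le] at a2
    have b1 := hi0 i hi.1
    have b2 := hi0 i' hi'.1
    have a3 : W / i - W / i' ≤ 2 * κ := by linarith [a1.2, a2.1]
    have a4 : W / i - W / i' = W * ((i' : ℝ) - i) / (i * i') := by
      field_simp
    rw [a4, div_le_iff₀ (by positivity)] at a3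
    have a5 : (i : ℝ) * i' ≤ (C * n) * (C * n) :=
      mul_le_mul (hS i hi.1).2.1 (hS i' hi'.1).2.1 b2.le (by positivity)
    rw [le_div_iff₀ hW]
    have a6 : 2 * κ * ((i : ℝ) * i') ≤ 2 * κ * ((C * n) * (C * n)) :=
      mul_le_mul_of_nonneg_left a5 (by positivity)
    nlinarith
  have h3 : (((S.image (fun i : ℕ => round (W / i))).card : ℕ) : ℝ) ≤ C * W / n + 2 := by
    have h4 : S.image (fun i : ℕ => round (W / i)) ⊆ Finset.Icc (0 : ℤ) ⌊C * W / n + 1 / 2⌋ := by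
      intro m hm
      rw [Finset.mem_image] at hm
      obtain ⟨i, hi, rfl⟩ := hm
      obtain ⟨a1, a2, a3⟩ := hS i hi
      have b1 := hi0 i hi
      unfold nz at a3
      rw [abs_le] at a3
      have c1 : 0 < W / (i : ℝ) := by positivity
      have c2 : W / (i : ℝ) ≤ C * W / n := by
        rw [div_le_iff₀ hC0] at a1
        rw [div_le_div_iff₀ b1 hn0]
        nlinarith
      rw [Finset.mem_Icc]
      constructor
      · have c3 : (-1 : ℝ) < (round (W / (i : ℝ)) : ℝ) := by linarith [a3.2]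
        have c4 : (-1 : ℤ) < round (W / (i : ℝ)) := by exact_mod_cast c3
        omega
      · rw [Int.le_floor]
        linarith [a3.1]
    have h5 := Finset.card_le_card h4
    rw [Int.card_Icc] at h5
    have h6 : (0 : ℤ) ≤ ⌊C * W / n + 1 / 2⌋ := by
      rw [Int.le_floor]
      push_cast
      positivity
    have h7 : ((⌊C * W / n + 1 / 2⌋ + 1 - 0).toNat : ℤ) = ⌊C * W / n + 1 / 2⌋ + 1 := by
      rw [Int.toNat_of_nonneg (by omega)]
      ring
    have h8 : (((S.image (fun i : ℕ => round (W / i))).card : ℤ) : ℝ) ≤ ((⌊C * W / n + 1 / 2⌋ + 1 : ℤ) : ℝ) := by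
      have h9 : (((S.image (fun i : ℕ => round (W / i))).card : ℕ) : ℤ) ≤ ⌊C * W / n + 1 / 2⌋ + 1 := by
        rw [← h7]
        exact_mod_cast h5
      exact_mod_cast h9
    push_cast at h8
    have h10 := Int.floor_le (C * W / n + 1 / 2)
    linarith
  rw [h1]
  refine (Finset.sum_le_sum h2).trans ?_
  rw [Finset.sum_const, nsmul_eq_mul]
  exact mul_le_mul_of_nonneg_right h3 (by linarith)

theorem osc (C : ℝ) (hC : 1 ≤ C) (n : ℕ) (W κ : ℝ) (hn : 1 ≤ n) (hW : W ≠ 0) (hκ : 0 ≤ κ) (hκ2 : κ ≤ 1 / 2) (S : Finset ℕ)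
    (hS : ∀ i ∈ S, (n : ℝ) / C ≤ i ∧ (i : ℝ) ≤ C * n ∧ nz (W / i) ≤ κ) :
    (S.card : ℝ) ≤ (C * |W| / n + 2) * (2 * κ * C ^ 2 * n ^ 2 / |W| + 1) := by
  refine Osc_pos C hC n |W| κ hn (abs_pos.2 hW) hκ hκ2 S fun i hi => ?_
  obtain ⟨a1, a2, a3⟩ := hS i hi
  refine ⟨a1, a2, ?_⟩
  rcases abs_choice W with h | h
  · rw [h]
    exact a3
  · rw [h, neg_div, Pool.Agent.H53.MID.nz_neg]
    exact a3

end Pool.Agent.H53.MDB
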